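import Mathlib

set_option autoImplicit false

/-! Permutational free wreath products `FreeGroup X ⋊ Q`, their functoriality, and the
realisation of partial isomorphisms by conjugation in a permutation group. -/

namespace Pool.Agent.Helper14.Boone

open FreeGroup SemidirectProduct

universe u v w z

section Wr

/-- Action of `Q` on the free group on a `Q`-set. -/
def act (Q : Type u) (X : Type v) [Group Q] [MulAction Q X] : Q →* MulAut (FreeGroup X) where
  toFun q := freeGroupCongr (MulAction.toPerm q)
  map_one' := by
    apply MulEquiv.toMonoidHom_injective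
    apply FreeGroup.ext_hom
    intro a
    simp
  map_mul' p q := by
    apply MulEquiv.toMonoidHom_injective
    apply FreeGroup.ext_hom
    intro a
    simp [mul_smul]

theorem act_of {Q : Type u} {X : Type v} [Group Q] [MulAction Q X] (q : Q) (x : X) :
    act Q X q (of x) = of (q • x) := by
  simp [act]

/-- The free wreath product. -/
abbrev Wr (Q : Type u) (X : Type v) [Group Q] [MulAction Q X] : Type (max u v) :=
  FreeGroup X ⋊[act Q X] Q

variable {Q : Type u} {X : Type v} [Group Q] [MulAction Q X]
variable {Q' : Type w} {X' : Type z} [Group Q'] [MulAction Q' X']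

/-- Functoriality. -/
def wrMap (f : Q →* Q') (h : X → X') (he : ∀ q x, h (q • x) = f q • h x) : Wr Q X →* Wr Q' X' :=
  SemidirectProduct.map (FreeGroup.map h) f (by
    intro g
    ext x
    simp [act_of, he])

theorem wrMap_left (f : Q →* Q') (h : X → X') (he : ∀ q x, h (q • x) = f q • h x) (g : Wr Q X) :
    (wrMap f h he g).left = FreeGroup.map h g.left := rfl

theorem wrMap_right (f : Q →* Q') (h : X → X') (he : ∀ q x, h (q • x) = f q • h x) (g : Wr Q X) :
    (wrMap f h he g).right = f g.right := rfl

theorem wrMap_inr (f : Q →* Q') (h : X → X') (he : ∀ q x, h (q • x) = f q • h x) (g : Q) :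
    wrMap f h he (inr g) = inr (f g) := by
  simp [wrMap]

theorem wrMap_inl (f : Q →* Q') (h : X → X') (he : ∀ q x, h (q • x) = f q • h x) (g : FreeGroup X) :
    wrMap f h he (inl g) = inl (FreeGroup.map h g) := by
  simp [wrMap]

theorem wrMap_injective (f : Q →* Q') (h : X → X') (he : ∀ q x, h (q • x) = f q • h x)
    (hf : Function.Injective f) (hh : Function.Injective h) :
    Function.Injective (wrMap f h he) := by
  intro g g' hg
  have h1 : (wrMap f h he g).left = (wrMap f h he g').left := by rw [hg]
  have h2 : (wrMap f h he g).right = (wrMap f h he g').right := by rw [hg]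
  rw [wrMap_left, wrMap_left] at h1
  rw [wrMap_right, wrMap_right] at h2
  exact SemidirectProduct.ext (map_injective hh h1) (hf h2)

/-- `inr q` and `inl (of x)` commute iff `q` fixes `x`. -/
theorem commute_iff (q : Q) (x : X) :
    Commute (inl (of x) : Wr Q X) (inr q) ↔ q • x = x := by
  have h1 : (inr q : Wr Q X) * inl (of x) * (inr q)⁻¹ = inl (of (q • x)) := by
    rw [← act_of]
    simp [SemidirectProduct.inl_aut]
  constructor
  · intro h
    have h2 : (inl (of (q • x)) : Wr Q X) = inl (of x) := by
      rw [← h1, ← h.eq]; group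
    exact FreeGroup.of_injective (SemidirectProduct.inl_injective h2)
  · intro h
    rw [h] at h1
    exact (mul_inv_eq_iff_eq_mul.1 h1).symm

end Wr

section Closure

variable {X : Type u} {Y : Type v}

/-- Membership in the subgroup generated by a set of free generators, under an injection. -/
theorem map_mem_closure (h : X → Y) (hh : Function.Injective h) (S : Set Y) (w : FreeGroup X) :
    FreeGroup.map h w ∈ Subgroup.closure (FreeGroup.of '' S) ↔
      w ∈ Subgroup.closure (FreeGroup.of '' (h ⁻¹' S)) := by
  classical
  constructor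
  · intro hw
    let q : FreeGroup Y →* FreeGroup X :=
      FreeGroup.lift (fun y => if hy : ∃ x, h x = y then of hy.choose else 1)
    have hq : ∀ x, q (of (h x)) = of x := by
      intro x
      have hx : ∃ x', h x' = h x := ⟨x, rfl⟩
      simp only [q, FreeGroup.lift_apply_of]
      rw [dif_pos hx]
      congr 1
      exact hh hx.choose_spec
    have hqm : ∀ w : FreeGroup X, q (FreeGroup.map h w) = w := by
      intro w
      have : (q.comp (FreeGroup.map h)) = MonoidHom.id _ := by
        ext x
        simp [hq]
      exact DFunLike.congr_fun this w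
    have h2 : Subgroup.closure (FreeGroup.of '' S) ≤
        (Subgroup.closure (FreeGroup.of '' (h ⁻¹' S))).comap q := by
      rw [Subgroup.closure_le]
      rintro _ ⟨y, hy, rfl⟩
      change q (of y) ∈ Subgroup.closure (FreeGroup.of '' (h ⁻¹' S))
      by_cases hx : ∃ x, h x = y
      · obtain ⟨x, rfl⟩ := hx
        rw [hq]
        exact Subgroup.subset_closure ⟨x, hy, rfl⟩
      · simp only [q, FreeGroup.lift_apply_of]
        rw [dif_neg hx]
        exact Subgroup.one_mem _
    have h3 := h2 hw
    rw [Subgroup.mem_comap, hqm] at h3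
    exact h3
  · intro hw
    have h2 : Subgroup.closure (FreeGroup.of '' (h ⁻¹' S)) ≤
        (Subgroup.closure (FreeGroup.of '' S)).comap (FreeGroup.map h) := by
      rw [Subgroup.closure_le]
      rintro _ ⟨x, hx, rfl⟩
      change FreeGroup.map h (of x) ∈ Subgroup.closure (FreeGroup.of '' S)
      rw [FreeGroup.map.of]
      exact Subgroup.subset_closure ⟨h x, hx, rfl⟩
    exact h2 hw

theorem of_mem_closure (S : Set X) (x : X) :
    FreeGroup.of x ∈ Subgroup.closure (FreeGroup.of '' S) ↔ x ∈ S := by
  classical
  constructor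
  · intro hx
    by_contra hS
    let q : FreeGroup X →* Multiplicative ℤ :=
      FreeGroup.lift (fun y => if y ∈ S then 1 else Multiplicative.ofAdd 1)
    have h2 : Subgroup.closure (FreeGroup.of '' S) ≤ q.ker := by
      rw [Subgroup.closure_le]
      rintro _ ⟨y, hy, rfl⟩
      change q (of y) = 1
      simp [q, hy]
    have h3 := h2 hx
    rw [MonoidHom.mem_ker] at h3
    simp only [q, FreeGroup.lift_apply_of, if_neg hS] at h3
    have := congrArg Multiplicative.toAdd h3
    simp at this
  · intro hS
    exact Subgroup.subset_closure ⟨x, hS, rfl⟩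

end Closure

section Conj

variable {G : Type u} [Group G]

/-- The right regular representation with multiplicity `ℕ`. -/
def reg (G : Type u) [Group G] : G →* Equiv.Perm (G × ℕ) where
  toFun g := ⟨fun p => (p.1 * g⁻¹, p.2), fun p => (p.1 * g, p.2),
    fun p => by simp, fun p => by simp⟩
  map_one' := by ext p <;> simp
  map_mul' g h := by ext p <;> simp [mul_assoc]

theorem reg_apply (g x : G) (n : ℕ) : reg G g (x, n) = (x * g⁻¹, n) := rfl

theorem reg_injective : Function.Injective (reg G) := by
  intro g h hgh
  have := congrArg (fun e => e (1, 0)) hgh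
  simpa [reg_apply] using this

variable {P : Type v} [Group P]

theorem exists_bij [Countable G] (θ : P →* G) (hθ : Function.Injective θ) :
    ∃ F : P × ℕ → G × ℕ, Function.Bijective F ∧
      ∀ p x n, F (x * p⁻¹, n) = reg G (θ p) (F (x, n)) := by
  classical
  have hinf : Infinite ((G ⧸ θ.range) × ℕ) := inferInstance
  have hcnt' : Countable (G ⧸ θ.range) := Quotient.countable
  have hcnt : Countable ((G ⧸ θ.range) × ℕ) := inferInstance
  obtain ⟨enc⟩ := nonempty_equiv_of_countable (α := ℕ) (β := (G ⧸ θ.range) × ℕ)
  refine ⟨fun p => ((enc p.2).1.out * θ p.1, (enc p.2).2), ⟨?_, ?_⟩, ?_⟩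
  · rintro ⟨p, m⟩ ⟨p', m'⟩ h
    simp only [Prod.mk.injEq] at h
    obtain ⟨h1, h2⟩ := h
    have h3 : (enc m).1 = (enc m').1 := by
      have e1 : ((enc m).1 : G ⧸ θ.range) = (((enc m).1.out * θ p : G) : G ⧸ θ.range) := by
        rw [← QuotientGroup.out_eq' (enc m).1]
        rw [QuotientGroup.eq]
        simp
      have e2 : ((enc m').1 : G ⧸ θ.range) = (((enc m').1.out * θ p' : G) : G ⧸ θ.range) := by
        rw [← QuotientGroup.out_eq' (enc m').1]
        rw [QuotientGroup.eq]
        simp
      rw [e1, e2, h1]
    have h4 : enc m = enc m' := Prod.ext h3 h2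
    have h5 : m = m' := enc.injective h4
    subst h5
    have h6 : θ p = θ p' := mul_left_cancel h1
    rw [hθ h6]
  · rintro ⟨g, n⟩
    have h1 : ((g : G ⧸ θ.range).out)⁻¹ * g ∈ θ.range := by
      rw [← QuotientGroup.eq]
      exact QuotientGroup.out_eq' _
    obtain ⟨p, hp⟩ := h1
    refine ⟨(p, enc.symm ((g : G ⧸ θ.range), n)), ?_⟩
    simp only [Equiv.apply_symm_apply, hp]
    simp
  · intro p x n
    simp only [reg_apply, _root_.map_mul, _root_.map_inv, mul_assoc]

/-- Any two embeddings of a group `P` in a countable group become conjugate in the permutation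
group. -/
theorem exists_conj [Countable G] (θ η : P →* G) (hθ : Function.Injective θ)
    (hη : Function.Injective η) :
    ∃ r : Equiv.Perm (G × ℕ), ∀ p, r * reg G (θ p) = reg G (η p) * r := by
  obtain ⟨F, hF, hF'⟩ := exists_bij θ hθ
  obtain ⟨E, hE, hE'⟩ := exists_bij η hη
  refine ⟨(Equiv.ofBijective F hF).symm.trans (Equiv.ofBijective E hE), ?_⟩
  intro p
  ext y : 1
  obtain ⟨⟨x, n⟩, rfl⟩ := hF.2 y
  simp only [Equiv.Perm.mul_apply]
  rw [← hF' p x n]
  simp only [Equiv.trans_apply]
  have h1 : ∀ q, (Equiv.ofBijective F hF).symm (F q) = q := by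
    intro q
    exact (Equiv.ofBijective F hF).symm_apply_apply q
  rw [h1, h1]
  simp only [Equiv.ofBijective_apply]
  exact hE' p x n

end Conj

end Pool.Agent.Helper14.Boone
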