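import Mathlib
import Pool.Agent.Helper14.BooneWreath

set_option autoImplicit false

/-! Systems of partial affine maps of `ℤ^k` and the associated groups (after Aanderaa and Cohen). -/

namespace Pool.Agent.Helper14.Boone

open FreeGroup SemidirectProduct

universe u v w z

/-! ### The model -/

section Model

variable {V : Type} [AddCommGroup V]

/-- The group `F(V) ⋊ V`. -/
abbrev KK (V : Type) [AddCommGroup V] : Type := Wr (Multiplicative V) V

/-- The subgroup generated by the `t(v)`, `v ∈ S`. -/
def BS (S : Set V) : Subgroup (KK V) :=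
  (Subgroup.closure (FreeGroup.of '' S)).map (inl : FreeGroup V →* KK V)

theorem mem_BS (S : Set V) (g : KK V) :
    g ∈ BS S ↔ g.right = 1 ∧ g.left ∈ Subgroup.closure (FreeGroup.of '' S) := by
  constructor
  · rintro ⟨w, hw, rfl⟩
    exact ⟨rfl, hw⟩
  · rintro ⟨h1, h2⟩
    refine ⟨g.left, h2, ?_⟩
    ext
    · rfl
    · exact congrArg _ h1.symm

theorem inl_of_mem_BS (S : Set V) (v : V) : (inl (of v) : KK V) ∈ BS S ↔ v ∈ S := by
  rw [mem_BS]
  constructor
  · rintro ⟨_, h⟩
    exact (of_mem_closure S v).1 h
  · intro h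
    exact ⟨rfl, (of_mem_closure S v).2 h⟩

/-- The endomorphism of `F(V) ⋊ V` of an affine map. -/
def affEnd (a : V) (M : V →+ V) : KK V →* KK V :=
  wrMap (AddMonoidHom.toMultiplicative M) (fun v => a + M v) (by
    intro q x
    change a + M (q.toAdd + x) = M q.toAdd + (a + M x)
    rw [map_add]; abel)

theorem affEnd_injective (a : V) (M : V →+ V) (hM : Function.Injective M) :
    Function.Injective (affEnd a M) := by
  apply wrMap_injective
  · intro x y h
    exact hM h
  · intro x y h
    exact hM (add_left_cancel h)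

theorem comap_BS (a : V) (M : V →+ V) (hM : Function.Injective M) (S : Set V) :
    (BS S).comap (affEnd a M) = BS {z | a + M z ∈ S} := by
  ext g
  rw [Subgroup.mem_comap, mem_BS, mem_BS]
  constructor
  · rintro ⟨h1, h2⟩
    constructor
    · have h3 : AddMonoidHom.toMultiplicative M g.right = 1 := h1
      apply_fun Multiplicative.toAdd
      apply hM
      rw [toAdd_one, map_zero]
      exact h3
    · exact (map_mem_closure (fun v => a + M v) (fun x y h => hM (add_left_cancel h)) S g.left).1 h2
  · rintro ⟨h1, h2⟩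
    constructor
    · change AddMonoidHom.toMultiplicative M g.right = 1
      rw [h1, _root_.map_one]
    · exact (map_mem_closure (fun v => a + M v) (fun x y h => hM (add_left_cancel h)) S g.left).2 h2

theorem affEnd_t (a : V) (M : V →+ V) : affEnd a M (inl (of 0)) = inl (of a) := by
  unfold affEnd
  rw [wrMap_inl]
  simp

theorem affEnd_x (a : V) (M : V →+ V) (v : V) :
    affEnd a M (inr (Multiplicative.ofAdd v)) = inr (Multiplicative.ofAdd (M v)) := by
  unfold affEnd
  rw [wrMap_inr]
  rfl

/-- The wreath product of `K` over a subgroup. -/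
abbrev WW (K : Type) [Group K] (D : Subgroup K) : Type := Wr K (K ⧸ D)

/-- The distinguished element. -/
def kap {K : Type} [Group K] (D : Subgroup K) : WW K D := inl (of ((1 : K) : K ⧸ D))

theorem commute_kap {K : Type} [Group K] (D : Subgroup K) (g : K) :
    Commute (kap D) (inr g) ↔ g ∈ D := by
  unfold kap
  rw [commute_iff]
  rw [MulAction.Quotient.smul_coe]
  rw [QuotientGroup.eq]
  simp

/-- Functoriality of `WW`. -/
theorem exists_wwMap {K L : Type} [Group K] [Group L] (D : Subgroup K) (E : Subgroup L) (f : K →* L)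
    (hf : Function.Injective f) (hD : E.comap f = D) :
    ∃ F : WW K D →* WW L E, Function.Injective F ∧ F (kap D) = kap E ∧ ∀ g, F (inr g) = inr (f g) := by
  subst hD
  have hq : ∀ x y : K, (QuotientGroup.leftRel (E.comap f)) x y →
      (QuotientGroup.leftRel E) (f x) (f y) := by
    intro x y h
    rw [QuotientGroup.leftRel_apply] at h ⊢
    rw [Subgroup.mem_comap] at h
    simpa using h
  let h : K ⧸ (E.comap f) → L ⧸ E := Quotient.map' f hq
  have hmk : ∀ x : K, h (x : K ⧸ (E.comap f)) = (f x : L ⧸ E) := fun x => rfl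
  have hinj : Function.Injective h := by
    intro a b
    induction a using QuotientGroup.induction_on with
    | H x =>
      induction b using QuotientGroup.induction_on with
      | H y =>
        rw [hmk, hmk, QuotientGroup.eq, QuotientGroup.eq, Subgroup.mem_comap]
        intro hxy
        simpa using hxy
  have hequi : ∀ (q : K) (a : K ⧸ (E.comap f)), h (q • a) = f q • h a := by
    intro q a
    induction a using QuotientGroup.induction_on with
    | H x =>
      rw [MulAction.Quotient.smul_coe, hmk, hmk, MulAction.Quotient.smul_coe]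
      simp
  refine ⟨wrMap f h hequi, wrMap_injective f h hequi hf hinj, ?_, ?_⟩
  · unfold kap
    rw [wrMap_inl, FreeGroup.map.of]
    congr 2
    rw [hmk, _root_.map_one]
  · intro g
    exact wrMap_inr _ _ _ _

instance (K : Type) [Group K] (D : Subgroup K) [Countable K] : Countable (WW K D) := by
  have h1 : Countable (K ⧸ D) := Quotient.countable
  have h2 : Countable (FreeGroup (K ⧸ D)) := inferInstance
  have e : WW K D ≃ FreeGroup (K ⧸ D) × K := SemidirectProduct.equivProd
  exact e.injective.countable

instance [Countable V] : Countable (KK V) := by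
  have h1 : Countable (Multiplicative V) := inferInstanceAs (Countable V)
  have h2 : Countable (FreeGroup V) := inferInstance
  have e : KK V ≃ FreeGroup V × Multiplicative V := SemidirectProduct.equivProd
  exact e.injective.countable

/-- The main existence statement for a family of pairs of affine maps that respect a set `S`. -/
theorem exists_model [Countable V] {σ : Type} (S : Set V) (a b : σ → V) (M N : σ → V →+ V)
    (hM : ∀ j, Function.Injective (M j)) (hN : ∀ j, Function.Injective (N j))
    (hS : ∀ j z, a j + M j z ∈ S ↔ b j + N j z ∈ S) :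
    ∃ (H : Type) (_ : Group H) (ι : KK V →* H) (κ : H) (r : σ → H),
      (∀ j, r j * ι (inl (of (a j))) = ι (inl (of (b j))) * r j) ∧
      (∀ j v, r j * ι (inr (Multiplicative.ofAdd (M j v))) =
        ι (inr (Multiplicative.ofAdd (N j v))) * r j) ∧
      (∀ j, κ * r j = r j * κ) ∧
      (∀ v, κ * ι (inl (of v)) = ι (inl (of v)) * κ ↔ v ∈ S) := by
  have key : ∀ j, ∃ r : Equiv.Perm (WW (KK V) (BS S) × ℕ),
      (r * reg _ (inr (inl (of (a j)))) = reg _ (inr (inl (of (b j)))) * r) ∧
      (∀ v, r * reg _ (inr (inr (Multiplicative.ofAdd (M j v)))) =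
        reg _ (inr (inr (Multiplicative.ofAdd (N j v)))) * r) ∧
      (r * reg _ (kap (BS S)) = reg _ (kap (BS S)) * r) := by
    intro j
    have hab : {z | a j + M j z ∈ S} = {z | b j + N j z ∈ S} := by
      ext z; exact hS j z
    obtain ⟨F, hF, hF1, hF2⟩ := exists_wwMap (BS {z | a j + M j z ∈ S}) (BS S) (affEnd (a j) (M j))
      (affEnd_injective _ _ (hM j)) (comap_BS _ _ (hM j) S)
    obtain ⟨E, hE, hE1, hE2⟩ := exists_wwMap (BS {z | a j + M j z ∈ S}) (BS S) (affEnd (b j) (N j))
      (affEnd_injective _ _ (hN j)) (by rw [hab]; exact comap_BS _ _ (hN j) S)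
    obtain ⟨r, hr⟩ := exists_conj F E hF hE
    refine ⟨r, ?_, ?_, ?_⟩
    · have := hr (inr (inl (of 0)))
      rw [hF2, hE2, affEnd_t, affEnd_t] at this
      exact this
    · intro v
      have := hr (inr (inr (Multiplicative.ofAdd v)))
      rw [hF2, hE2, affEnd_x, affEnd_x] at this
      exact this
    · have := hr (kap _)
      rw [hF1, hE1] at this
      exact this
  choose r hr1 hr2 hr3 using key
  refine ⟨Equiv.Perm (WW (KK V) (BS S) × ℕ), inferInstance,
    (reg (WW (KK V) (BS S))).comp inr, reg _ (kap (BS S)), r, ?_, ?_, ?_, ?_⟩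
  · intro j
    exact hr1 j
  · intro j v
    exact hr2 j v
  · intro j
    exact (hr3 j).symm
  · intro v
    rw [← inl_of_mem_BS, ← commute_kap]
    constructor
    · intro h
      apply reg_injective
      rw [_root_.map_mul, _root_.map_mul]
      exact h
    · intro h
      have := congrArg (reg _) h.eq
      rw [_root_.map_mul, _root_.map_mul] at this
      exact this

end Model

/-! ### Words -/

section Words

variable {k : Type} [Fintype k] {H : Type u} [Group H]

/-- `∏ x_i^{v_i}` -/
noncomputable def XX (x : k → H) (v : k → ℤ) : H := ((Finset.univ : Finset k).toList.map fun i => x i ^ v i).prod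

/-- `t(v) = x^v t x^{-v}` -/
noncomputable def TT (x : k → H) (t : H) (v : k → ℤ) : H := XX x v * t * (XX x v)⁻¹

theorem map_XX {H' : Type v} [Group H'] (f : H →* H') (x : k → H) (v : k → ℤ) :
    f (XX x v) = XX (fun i => f (x i)) v := by
  unfold XX
  rw [map_list_prod, List.map_map]
  congr 1
  apply List.map_congr_left
  intro i _
  simp

theorem map_TT {H' : Type v} [Group H'] (f : H →* H') (x : k → H) (t : H) (v : k → ℤ) :
    f (TT x t v) = TT (fun i => f (x i)) (f t) v := by
  unfold TT
  rw [_root_.map_mul, _root_.map_mul, _root_.map_inv, map_XX]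

theorem list_prod_add {ι : Type*} (l : List ι) (x : ι → H) (hc : ∀ i j, Commute (x i) (x j))
    (v u : ι → ℤ) : (l.map fun i => x i ^ (v i + u i)).prod =
      (l.map fun i => x i ^ v i).prod * (l.map fun i => x i ^ u i).prod := by
  induction l with
  | nil => simp
  | cons i l ih =>
    simp only [List.map_cons, List.prod_cons]
    rw [ih, zpow_add]
    have h1 : Commute (x i ^ u i) ((l.map fun i => x i ^ v i).prod) := by
      apply Commute.list_prod_right
      intro y hy
      obtain ⟨j, _, rfl⟩ := List.mem_map.1 hy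
      exact ((hc i j).zpow_zpow _ _)
    calc x i ^ v i * x i ^ u i * ((l.map fun i => x i ^ v i).prod * (l.map fun i => x i ^ u i).prod)
        = x i ^ v i * (x i ^ u i * (l.map fun i => x i ^ v i).prod) * (l.map fun i => x i ^ u i).prod := by
          simp only [mul_assoc]
      _ = x i ^ v i * ((l.map fun i => x i ^ v i).prod * x i ^ u i) * (l.map fun i => x i ^ u i).prod := by
          rw [h1.eq]
      _ = _ := by simp only [mul_assoc]

theorem XX_add (x : k → H) (hc : ∀ i j, Commute (x i) (x j)) (v u : k → ℤ) :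
    XX x (v + u) = XX x v * XX x u := list_prod_add _ x hc v u

theorem TT_add (x : k → H) (hc : ∀ i j, Commute (x i) (x j)) (t : H) (v u : k → ℤ) :
    TT x t (v + u) = XX x u * TT x t v * (XX x u)⁻¹ := by
  unfold TT
  rw [add_comm, XX_add x hc]
  group

end Words

/-- A partial affine map `a + M z ↦ b + N z` of `ℤ^k`, with `M`, `N` diagonal. -/
structure AffRule (k : Type) where
  a : k → ℤ
  b : k → ℤ
  M : k → ℕ
  N : k → ℕ
  hM : ∀ i, M i ≠ 0
  hN : ∀ i, N i ≠ 0

/-- One step of a system of partial affine maps. -/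
def Stp {k : Type} {σ : Type} (A : σ → AffRule k) (v w : k → ℤ) : Prop :=
  ∃ (j : σ) (z : k → ℤ), v = (A j).a + (fun i => (A j).M i * z i) ∧
    w = (A j).b + (fun i => (A j).N i * z i)

/-- The relations of the group. -/
structure Rels {k : Type} [Fintype k] {σ : Type} (A : σ → AffRule k) (v0 : k → ℤ) {H : Type u} [Group H]
    (x : k → H) (t κ : H) (r : σ → H) : Prop where
  comm : ∀ i j, x i * x j = x j * x i
  rt : ∀ j, r j * TT x t (A j).a = TT x t (A j).b * r j
  rx : ∀ j i, r j * x i ^ (A j).M i = x i ^ (A j).N i * r j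
  kr : ∀ j, κ * r j = r j * κ
  kt : κ * TT x t v0 = TT x t v0 * κ

section Claim1

variable {k : Type} [Fintype k] {σ : Type} {A : σ → AffRule k} {v0 : k → ℤ} {H : Type u} [Group H]
  {x : k → H} {t κ : H} {r : σ → H}

theorem Rels.semiconj_XX (h : Rels A v0 x t κ r) (j : σ) (z : k → ℤ) :
    SemiconjBy (r j) (XX x (fun i => (A j).M i * z i)) (XX x (fun i => (A j).N i * z i)) := by
  unfold XX
  induction (Finset.univ : Finset k).toList with
  | nil => simp
  | cons i l ih =>
    simp only [List.map_cons, List.prod_cons]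
    refine SemiconjBy.mul_right ?_ ih
    have h1 : SemiconjBy (r j) (x i ^ (A j).M i) (x i ^ (A j).N i) := h.rx j i
    have h2 := h1.zpow_right (z i)
    rw [zpow_mul, zpow_mul, zpow_natCast, zpow_natCast]
    exact h2

theorem Rels.semiconj_TT (h : Rels A v0 x t κ r) (j : σ) (z : k → ℤ) :
    SemiconjBy (r j) (TT x t ((A j).a + (fun i => (A j).M i * z i)))
      (TT x t ((A j).b + (fun i => (A j).N i * z i))) := by
  rw [TT_add x h.comm, TT_add x h.comm]
  exact ((h.semiconj_XX j z).mul_right (h.rt j)).mul_right (h.semiconj_XX j z).inv_right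

theorem Rels.commute_iff (h : Rels A v0 x t κ r) {v w : k → ℤ} (hvw : Stp A v w) :
    Commute κ (TT x t v) ↔ Commute κ (TT x t w) := by
  obtain ⟨j, z, rfl, rfl⟩ := hvw
  have h1 := h.semiconj_TT j z
  have h2 : TT x t ((A j).b + (fun i => (A j).N i * z i)) =
      r j * TT x t ((A j).a + (fun i => (A j).M i * z i)) * (r j)⁻¹ :=
    (mul_inv_eq_iff_eq_mul.2 h1).symm
  have hk : Commute κ (r j) := h.kr j
  constructor
  · intro h3
    rw [h2]
    exact (hk.mul_right h3).mul_right hk.inv_right
  · intro h3
    have h4 : TT x t ((A j).a + (fun i => (A j).M i * z i)) =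
        (r j)⁻¹ * TT x t ((A j).b + (fun i => (A j).N i * z i)) * (r j) := by
      rw [h2]; group
    rw [h4]
    exact (hk.inv_right.mul_right h3).mul_right hk

theorem Rels.commute_of_eqvGen (h : Rels A v0 x t κ r) {v : k → ℤ}
    (hv : Relation.EqvGen (Stp A) v v0) : Commute κ (TT x t v) := by
  have : ∀ v w, Relation.EqvGen (Stp A) v w → (Commute κ (TT x t v) ↔ Commute κ (TT x t w)) := by
    intro v w hvw
    induction hvw with
    | rel v w h1 => exact h.commute_iff h1
    | refl => rfl
    | symm _ _ _ ih => exact ih.symm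
    | trans _ _ _ _ _ ih1 ih2 => exact ih1.trans ih2
  rw [this v v0 hv]
  exact h.kt

end Claim1

section Claim2

variable {k : Type} {σ : Type}

/-- The diagonal map. -/
def dg (M : k → ℕ) : (k → ℤ) →+ (k → ℤ) where
  toFun z := fun i => M i * z i
  map_zero' := by ext i; simp
  map_add' x y := by ext i; simp [mul_add]

theorem dg_injective {M : k → ℕ} (hM : ∀ i, M i ≠ 0) : Function.Injective (dg M) := by
  intro x y h
  ext i
  have := congrFun h i
  change (M i : ℤ) * x i = M i * y i at this
  exact mul_left_cancel₀ (by exact_mod_cast hM i) this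

theorem XX_inr [Fintype k] [DecidableEq k] (v : k → ℤ) :
    XX (fun i => (inr (Multiplicative.ofAdd (Pi.single i 1)) : KK (k → ℤ))) v =
      inr (Multiplicative.ofAdd v) := by
  rw [← map_XX]
  congr 1
  unfold XX
  rw [Finset.prod_map_toList]
  apply_fun Multiplicative.toAdd
  rw [toAdd_prod]
  simp only [toAdd_zpow, toAdd_ofAdd]
  ext i
  simp [Finset.sum_apply, Pi.single_apply]

theorem TT_inl [Fintype k] [DecidableEq k] (v : k → ℤ) :
    TT (fun i => (inr (Multiplicative.ofAdd (Pi.single i 1)) : KK (k → ℤ))) (inl (of 0)) v =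
      inl (of v) := by
  unfold TT
  rw [XX_inr, ← _root_.map_inv, ← SemidirectProduct.inl_aut, act_of]
  congr 2
  change v + 0 = v
  rw [add_zero]

theorem exists_rels [Fintype k] [DecidableEq k] (A : σ → AffRule k) (v0 : k → ℤ) :
    ∃ (H : Type) (_ : Group H) (x : k → H) (t κ : H) (r : σ → H),
      Rels A v0 x t κ r ∧ ∀ v, Commute κ (TT x t v) → Relation.EqvGen (Stp A) v v0 := by
  obtain ⟨H, hH, ι, κ, r, h1, h2, h3, h4⟩ := exists_model (V := k → ℤ)
    (S := {v | Relation.EqvGen (Stp A) v v0}) (fun j => (A j).a) (fun j => (A j).b)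
    (fun j => dg (A j).M) (fun j => dg (A j).N) (fun j => dg_injective (A j).hM)
    (fun j => dg_injective (A j).hN) (by
      intro j z
      have : Stp A ((A j).a + dg (A j).M z) ((A j).b + dg (A j).N z) := ⟨j, z, rfl, rfl⟩
      constructor
      · intro h
        exact (Relation.EqvGen.symm _ _ (Relation.EqvGen.rel _ _ this)).trans _ _ _ h
      · intro h
        exact (Relation.EqvGen.rel _ _ this).trans _ _ _ h)
  have hT : ∀ v, TT (fun i => ι (inr (Multiplicative.ofAdd (Pi.single i 1)))) (ι (inl (of 0))) v =
      ι (inl (of v)) := by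
    intro v
    rw [← map_TT, TT_inl]
  refine ⟨H, hH, fun i => ι (inr (Multiplicative.ofAdd (Pi.single i 1))), ι (inl (of 0)), κ, r,
    ⟨?_, ?_, ?_, ?_, ?_⟩, ?_⟩
  · intro i j
    have h5 := congrArg (fun g => ι (inr g)) (mul_comm
      (Multiplicative.ofAdd (Pi.single i 1 : k → ℤ)) (Multiplicative.ofAdd (Pi.single j 1)))
    simp only [_root_.map_mul] at h5
    exact h5
  · intro j
    rw [hT, hT]
    exact h1 j
  · intro j i
    have := h2 j (Pi.single i 1)
    have e : ∀ M : k → ℕ, (dg M (Pi.single i 1)) = (M i) • (Pi.single i (1 : ℤ)) := by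
      intro M
      ext l
      change (M l : ℤ) * (Pi.single i 1 : k → ℤ) l = _
      by_cases hl : l = i
      · subst hl; simp
      · simp [hl]
    rw [e, e, ofAdd_nsmul, ofAdd_nsmul, _root_.map_pow, _root_.map_pow, _root_.map_pow,
      _root_.map_pow] at this
    exact this
  · exact h3
  · rw [hT, h4]
    exact Relation.EqvGen.refl _
  · intro v hv
    rw [hT] at hv
    exact (h4 v).1 hv

end Claim2

end Pool.Agent.Helper14.Boone
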