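import Mathlib
import Pool.Agent.Helper14.BooneAffine

set_option autoImplicit false

/-! The finitely presented group of a system of partial affine maps. -/

namespace Pool.Agent.Helper14.Boone

universe u

/-- Generators. -/
inductive Gen (k σ : Type) : Type
  | x (i : k) : Gen k σ
  | t : Gen k σ
  | kap : Gen k σ
  | r (j : σ) : Gen k σ
  deriving DecidableEq

instance (k σ : Type) [Finite k] [Finite σ] : Finite (Gen k σ) := by
  apply Finite.of_surjective (fun p : (k ⊕ σ) ⊕ Bool => match p with
    | .inl (.inl i) => Gen.x i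
    | .inl (.inr j) => Gen.r j
    | .inr true => Gen.t
    | .inr false => Gen.kap)
  intro g
  cases g with
  | x i => exact ⟨.inl (.inl i), rfl⟩
  | t => exact ⟨.inr true, rfl⟩
  | kap => exact ⟨.inr false, rfl⟩
  | r j => exact ⟨.inl (.inr j), rfl⟩

variable {k σ : Type} [Fintype k]

/-- The generator `x i` in the free group. -/
def gx (σ : Type) (i : k) : FreeGroup (Gen k σ) := FreeGroup.of (.x i)
/-- The generator `t`. -/
def gt (k σ : Type) : FreeGroup (Gen k σ) := FreeGroup.of .t
/-- The generator `κ`. -/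
def gk (k σ : Type) : FreeGroup (Gen k σ) := FreeGroup.of .kap
/-- The generator `r j`. -/
def gr (k : Type) {σ : Type} (j : σ) : FreeGroup (Gen k σ) := FreeGroup.of (.r j)

/-- The relators. -/
noncomputable def relator (A : σ → AffRule k) (v0 : k → ℤ) :
    (k × k) ⊕ σ ⊕ (σ × k) ⊕ σ ⊕ Unit → FreeGroup (Gen k σ)
  | .inl p => gx σ p.1 * gx σ p.2 * (gx σ p.2 * gx σ p.1)⁻¹
  | .inr (.inl j) => gr k j * TT (gx σ) (gt k σ) (A j).a * (TT (gx σ) (gt k σ) (A j).b * gr k j)⁻¹
  | .inr (.inr (.inl p)) => gr k p.1 * gx σ p.2 ^ (A p.1).M p.2 * (gx σ p.2 ^ (A p.1).N p.2 * gr k p.1)⁻¹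
  | .inr (.inr (.inr (.inl j))) => gk k σ * gr k j * (gr k j * gk k σ)⁻¹
  | .inr (.inr (.inr (.inr _))) => gk k σ * TT (gx σ) (gt k σ) v0 * (TT (gx σ) (gt k σ) v0 * gk k σ)⁻¹

/-- The set of relators. -/
noncomputable def relSet (A : σ → AffRule k) (v0 : k → ℤ) : Set (FreeGroup (Gen k σ)) :=
  Set.range (relator A v0)

theorem relSet_finite [Finite σ] (A : σ → AffRule k) (v0 : k → ℤ) : (relSet A v0).Finite :=
  Set.finite_range _

theorem rels_iff (A : σ → AffRule k) (v0 : k → ℤ) {H : Type u} [Group H]
    (f : FreeGroup (Gen k σ) →* H) :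
    (∀ g ∈ relSet A v0, f g = 1) ↔
      Rels A v0 (fun i => f (gx σ i)) (f (gt k σ)) (f (gk k σ)) (fun j => f (gr k j)) := by
  constructor
  · intro h
    have h' : ∀ p, f (relator A v0 p) = 1 := fun p => h _ ⟨p, rfl⟩
    refine ⟨?_, ?_, ?_, ?_, ?_⟩
    · intro i j
      have := h' (.inl (i, j))
      simp only [relator, map_mul, map_inv, mul_inv_eq_one] at this
      exact this
    · intro j
      have := h' (.inr (.inl j))
      simp only [relator, map_mul, map_inv, mul_inv_eq_one, map_TT] at this
      exact this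
    · intro j i
      have := h' (.inr (.inr (.inl (j, i))))
      simp only [relator, map_mul, map_inv, mul_inv_eq_one, map_pow] at this
      exact this
    · intro j
      have := h' (.inr (.inr (.inr (.inl j))))
      simp only [relator, map_mul, map_inv, mul_inv_eq_one] at this
      exact this
    · have := h' (.inr (.inr (.inr (.inr ()))))
      simp only [relator, map_mul, map_inv, mul_inv_eq_one, map_TT] at this
      exact this
  · rintro h _ ⟨p, rfl⟩
    rcases p with ⟨i, j⟩ | j | ⟨j, i⟩ | j | _
    · simp only [relator, map_mul, map_inv, mul_inv_eq_one]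
      exact h.comm i j
    · simp only [relator, map_mul, map_inv, mul_inv_eq_one, map_TT]
      exact h.rt j
    · simp only [relator, map_mul, map_inv, mul_inv_eq_one, map_pow]
      exact h.rx j i
    · simp only [relator, map_mul, map_inv, mul_inv_eq_one]
      exact h.kr j
    · simp only [relator, map_mul, map_inv, mul_inv_eq_one, map_TT]
      exact h.kt

/-- The word `[κ, t(v)]`. -/
noncomputable def wrd (σ : Type) (v : k → ℤ) : FreeGroup (Gen k σ) :=
  gk k σ * TT (gx σ) (gt k σ) v * (gk k σ)⁻¹ * (TT (gx σ) (gt k σ) v)⁻¹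

theorem map_wrd {H : Type u} [Group H] (f : FreeGroup (Gen k σ) →* H) (v : k → ℤ) :
    f (wrd σ v) = 1 ↔ Commute (f (gk k σ)) (TT (fun i => f (gx σ i)) (f (gt k σ)) v) := by
  unfold wrd
  simp only [map_mul, map_inv, map_TT]
  rw [mul_inv_eq_one, mul_inv_eq_iff_eq_mul]
  exact Iff.rfl

theorem mk_wrd_iff [DecidableEq k] (A : σ → AffRule k) (v0 v : k → ℤ) :
    PresentedGroup.mk (relSet A v0) (wrd σ v) = 1 ↔ Relation.EqvGen (Stp A) v v0 := by
  constructor
  · intro h
    obtain ⟨H, hH, x, t, κ, r, h1, h2⟩ := exists_rels A v0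
    let f : Gen k σ → H := fun g => match g with
      | .x i => x i
      | .t => t
      | .kap => κ
      | .r j => r j
    have hx : (fun i => FreeGroup.lift f (gx σ i)) = x := by
      funext i; simp [gx, f]
    have ht : FreeGroup.lift f (gt k σ) = t := by simp [gt, f]
    have hk : FreeGroup.lift f (gk k σ) = κ := by simp [gk, f]
    have hr : (fun j => FreeGroup.lift f (gr k j)) = r := by
      funext i; simp [gr, f]
    have h3 : ∀ g ∈ relSet A v0, FreeGroup.lift f g = 1 := by
      rw [rels_iff, hx, ht, hk, hr]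
      exact h1
    apply h2
    have h4 : FreeGroup.lift f (wrd σ v) = 1 := by
      have : PresentedGroup.toGroup h3 (PresentedGroup.mk (relSet A v0) (wrd σ v)) = 1 := by
        rw [h, map_one]
      exact this
    rw [map_wrd, hx, ht, hk] at h4
    exact h4
  · intro h
    have h1 : ∀ g ∈ relSet A v0, PresentedGroup.mk (relSet A v0) g = 1 := by
      intro g hg
      exact PresentedGroup.one_of_mem hg
    rw [rels_iff] at h1
    rw [map_wrd]
    exact h1.commute_of_eqvGen h

end Pool.Agent.Helper14.Boone
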