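import Mathlib
import Pool.Agent.Helper14.BoonePres

set_option autoImplicit false

/-! Deterministic multi-stack machines as systems of partial affine maps. -/

namespace Pool.Agent.Helper14.Boone

/-- Stack operations. -/
inductive Op (Γ : Type) : Type
  | id : Op Γ
  | push (g : Γ) : Op Γ
  | pop : Op Γ

/-- Effect of an operation. -/
def Op.run {Γ : Type} : Op Γ → List Γ → List Γ
  | .id, s => s
  | .push g, s => g :: s
  | .pop, s => s.tail

/-- A machine with control set `C`, stacks indexed by `K`, alphabet `Γ`. -/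
structure SM (C K Γ : Type) where
  nxt : C → (K → Option Γ) → C × (K → Op Γ)

variable {C K Γ : Type}

/-- One step. -/
def SM.step (M : SM C K Γ) (c : C × (K → List Γ)) : C × (K → List Γ) :=
  ((M.nxt c.1 (fun i => (c.2 i).head?)).1,
    fun i => ((M.nxt c.1 (fun i => (c.2 i).head?)).2 i).run (c.2 i))

/-- Base-`(g+1)` code of a stack. -/
def sc {g : ℕ} (e : Γ ≃ Fin g) : List Γ → ℕ
  | [] => 0
  | a :: s => (g + 1) * sc e s + ((e a : ℕ) + 1)

theorem sc_injective {g : ℕ} (e : Γ ≃ Fin g) : Function.Injective (sc e) := by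
  intro s
  induction s with
  | nil =>
    intro s' h
    cases s' with
    | nil => rfl
    | cons a s' => simp [sc] at h
  | cons a s ih =>
    intro s' h
    cases s' with
    | nil => simp [sc] at h
    | cons a' s' =>
      simp only [sc] at h
      have h1 := (e a).2
      have h2 := (e a').2
      have h3 : ((g + 1) * sc e s + ((e a : ℕ) + 1)) % (g + 1) = (e a : ℕ) + 1 := by
        rw [Nat.mul_add_mod, Nat.mod_eq_of_lt (by omega)]
      have h4 : ((g + 1) * sc e s' + ((e a' : ℕ) + 1)) % (g + 1) = (e a' : ℕ) + 1 := by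
        rw [Nat.mul_add_mod, Nat.mod_eq_of_lt (by omega)]
      rw [h, h4] at h3
      have h5 : (e a' : ℕ) = e a := by omega
      have h6 : a' = a := e.injective (Fin.ext h5)
      subst h6
      have h7 : sc e s = sc e s' := by
        have : (g + 1) * sc e s = (g + 1) * sc e s' := by omega
        exact Nat.eq_of_mul_eq_mul_left (by omega) this
      rw [ih h7]

/-- Residue of a stack. -/
def res {g : ℕ} (e : Γ ≃ Fin g) : List Γ → Fin (g + 1)
  | [] => 0
  | a :: _ => (e a).succ

/-- Letter of a residue. -/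
def dig {g : ℕ} (e : Γ ≃ Fin g) (i : Fin (g + 1)) : Option Γ :=
  Fin.cases none (fun j => some (e.symm j)) i

theorem dig_res {g : ℕ} (e : Γ ≃ Fin g) (s : List Γ) : dig e (res e s) = s.head? := by
  cases s with
  | nil => rfl
  | cons a s => simp [dig, res]

theorem sc_eq {g : ℕ} (e : Γ ≃ Fin g) (s : List Γ) :
    sc e s = (res e s : ℕ) + (g + 1) * sc e s.tail := by
  cases s with
  | nil => simp [sc, res]
  | cons a s => simp [sc, res]; ring

/-- Offset of the image of an operation. -/
def opb {g : ℕ} (e : Γ ≃ Fin g) : Op Γ → ℕ → ℕ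
  | .id, r => r
  | .push d, r => (g + 1) * r + ((e d : ℕ) + 1)
  | .pop, _ => 0

/-- Slope of the image of an operation. -/
def opN (g : ℕ) : Op Γ → ℕ → ℕ
  | .id, _ => g + 1
  | .push _, _ => (g + 1) ^ 2
  | .pop, 0 => g + 1
  | .pop, _ + 1 => 1

theorem opN_ne_zero {g : ℕ} (o : Op Γ) (r : ℕ) : opN g o r ≠ 0 := by
  unfold opN
  split <;> simp

theorem sc_run {g : ℕ} (e : Γ ≃ Fin g) (o : Op Γ) (s : List Γ) :
    sc e (o.run s) = opb e o (res e s) + opN g o (res e s) * sc e s.tail := by
  cases o with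
  | id => simp only [Op.run, opb, opN]; exact sc_eq e s
  | push d =>
    simp only [Op.run, opb, opN, sc]
    rw [sc_eq e s]; ring
  | pop =>
    cases s with
    | nil => simp [Op.run, opb, opN, sc, res]
    | cons a s => simp [Op.run, opb, opN, res]

/-- The system of affine maps of a machine. -/
def SM.aff (M : SM C K Γ) {g L : ℕ} (eΓ : Γ ≃ Fin g) (eC : C ≃ Fin L) (hL : L ≠ 0) :
    C × (K → Fin (g + 1)) → AffRule (Option K) := fun p =>
  { a := fun o => match o with
      | none => ((eC p.1 : ℕ) : ℤ)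
      | some i => ((p.2 i : ℕ) : ℤ)
    b := fun o => match o with
      | none => ((eC (M.nxt p.1 (fun i => dig eΓ (p.2 i))).1 : ℕ) : ℤ)
      | some i => ((opb eΓ ((M.nxt p.1 (fun i => dig eΓ (p.2 i))).2 i) (p.2 i) : ℕ) : ℤ)
    M := fun o => match o with
      | none => L
      | some _ => g + 1
    N := fun o => match o with
      | none => L
      | some i => opN g ((M.nxt p.1 (fun i => dig eΓ (p.2 i))).2 i) (p.2 i)
    hM := by
      rintro (_ | i)
      · exact hL
      · simp
    hN := by
      rintro (_ | i)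
      · exact hL
      · exact opN_ne_zero _ _ }

/-- The vector of a configuration. -/
def enc {g L : ℕ} (eΓ : Γ ≃ Fin g) (eC : C ≃ Fin L) (c : C × (K → List Γ)) : Option K → ℤ :=
  fun o => match o with
    | none => ((eC c.1 : ℕ) : ℤ)
    | some i => ((sc eΓ (c.2 i) : ℕ) : ℤ)

theorem enc_injective {g L : ℕ} (eΓ : Γ ≃ Fin g) (eC : C ≃ Fin L) :
    Function.Injective (enc (K := K) eΓ eC) := by
  rintro ⟨c, s⟩ ⟨c', s'⟩ h
  have h1 : ((eC c : ℕ) : ℤ) = ((eC c' : ℕ) : ℤ) := congrFun h none
  have h2 : c = c' := eC.injective (Fin.ext (by exact_mod_cast h1))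
  subst h2
  have h3 : s = s' := by
    funext i
    have h4 : ((sc eΓ (s i) : ℕ) : ℤ) = ((sc eΓ (s' i) : ℕ) : ℤ) := congrFun h (some i)
    exact sc_injective eΓ (by exact_mod_cast h4)
  rw [h3]

theorem SM.stp_enc (M : SM C K Γ) {g L : ℕ} (eΓ : Γ ≃ Fin g) (eC : C ≃ Fin L) (hL : L ≠ 0)
    (c : C × (K → List Γ)) :
    Stp (M.aff eΓ eC hL) (enc eΓ eC c) (enc eΓ eC (M.step c)) := by
  refine ⟨(c.1, fun i => res eΓ (c.2 i)), fun o => match o with
      | none => 0
      | some i => ((sc eΓ (c.2 i).tail : ℕ) : ℤ), ?_, ?_⟩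
  · funext o
    cases o with
    | none => simp [enc, SM.aff]
    | some i =>
      have := sc_eq eΓ (c.2 i)
      simp only [enc, SM.aff, Pi.add_apply]
      rw [this]; push_cast; ring
  · funext o
    have hd : (fun i => dig eΓ (res eΓ (c.2 i))) = fun i => (c.2 i).head? := by
      funext i; exact dig_res _ _
    cases o with
    | none => simp [enc, SM.aff, SM.step, hd]
    | some i =>
      simp only [enc, SM.aff, SM.step, hd, Pi.add_apply]
      rw [sc_run]; push_cast; ring

theorem mod_unique {L : ℕ} {a a' : ℕ} (ha : a < L) (ha' : a' < L) {z z' : ℤ}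
    (h : (a : ℤ) + L * z = a' + L * z') : a = a' ∧ z = z' := by
  have hL : (0 : ℤ) < L := by exact_mod_cast (by omega : 0 < L)
  have h1 : ((a : ℤ) + L * z) % L = a := by
    rw [Int.add_mul_emod_self_left]
    exact Int.emod_eq_of_lt (by positivity) (by exact_mod_cast ha)
  have h2 : ((a' : ℤ) + L * z') % L = a' := by
    rw [Int.add_mul_emod_self_left]
    exact Int.emod_eq_of_lt (by positivity) (by exact_mod_cast ha')
  rw [h, h2] at h1
  have h3 : a = a' := by exact_mod_cast h1.symm
  subst h3
  refine ⟨rfl, ?_⟩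
  have h4 : (L : ℤ) * z = L * z' := by linarith
  exact mul_left_cancel₀ hL.ne' h4

theorem SM.stp_det (M : SM C K Γ) {g L : ℕ} (eΓ : Γ ≃ Fin g) (eC : C ≃ Fin L) (hL : L ≠ 0)
    {v w w' : Option K → ℤ} (h : Stp (M.aff eΓ eC hL) v w) (h' : Stp (M.aff eΓ eC hL) v w') :
    w = w' := by
  obtain ⟨⟨c, ρ⟩, z, h1, h2⟩ := h
  obtain ⟨⟨c', ρ'⟩, z', h1', h2'⟩ := h'
  rw [h1] at h1'
  have hn := congrFun h1' none
  have e1 : eC c = eC c' ∧ z none = z' none := by
    have := mod_unique (eC c).2 (eC c').2 (z := z none) (z' := z' none) hn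
    exact ⟨Fin.ext this.1, this.2⟩
  have e2 : c = c' := eC.injective e1.1
  have e3 : ∀ i, ρ i = ρ' i ∧ z (some i) = z' (some i) := by
    intro i
    have hi := congrFun h1' (some i)
    have := mod_unique (ρ i).2 (ρ' i).2 (z := z (some i)) (z' := z' (some i)) hi
    exact ⟨Fin.ext this.1, this.2⟩
  have e4 : ρ = ρ' := funext fun i => (e3 i).1
  have e5 : z = z' := by
    funext o
    cases o with
    | none => exact e1.2
    | some i => exact (e3 i).2
  subst e2 e4 e5
  rw [h2, h2']

/-- For a deterministic relation with a loop at `v0`. -/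
theorem eqvGen_iff_of_det {α : Type} {R : α → α → Prop} (hdet : ∀ v w w', R v w → R v w' → w = w')
    {v0 : α} (h0 : R v0 v0) (v : α) :
    Relation.EqvGen R v v0 ↔ Relation.ReflTransGen R v v0 := by
  constructor
  · have key : ∀ v w, Relation.EqvGen R v w →
        (Relation.ReflTransGen R v v0 ↔ Relation.ReflTransGen R w v0) := by
      intro v w hvw
      induction hvw with
      | rel v w h =>
        constructor
        · intro h1
          rcases Relation.ReflTransGen.cases_head h1 with h2 | ⟨u, h2, h3⟩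
          · subst h2
            rw [hdet _ _ _ h0 h] at h1
            rw [← hdet _ _ _ h0 h]
          · rw [hdet _ _ _ h h2]
            exact h3
        · intro h1
          exact Relation.ReflTransGen.head h h1
      | refl => rfl
      | symm _ _ _ ih => exact ih.symm
      | trans _ _ _ _ _ ih1 ih2 => exact ih1.trans ih2
    intro h
    exact (key v v0 h).2 Relation.ReflTransGen.refl
  · intro h
    clear h0
    induction h with
    | refl => exact Relation.EqvGen.refl _
    | tail _ h2 ih => exact ih.trans _ _ _ (Relation.EqvGen.rel _ _ h2)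

theorem SM.reflTransGen_iff (M : SM C K Γ) {g L : ℕ} (eΓ : Γ ≃ Fin g) (eC : C ≃ Fin L) (hL : L ≠ 0)
    (c d : C × (K → List Γ)) :
    Relation.ReflTransGen (Stp (M.aff eΓ eC hL)) (enc eΓ eC c) (enc eΓ eC d) ↔
      ∃ n, M.step^[n] c = d := by
  constructor
  · have key : ∀ v w, Relation.ReflTransGen (Stp (M.aff eΓ eC hL)) v w → ∀ c, v = enc eΓ eC c →
        ∃ n, w = enc eΓ eC (M.step^[n] c) := by
      intro v w h
      induction h with
      | refl => intro c hc; exact ⟨0, hc⟩
      | tail _ h2 ih =>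
        intro c hc
        obtain ⟨n, hn⟩ := ih c hc
        refine ⟨n + 1, ?_⟩
        rw [hn] at h2
        rw [Function.iterate_succ_apply']
        exact M.stp_det eΓ eC hL h2 (M.stp_enc eΓ eC hL _)
    intro h
    obtain ⟨n, hn⟩ := key _ _ h c rfl
    exact ⟨n, (enc_injective eΓ eC hn).symm⟩
  · rintro ⟨n, rfl⟩
    induction n with
    | zero => exact Relation.ReflTransGen.refl
    | succ n ih =>
      rw [Function.iterate_succ_apply']
      exact ih.tail (M.stp_enc eΓ eC hL _)

/-- If `h` is a control that pops all the stacks for ever, then the machine reaches `h` with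
empty stacks iff it reaches `h`. -/
theorem SM.reach_iff [Finite K] (M : SM C K Γ) (h : C) (hh : ∀ f, M.nxt h f = (h, fun _ => .pop))
    (c : C × (K → List Γ)) :
    (∃ n, M.step^[n] c = (h, fun _ => [])) ↔ ∃ n, (M.step^[n] c).1 = h := by
  constructor
  · rintro ⟨n, hn⟩
    exact ⟨n, by rw [hn]⟩
  · rintro ⟨n, hn⟩
    have key : ∀ m, M.step^[m] (M.step^[n] c) = (h, fun i => ((M.step^[n] c).2 i).drop m) := by
      intro m
      induction m with
      | zero => simp [← hn]
      | succ m ih =>
        rw [Function.iterate_succ_apply', ih]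
        simp only [SM.step, hh, Op.run, List.tail_drop]
    obtain ⟨b, hb⟩ : ∃ b, ∀ i, ((M.step^[n] c).2 i).length ≤ b := by
      have := Finite.bddAbove_range (fun i => ((M.step^[n] c).2 i).length)
      obtain ⟨b, hb⟩ := this
      exact ⟨b, fun i => hb ⟨i, rfl⟩⟩
    refine ⟨b + n, ?_⟩
    rw [Function.iterate_add_apply, key]
    congr 1
    funext i
    exact List.drop_eq_nil_iff.2 (hb i)

/-- Halting of the machine is a word problem. -/
theorem SM.mk_wrd_iff [Fintype K] [DecidableEq K] (M : SM C K Γ) {g L : ℕ} (eΓ : Γ ≃ Fin g)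
    (eC : C ≃ Fin L) (hL : L ≠ 0) (h : C) (hh : ∀ f, M.nxt h f = (h, fun _ => .pop))
    (c : C × (K → List Γ)) :
    PresentedGroup.mk (relSet (M.aff eΓ eC hL) (enc eΓ eC (h, fun _ => [])))
      (wrd _ (enc eΓ eC c)) = 1 ↔ ∃ n, (M.step^[n] c).1 = h := by
  have h0 := M.stp_enc eΓ eC hL (h, fun _ => [])
  have e : M.step (h, fun _ => ([] : List Γ)) = (h, fun _ => []) := by
    simp [SM.step, hh, Op.run]
  rw [e] at h0
  have h1 := eqvGen_iff_of_det (R := Stp (M.aff eΓ eC hL))
    (fun v w w' h1 h2 => M.stp_det eΓ eC hL h1 h2) h0 (enc eΓ eC c)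
  rw [Boone.mk_wrd_iff, h1, M.reflTransGen_iff, M.reach_iff h hh]

end Pool.Agent.Helper14.Boone
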