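import Mathlib
import Pool.Agent.Helper14.BooneMachine
import Pool.Agent.Helper27.Machine

set_option autoImplicit false

/-! The evaluation machine of partial recursive functions as a multi-stack machine. -/

namespace Pool.Agent.Helper14.Boone

open Turing Turing.PartrecToTM2 StateTransition Pool.Agent.Helper27

/-- The next control and the stack operations. -/
def nx : Option SS × Option Γ' → (K' → Option Γ') → (Option SS × Option Γ') × (K' → Op Γ')
  | (none, _), _ => ((none, none), fun _ => .pop)
  | (some (.push k f q), v), _ => ((some q, v), Function.update (fun _ => .id) k (.push (f v)))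
  | (some (.peek k f q), v), hd => ((some q, f v (hd k)), fun _ => .id)
  | (some (.pop k f q), v), hd => ((some q, f v (hd k)), Function.update (fun _ => .id) k .pop)
  | (some (.load a q), v), _ => ((some q, a v), fun _ => .id)
  | (some (.branch f q₁ q₂), v), _ => ((some (cond (f v) q₁ q₂), v), fun _ => .id)
  | (some (.goto f), v), _ => ((some (tr (f v)), v), fun _ => .id)
  | (some .halt, v), _ => ((none, v), fun _ => .id)

/-- The machine with unrestricted control. -/
def MU : SM (Option SS × Option Γ') K' Γ' := ⟨nx⟩

/-- The step function that stops. -/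
def f2 (p : (Option SS × Option Γ') × (K' → List Γ')) :
    Option ((Option SS × Option Γ') × (K' → List Γ')) :=
  match p.1.1 with
  | none => none
  | some _ => some (MU.step p)

theorem f2_some {q : SS} {v : Option Γ'} {S : K' → List Γ'} :
    f2 ((some q, v), S) = some (MU.step ((some q, v), S)) := rfl

theorem run_update (k : K') (o : Op Γ') (S : K' → List Γ') :
    (fun i => ((Function.update (fun _ => Op.id) k o : K' → Op Γ') i).run (S i)) =
      Function.update S k (o.run (S k)) := by
  funext i
  by_cases h : i = k
  · subst h; simp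
  · simp [Function.update_of_ne h, Op.run]

theorem run_id (S : K' → List Γ') : (fun i => (Op.id : Op Γ').run (S i)) = S := rfl

theorem f2_reaches (q : SS) (v : Option Γ') (S : K' → List Γ') :
    Reaches₁ f2 ((some q, v), S)
      (((TM2.stepAux q v S).l.map tr, (TM2.stepAux q v S).var), (TM2.stepAux q v S).stk) := by
  induction q generalizing v S with
  | push k f q ih =>
    refine Relation.TransGen.head ?_ (ih v (Function.update S k (f v :: S k)))
    change some _ = some _
    congr 1
    simp only [SM.step, MU, nx, run_update]
    rfl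
  | peek k f q ih => exact Relation.TransGen.head rfl (ih (f v (S k).head?) S)
  | pop k f q ih =>
    refine Relation.TransGen.head ?_ (ih (f v (S k).head?) (Function.update S k (S k).tail))
    change some _ = some _
    congr 1
    simp only [SM.step, MU, nx, run_update]
    rfl
  | load a q ih => exact Relation.TransGen.head rfl (ih (a v) S)
  | branch f q1 q2 ih1 ih2 =>
    have h0 : f2 ((some (.branch f q1 q2), v), S) = some ((some (cond (f v) q1 q2), v), S) := rfl
    cases hf : f v
    · rw [hf] at h0
      simp only [TM2.stepAux, hf, cond_false]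
      exact Relation.TransGen.head h0 (ih2 v S)
    · rw [hf] at h0
      simp only [TM2.stepAux, hf, cond_true]
      exact Relation.TransGen.head h0 (ih1 v S)
  | goto f => exact Relation.TransGen.single rfl
  | halt => exact Relation.TransGen.single rfl

/-- The simulation relation. -/
def trR (c : Cfg') (p : (Option SS × Option Γ') × (K' → List Γ')) : Prop :=
  p = ((c.l.map tr, c.var), c.stk)

theorem f2_respects : Respects (TM2.step tr) f2 trR := by
  rintro ⟨l, v, S⟩ p rfl
  cases l with
  | none => rfl
  | some l => exact ⟨_, rfl, f2_reaches (tr l) v S⟩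

theorem eval_f2_dom (p : (Option SS × Option Γ') × (K' → List Γ')) :
    (eval f2 p).Dom ↔ ∃ n, (MU.step^[n] p).1.1 = none := by
  classical
  constructor
  · intro h
    obtain ⟨b, hb⟩ := Part.dom_iff_mem.1 h
    obtain ⟨h1, h2⟩ := mem_eval.1 hb
    have key : ∃ n, b = MU.step^[n] p := by
      clear h2 hb h
      induction h1 with
      | refl => exact ⟨0, rfl⟩
      | @tail b' b'' _ hst ih =>
        obtain ⟨n, rfl⟩ := ih
        refine ⟨n + 1, ?_⟩
        rw [Function.iterate_succ_apply']
        change f2 (MU.step^[n] p) = some b'' at hst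
        unfold f2 at hst
        split at hst
        · simp at hst
        · exact (Option.some.inj hst).symm
    obtain ⟨n, rfl⟩ := key
    refine ⟨n, ?_⟩
    unfold f2 at h2
    split at h2
    · assumption
    · simp at h2
  · intro h
    have hn := Nat.find_spec h
    have hmin : ∀ m < Nat.find h, (MU.step^[m] p).1.1 ≠ none := fun m hm => Nat.find_min h hm
    have key : ∀ m ≤ Nat.find h, Reaches f2 p (MU.step^[m] p) := by
      intro m
      induction m with
      | zero => intro _; exact Relation.ReflTransGen.refl
      | succ m ih =>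
        intro hm
        refine (ih (by omega)).tail ?_
        rw [Function.iterate_succ_apply']
        have := hmin m (by omega)
        change f2 (MU.step^[m] p) = some _
        unfold f2
        split
        · rename_i h3; exact absurd h3 this
        · rfl
    have h2 : f2 (MU.step^[Nat.find h] p) = none := by
      unfold f2
      rw [hn]
    exact Part.dom_iff_mem.2 ⟨_, mem_eval.2 ⟨key _ le_rfl, h2⟩⟩

theorem nx_mem (c : ToPartrec.Code) {o : Option SS} (ho : o ∈ stm c) (v : Option Γ')
    (hd : K' → Option Γ') : (nx (o, v) hd).1.1 ∈ stm c := by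
  cases o with
  | none => exact none_mem_stm c
  | some q =>
    cases q with
    | push k f q => exact TM2.stmts_trans (by simp [TM2.stmts₁, TM2.stmts₁_self]) ho
    | peek k f q => exact TM2.stmts_trans (by simp [TM2.stmts₁, TM2.stmts₁_self]) ho
    | pop k f q => exact TM2.stmts_trans (by simp [TM2.stmts₁, TM2.stmts₁_self]) ho
    | load a q => exact TM2.stmts_trans (by simp [TM2.stmts₁, TM2.stmts₁_self]) ho
    | branch f q1 q2 =>
      refine TM2.stmts_trans ?_ ho
      cases f v
      · simp [TM2.stmts₁, TM2.stmts₁_self]
      · simp [TM2.stmts₁, TM2.stmts₁_self]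
    | goto f =>
      have ss := tr_supports c Cont'.halt
      have := @TM2.stmts_supportsStmt _ _ _ _ ⟨trNormal c Cont'.halt⟩ _ _ _ ss ho
      exact mem_stm (this v)
    | halt => exact none_mem_stm c

/-- The controls of the restricted machine. -/
abbrev Ct (c : ToPartrec.Code) := {o : Option SS // o ∈ stm c} × Option Γ'

/-- The restricted machine. -/
def MC (c : ToPartrec.Code) : SM (Ct c) K' Γ' where
  nxt p hd := ((⟨(nx (p.1.1, p.2) hd).1.1, nx_mem c p.1.2 p.2 hd⟩, (nx (p.1.1, p.2) hd).1.2),
    (nx (p.1.1, p.2) hd).2)

/-- Embedding of configurations. -/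
def em {c : ToPartrec.Code} (p : Ct c × (K' → List Γ')) :
    (Option SS × Option Γ') × (K' → List Γ') := ((p.1.1.1, p.1.2), p.2)

theorem em_step {c : ToPartrec.Code} (p : Ct c × (K' → List Γ')) :
    em ((MC c).step p) = MU.step (em p) := rfl

theorem em_iterate {c : ToPartrec.Code} (p : Ct c × (K' → List Γ')) (n : ℕ) :
    em ((MC c).step^[n] p) = MU.step^[n] (em p) := by
  induction n with
  | zero => rfl
  | succ n ih => rw [Function.iterate_succ_apply', Function.iterate_succ_apply', em_step, ih]

/-- The halted control. -/
def ht (c : ToPartrec.Code) : Ct c := (⟨none, none_mem_stm c⟩, none)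

theorem ht_nxt (c : ToPartrec.Code) (f : K' → Option Γ') :
    (MC c).nxt (ht c) f = (ht c, fun _ => .pop) := rfl

theorem reach_ht_iff {c : ToPartrec.Code} (p : Ct c × (K' → List Γ')) :
    (∃ n, ((MC c).step^[n] p).1 = ht c) ↔ (eval f2 (em p)).Dom := by
  rw [eval_f2_dom]
  constructor
  · rintro ⟨n, hn⟩
    refine ⟨n, ?_⟩
    rw [← em_iterate]
    change ((MC c).step^[n] p).1.1.1 = none
    rw [hn]; rfl
  · rintro ⟨n, hn⟩
    rw [← em_iterate] at hn
    change ((MC c).step^[n] p).1.1.1 = none at hn
    refine ⟨n + 1, ?_⟩
    rw [Function.iterate_succ_apply']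
    generalize (MC c).step^[n] p = q at hn
    obtain ⟨⟨⟨o, ho⟩, v⟩, S⟩ := q
    simp only at hn
    subst hn
    rfl

/-- The initial configuration on input `[2 ^ n - 1]`. -/
def ini (c : ToPartrec.Code) (n : ℕ) : Ct c × (K' → List Γ') :=
  ((⟨some (tr (trNormal c Cont'.halt)), start_mem c⟩, none),
    K'.elim (List.replicate n Γ'.bit1 ++ [Γ'.cons]) [] [] [])

theorem reach_ini_iff (c : ToPartrec.Code) (n : ℕ) :
    (∃ m, ((MC c).step^[m] (ini c n)).1 = ht c) ↔ (c.eval [2 ^ n - 1]).Dom := by
  rw [reach_ht_iff]
  have h1 : trR (init c [2 ^ n - 1]) (em (ini c n)) := by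
    have : (List.replicate n Γ'.bit1 ++ [Γ'.cons]) = trList [2 ^ n - 1] := by
      simp [trNat_ones]
    unfold ini
    rw [this]
    rfl
  rw [tr_eval_dom f2_respects h1, PartrecToTM2.tr_eval]
  rfl

end Pool.Agent.Helper14.Boone
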