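import Mathlib

set_option autoImplicit false
set_option linter.unusedSectionVars false

/-! Averages over signs: block independence and a small ball estimate. -/

namespace Pool.Agent.Helper14.SignRigidity

open Finset

/-- The sign of a Boolean. -/
def sg (b : Bool) : ℝ := if b then 1 else -1

theorem sg_true : sg true = 1 := rfl
theorem sg_false : sg false = -1 := rfl

theorem sg_sq (b : Bool) : sg b ^ 2 = 1 := by cases b <;> norm_num [sg]

theorem sg_not (b : Bool) : sg (!b) = - sg b := by cases b <;> norm_num [sg]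

theorem sg_beq (a b : Bool) : sg (a == b) = sg a * sg b := by
  cases a <;> cases b <;> norm_num [sg]

theorem abs_sg (b : Bool) : |sg b| = 1 := by cases b <;> norm_num [sg]

section Avg

variable {ι : Type*} [Fintype ι] [DecidableEq ι]

/-- Modify `ω` by the signs `τ` on the block `T`. -/
def md (ω : ι → Bool) (T : Finset ι) (τ : ι → Bool) : ι → Bool :=
  fun i => if i ∈ T then (ω i == τ i) else ω i

theorem md_of_notMem {ω : ι → Bool} {T : Finset ι} {τ : ι → Bool} {i : ι} (h : i ∉ T) :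
    md ω T τ i = ω i := by simp [md, h]

theorem md_of_mem {ω : ι → Bool} {T : Finset ι} {τ : ι → Bool} {i : ι} (h : i ∈ T) :
    md ω T τ i = (ω i == τ i) := by simp [md, h]

theorem md_md (ω : ι → Bool) (T : Finset ι) (τ : ι → Bool) : md (md ω T τ) T τ = ω := by
  funext i
  by_cases h : i ∈ T
  · rw [md_of_mem h, md_of_mem h]
    cases ω i <;> cases τ i <;> rfl
  · rw [md_of_notMem h, md_of_notMem h]

theorem sum_md (F : (ι → Bool) → ℝ) (T : Finset ι) (τ : ι → Bool) :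
    ∑ ω, F (md ω T τ) = ∑ ω, F ω := by
  let e : (ι → Bool) ≃ (ι → Bool) :=
    ⟨fun ω => md ω T τ, fun ω => md ω T τ, fun ω => md_md ω T τ, fun ω => md_md ω T τ⟩
  exact Equiv.sum_comp e F

/-- The number of sign vectors. -/
noncomputable def NN (ι : Type*) [Fintype ι] [DecidableEq ι] : ℝ := (Fintype.card (ι → Bool) : ℝ)

theorem NN_pos : 0 < NN ι := by
  unfold NN
  exact_mod_cast Fintype.card_pos

theorem NN_eq : NN ι = 2 ^ Fintype.card ι := by
  unfold NN
  simp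

/-- Product of functions living on independent blocks. -/
theorem block {κ : Type*} [DecidableEq κ] (K : Finset κ) (T : κ → Finset ι)
    (g : κ → (ι → Bool) → ℝ) (c : ℝ) (hc : 0 ≤ c) (hg : ∀ k ∈ K, ∀ ω, 0 ≤ g k ω)
    (hind : ∀ k ∈ K, ∀ k' ∈ K, k ≠ k' → ∀ ω τ, g k' (md ω (T k) τ) = g k' ω)
    (havg : ∀ k ∈ K, ∀ ω, ∑ τ, g k (md ω (T k) τ) ≤ c * NN ι) :
    ∑ ω, ∏ k ∈ K, g k ω ≤ c ^ K.card * NN ι := by
  induction K using Finset.induction_on with
  | empty => simp [NN]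
  | insert k0 K hk0 ih =>
    have ih' := ih (fun k hk => hg k (mem_insert_of_mem hk))
      (fun k hk k' hk' => hind k (mem_insert_of_mem hk) k' (mem_insert_of_mem hk'))
      (fun k hk => havg k (mem_insert_of_mem hk))
    have hH : ∀ ω τ, ∏ k ∈ K, g k (md ω (T k0) τ) = ∏ k ∈ K, g k ω := by
      intro ω τ
      apply Finset.prod_congr rfl
      intro k hk
      exact hind k0 (mem_insert_self _ _) k (mem_insert_of_mem hk) (by rintro rfl; exact hk0 hk) ω τ
    have hHn : ∀ ω, 0 ≤ ∏ k ∈ K, g k ω := fun ω =>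
      Finset.prod_nonneg (fun k hk => hg k (mem_insert_of_mem hk) ω)
    have h1 : NN ι * ∑ ω, ∏ k ∈ insert k0 K, g k ω =
        ∑ ω, (∏ k ∈ K, g k ω) * ∑ τ, g k0 (md ω (T k0) τ) := by
      have h2 : ∀ τ : ι → Bool, ∑ ω, ∏ k ∈ insert k0 K, g k ω =
          ∑ ω, (∏ k ∈ K, g k ω) * g k0 (md ω (T k0) τ) := by
        intro τ
        rw [← sum_md _ (T k0) τ]
        apply Finset.sum_congr rfl
        intro ω _
        rw [Finset.prod_insert hk0, hH, mul_comm]
      calc NN ι * ∑ ω, ∏ k ∈ insert k0 K, g k ω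
          = ∑ τ : ι → Bool, ∑ ω, ∏ k ∈ insert k0 K, g k ω := by
            rw [Finset.sum_const, nsmul_eq_mul]; rfl
        _ = ∑ τ : ι → Bool, ∑ ω, (∏ k ∈ K, g k ω) * g k0 (md ω (T k0) τ) :=
            Finset.sum_congr rfl (fun τ _ => h2 τ)
        _ = ∑ ω, ∑ τ : ι → Bool, (∏ k ∈ K, g k ω) * g k0 (md ω (T k0) τ) := Finset.sum_comm
        _ = _ := by
            apply Finset.sum_congr rfl
            intro ω _
            rw [Finset.mul_sum]
    have h3 : NN ι * ∑ ω, ∏ k ∈ insert k0 K, g k ω ≤ NN ι * (c * (c ^ K.card * NN ι)) := by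
      rw [h1]
      calc ∑ ω, (∏ k ∈ K, g k ω) * ∑ τ, g k0 (md ω (T k0) τ)
          ≤ ∑ ω, (∏ k ∈ K, g k ω) * (c * NN ι) := by
            apply Finset.sum_le_sum
            intro ω _
            exact mul_le_mul_of_nonneg_left (havg k0 (mem_insert_self _ _) ω) (hHn ω)
        _ = (c * NN ι) * ∑ ω, ∏ k ∈ K, g k ω := by rw [← Finset.sum_mul, mul_comm]
        _ ≤ (c * NN ι) * (c ^ K.card * NN ι) :=
            mul_le_mul_of_nonneg_left ih' (mul_nonneg hc NN_pos.le)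
        _ = _ := by ring
    have h4 := le_of_mul_le_mul_left h3 NN_pos
    rw [Finset.card_insert_of_notMem hk0, pow_succ]
    calc _ ≤ c * (c ^ K.card * NN ι) := h4
      _ = _ := by ring

/-- Conditioning on one sign. -/
theorem sum_insert_sign (T : Finset ι) (i0 : ι) (hi0 : i0 ∉ T) (s : ι → ℝ) (f : ℝ → ℝ) (c : ℝ) :
    2 * ∑ τ : ι → Bool, f (∑ i ∈ insert i0 T, s i * sg (τ i) + c) =
      ∑ τ : ι → Bool, f (∑ i ∈ T, s i * sg (τ i) + (c + s i0)) +
      ∑ τ : ι → Bool, f (∑ i ∈ T, s i * sg (τ i) + (c - s i0)) := by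
  have hfl : ∑ τ : ι → Bool, f (∑ i ∈ insert i0 T, s i * sg (τ i) + c) =
      ∑ τ : ι → Bool, f (∑ i ∈ insert i0 T, s i * sg (Function.update τ i0 (!τ i0) i) + c) := by
    have hinv : Function.Involutive
        (fun τ : ι → Bool => Function.update τ i0 (!τ i0)) := by
      intro τ
      funext i
      by_cases h : i = i0
      · subst h; simp
      · simp [Function.update_of_ne h]
    exact (Equiv.sum_comp hinv.toPerm
      (fun τ => f (∑ i ∈ insert i0 T, s i * sg (τ i) + c))).symm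
  have h2 : ∀ τ : ι → Bool, ∑ i ∈ T, s i * sg (Function.update τ i0 (!τ i0) i) =
      ∑ i ∈ T, s i * sg (τ i) := by
    intro τ
    apply Finset.sum_congr rfl
    intro i hi
    have : i ≠ i0 := by rintro rfl; exact hi0 hi
    rw [Function.update_of_ne this]
  rw [two_mul]
  nth_rw 2 [hfl]
  rw [← Finset.sum_add_distrib, ← Finset.sum_add_distrib]
  apply Finset.sum_congr rfl
  intro τ _
  rw [Finset.sum_insert hi0, Finset.sum_insert hi0, h2, Function.update_self, sg_not]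
  cases τ i0
  · rw [sg_false, add_comm]
    congr 2 <;> ring
  · rw [sg_true]
    congr 2 <;> ring

theorem second_moment (T : Finset ι) (s : ι → ℝ) (c : ℝ) :
    ∑ τ : ι → Bool, (∑ i ∈ T, s i * sg (τ i) + c) ^ 2 = NN ι * (∑ i ∈ T, s i ^ 2 + c ^ 2) := by
  induction T using Finset.induction_on generalizing c with
  | empty => simp [NN]
  | insert i0 T hi0 ih =>
    have h := sum_insert_sign T i0 hi0 s (fun x => x ^ 2) c
    rw [ih, ih] at h
    rw [Finset.sum_insert hi0]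
    linarith

theorem fourth_moment (T : Finset ι) (s : ι → ℝ) (c : ℝ) :
    ∑ τ : ι → Bool, (∑ i ∈ T, s i * sg (τ i) + c) ^ 4 ≤
      NN ι * (3 * (∑ i ∈ T, s i ^ 2) ^ 2 + 6 * (∑ i ∈ T, s i ^ 2) * c ^ 2 + c ^ 4) := by
  induction T using Finset.induction_on generalizing c with
  | empty => simp [NN]
  | insert i0 T hi0 ih =>
    have h := sum_insert_sign T i0 hi0 s (fun x => x ^ 4) c
    have h1 := ih (c + s i0)
    have h2 := ih (c - s i0)
    rw [Finset.sum_insert hi0]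
    have hN := NN_pos (ι := ι)
    have h3 : (NN ι) * (3 * (∑ i ∈ T, s i ^ 2) ^ 2 + 6 * (∑ i ∈ T, s i ^ 2) * (c + s i0) ^ 2 +
        (c + s i0) ^ 4) + (NN ι) * (3 * (∑ i ∈ T, s i ^ 2) ^ 2 +
        6 * (∑ i ∈ T, s i ^ 2) * (c - s i0) ^ 2 + (c - s i0) ^ 4) ≤
        2 * (NN ι * (3 * (s i0 ^ 2 + ∑ i ∈ T, s i ^ 2) ^ 2 +
          6 * (s i0 ^ 2 + ∑ i ∈ T, s i ^ 2) * c ^ 2 + c ^ 4)) := by
      have h4 : 0 ≤ NN ι * (4 * s i0 ^ 4) := by positivity
      nlinarith [h4]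
    linarith

theorem exp_neg_le {t : ℝ} (ht : 0 ≤ t) : Real.exp (-t) ≤ 1 - t + t ^ 2 / 2 := by
  have h1 := Real.quadratic_le_exp_of_nonneg ht
  have h2 : 0 < 1 + t + t ^ 2 / 2 := by positivity
  have h3 : Real.exp (-t) * Real.exp t = 1 := by rw [← Real.exp_add]; simp
  have h4 : Real.exp (-t) * (1 + t + t ^ 2 / 2) ≤ 1 :=
    (mul_le_mul_of_nonneg_left h1 (Real.exp_pos _).le).trans h3.le
  have h5 : (1 : ℝ) ≤ (1 - t + t ^ 2 / 2) * (1 + t + t ^ 2 / 2) := by nlinarith [sq_nonneg (t ^ 2)]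
  exact le_of_mul_le_mul_right (h4.trans h5) h2

/-- Small ball estimate. -/
theorem small_ball (T : Finset ι) (s : ι → ℝ) (c : ℝ) (hr : 0 < ∑ i ∈ T, s i ^ 2) :
    ∑ τ : ι → Bool, Real.exp (-((∑ i ∈ T, s i * sg (τ i) + c) ^ 2 / (3 * ∑ i ∈ T, s i ^ 2))) ≤
      5 / 6 * NN ι := by
  obtain ⟨r, hrr⟩ : ∃ r, r = ∑ i ∈ T, s i ^ 2 := ⟨_, rfl⟩
  have h2 := second_moment T s c
  have h4 := fourth_moment T s c
  rw [← hrr] at hr h2 h4 ⊢
  have hN := NN_pos (ι := ι)
  have hm : 0 < r + c ^ 2 := by positivity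
  have h1 : ∀ τ : ι → Bool,
      Real.exp (-((∑ i ∈ T, s i * sg (τ i) + c) ^ 2 / (3 * r))) ≤
        1 - (∑ i ∈ T, s i * sg (τ i) + c) ^ 2 / (3 * (r + c ^ 2)) +
          (∑ i ∈ T, s i * sg (τ i) + c) ^ 4 / (18 * (r + c ^ 2) ^ 2) := by
    intro τ
    have h5 : (∑ i ∈ T, s i * sg (τ i) + c) ^ 2 / (3 * (r + c ^ 2)) ≤
        (∑ i ∈ T, s i * sg (τ i) + c) ^ 2 / (3 * r) := by
      apply div_le_div_of_nonneg_left (sq_nonneg _) (by positivity)
      nlinarith [sq_nonneg c]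
    have h6 := exp_neg_le (t := (∑ i ∈ T, s i * sg (τ i) + c) ^ 2 / (3 * (r + c ^ 2)))
      (by positivity)
    have h7 : Real.exp (-((∑ i ∈ T, s i * sg (τ i) + c) ^ 2 / (3 * r))) ≤
        Real.exp (-((∑ i ∈ T, s i * sg (τ i) + c) ^ 2 / (3 * (r + c ^ 2)))) :=
      Real.exp_le_exp.2 (neg_le_neg h5)
    refine (h7.trans h6).trans (le_of_eq ?_)
    field_simp
    ring
  calc _ ≤ ∑ τ : ι → Bool, (1 - (∑ i ∈ T, s i * sg (τ i) + c) ^ 2 / (3 * (r + c ^ 2)) +
          (∑ i ∈ T, s i * sg (τ i) + c) ^ 4 / (18 * (r + c ^ 2) ^ 2)) :=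
        Finset.sum_le_sum (fun τ _ => h1 τ)
    _ = NN ι - (∑ τ : ι → Bool, (∑ i ∈ T, s i * sg (τ i) + c) ^ 2) / (3 * (r + c ^ 2)) +
          (∑ τ : ι → Bool, (∑ i ∈ T, s i * sg (τ i) + c) ^ 4) / (18 * (r + c ^ 2) ^ 2) := by
        rw [Finset.sum_add_distrib, Finset.sum_sub_distrib, Finset.sum_div, Finset.sum_div]
        simp [NN]
    _ ≤ NN ι - (NN ι * (r + c ^ 2)) / (3 * (r + c ^ 2)) +
          (NN ι * (3 * (r + c ^ 2) ^ 2)) / (18 * (r + c ^ 2) ^ 2) := by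
        rw [h2]
        have h8 : (∑ τ : ι → Bool, (∑ i ∈ T, s i * sg (τ i) + c) ^ 4) ≤
            NN ι * (3 * (r + c ^ 2) ^ 2) := by
          refine h4.trans (mul_le_mul_of_nonneg_left ?_ hN.le)
          nlinarith [sq_nonneg (c ^ 2)]
        have h9 : (∑ τ : ι → Bool, (∑ i ∈ T, s i * sg (τ i) + c) ^ 4) / (18 * (r + c ^ 2) ^ 2) ≤
            (NN ι * (3 * (r + c ^ 2) ^ 2)) / (18 * (r + c ^ 2) ^ 2) :=
          div_le_div_of_nonneg_right h8 (by positivity)
        linarith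
    _ = 5 / 6 * NN ι := by
        field_simp
        ring

end Avg

end Pool.Agent.Helper14.SignRigidity
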