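import Mathlib
import Pool.Agent.Helper14.SignAverage

set_option autoImplicit false
set_option linter.unusedSectionVars false

/-! Failing rows are exponentially unlikely. -/

namespace Pool.Agent.Helper14.SignRigidity

open Finset

variable {p : ℕ}

/-- The residual at entry `(j, a)`. -/
noncomputable def RR (S₁ S₂ S₃ : Fin p → Fin p → ℝ) (ω : Fin p × Fin p → Bool) (j a : Fin p) : ℝ :=
  ∑ i, S₁ j i * sg (ω (i, a)) - √p * S₂ j a - ∑ b, sg (ω (j, b)) * S₃ b a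

/-- Off-diagonal mass of row `j`. -/
noncomputable def rr (S₁ : Fin p → Fin p → ℝ) (j : Fin p) : ℝ := ∑ i ∈ univ.erase j, S₁ j i ^ 2

/-- Rows that matter for row `j`. -/
noncomputable def UU (S₁ : Fin p → Fin p → ℝ) (j : Fin p) : Finset (Fin p) :=
  insert j (univ.filter (fun i => S₁ j i ≠ 0))

/-- Rows of the block. -/
noncomputable def AA (S₁ : Fin p → Fin p → ℝ) (j : Fin p) : Finset (Fin p) :=
  (univ.erase j).filter (fun i => S₁ j i ≠ 0)

/-- The block. -/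
noncomputable def TT (S₁ : Fin p → Fin p → ℝ) (k : Fin p × Fin p) : Finset (Fin p × Fin p) :=
  AA S₁ k.1 ×ˢ {k.2}

theorem mem_AA {S₁ : Fin p → Fin p → ℝ} {j i : Fin p} : i ∈ AA S₁ j ↔ i ≠ j ∧ S₁ j i ≠ 0 := by
  simp [AA]

theorem mem_TT {S₁ : Fin p → Fin p → ℝ} {k x : Fin p × Fin p} :
    x ∈ TT S₁ k ↔ (x.1 ≠ k.1 ∧ S₁ k.1 x.1 ≠ 0) ∧ x.2 = k.2 := by
  unfold TT
  rw [Finset.mem_product, mem_AA, Finset.mem_singleton]

theorem sum_AA (S₁ : Fin p → Fin p → ℝ) (j : Fin p) : ∑ i ∈ AA S₁ j, S₁ j i ^ 2 = rr S₁ j := by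
  unfold AA rr
  rw [Finset.sum_filter]
  apply Finset.sum_congr rfl
  intro i _
  split_ifs with h
  · rfl
  · push Not at h; rw [h]; simp

theorem sum_TT (S₁ : Fin p → Fin p → ℝ) (k : Fin p × Fin p) (f : Fin p × Fin p → ℝ) :
    ∑ x ∈ TT S₁ k, f x = ∑ i ∈ AA S₁ k.1, f (i, k.2) := by
  unfold TT
  rw [Finset.sum_product]
  simp

theorem RR_md (S₁ S₂ S₃ : Fin p → Fin p → ℝ) (ω τ : Fin p × Fin p → Bool) (k : Fin p × Fin p) :
    RR S₁ S₂ S₃ (md ω (TT S₁ k) τ) k.1 k.2 =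
      ∑ x ∈ TT S₁ k, (S₁ k.1 x.1 * sg (ω x)) * sg (τ x) +
        (RR S₁ S₂ S₃ ω k.1 k.2 - ∑ x ∈ TT S₁ k, S₁ k.1 x.1 * sg (ω x)) := by
  obtain ⟨j, a⟩ := k
  have h1 : ∀ b, md ω (TT S₁ (j, a)) τ (j, b) = ω (j, b) := by
    intro b
    apply md_of_notMem
    rw [mem_TT]; simp
  have h2 : ∑ i, S₁ j i * sg (md ω (TT S₁ (j, a)) τ (i, a)) =
      ∑ i, S₁ j i * sg (ω (i, a)) +
        (∑ x ∈ TT S₁ (j, a), (S₁ j x.1 * sg (ω x)) * sg (τ x) -
          ∑ x ∈ TT S₁ (j, a), S₁ j x.1 * sg (ω x)) := by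
    rw [sum_TT, sum_TT, ← Finset.sum_sub_distrib]
    rw [← sub_eq_iff_eq_add', ← Finset.sum_sub_distrib]
    symm
    have hsub : AA S₁ j ⊆ univ := Finset.subset_univ _
    rw [← Finset.sum_subset hsub]
    · apply Finset.sum_congr rfl
      intro i hi
      have : (i, a) ∈ TT S₁ (j, a) := by
        rw [mem_TT]; exact ⟨mem_AA.1 hi, rfl⟩
      rw [md_of_mem this, sg_beq]
      simp only
      ring
    · intro i _ hi
      by_cases hS : S₁ j i = 0
      · rw [hS]; ring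
      · have hij : i = j := by
          by_contra hne
          exact hi (mem_AA.2 ⟨hne, hS⟩)
        subst hij
        rw [h1]; ring
  unfold RR
  simp only [h1]
  rw [h2]
  ring

theorem RR_indep (S₁ S₂ S₃ : Fin p → Fin p → ℝ) (ω τ : Fin p × Fin p → Bool)
    (k k' : Fin p × Fin p) (hk : k ≠ k') (hU : k.1 ≠ k'.1 → Disjoint (UU S₁ k.1) (UU S₁ k'.1)) :
    RR S₁ S₂ S₃ (md ω (TT S₁ k) τ) k'.1 k'.2 = RR S₁ S₂ S₃ ω k'.1 k'.2 := by
  obtain ⟨j, a⟩ := k
  obtain ⟨j', a'⟩ := k'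
  simp only at hU
  have h1 : ∀ b, md ω (TT S₁ (j, a)) τ (j', b) = ω (j', b) := by
    intro b
    apply md_of_notMem
    rw [mem_TT]
    rintro ⟨⟨h2, h3⟩, h4⟩
    simp only at h2 h3 h4
    have h5 := hU (Ne.symm h2)
    rw [Finset.disjoint_left] at h5
    exact h5 (a := j') (by simp [UU, h3]) (by simp [UU])
  have h2 : ∀ i, S₁ j' i * sg (md ω (TT S₁ (j, a)) τ (i, a')) = S₁ j' i * sg (ω (i, a')) := by
    intro i
    by_cases hS : S₁ j' i = 0
    · rw [hS]; ring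
    · congr 2
      apply md_of_notMem
      rw [mem_TT]
      rintro ⟨⟨h2, h3⟩, h4⟩
      simp only at h2 h3 h4
      by_cases hj : j = j'
      · subst hj; subst h4; exact hk rfl
      · have h5 := hU hj
        rw [Finset.disjoint_left] at h5
        exact h5 (a := i) (by simp [UU, h3]) (by simp [UU, hS])
  unfold RR
  simp only [h1, h2]

theorem exp_tenth : Real.exp (1 / 10) * (5 / 6) ≤ 25 / 27 := by
  have h1 : Real.exp (1 / 10) ≤ 10 / 9 := by
    have h2 := Real.add_one_le_exp (-(1 / 10 : ℝ))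
    have h3 : Real.exp (-(1 / 10)) * Real.exp (1 / 10) = 1 := by rw [← Real.exp_add]; simp
    have h4 := Real.exp_pos (1 / 10)
    nlinarith
  linarith

theorem count_fail (S₁ S₂ S₃ : Fin p → Fin p → ℝ) (B : Finset (Fin p))
    (hB : ∀ j ∈ B, ∀ j' ∈ B, j ≠ j' → Disjoint (UU S₁ j) (UU S₁ j'))
    (hr : ∀ j ∈ B, 0 < rr S₁ j) :
    ((univ.filter (fun ω : Fin p × Fin p → Bool =>
      ∀ j ∈ B, ∑ a, RR S₁ S₂ S₃ ω j a ^ 2 ≤ 3 / 10 * p * rr S₁ j)).card : ℝ) ≤
      (25 / 27) ^ (B.card * p) * NN (Fin p × Fin p) := by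
  classical
  let g : Fin p × Fin p → (Fin p × Fin p → Bool) → ℝ := fun k ω =>
    Real.exp (1 / 10) * Real.exp (-(RR S₁ S₂ S₃ ω k.1 k.2 ^ 2 / (3 * rr S₁ k.1)))
  have hg : ∀ k ω, 0 ≤ g k ω := fun k ω => by positivity
  have hb := block (B ×ˢ (univ : Finset (Fin p))) (TT S₁) g (25 / 27) (by norm_num)
    (fun k _ ω => hg k ω)
    (by
      intro k hk k' hk' hne ω τ
      simp only [g]
      rw [RR_indep S₁ S₂ S₃ ω τ k k' hne]
      intro h
      exact hB _ (Finset.mem_product.1 hk).1 _ (Finset.mem_product.1 hk').1 h)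
    (by
      intro k hk ω
      simp only [g]
      rw [← Finset.mul_sum]
      have h1 : ∑ x ∈ TT S₁ k, (S₁ k.1 x.1 * sg (ω x)) ^ 2 = rr S₁ k.1 := by
        rw [sum_TT, ← sum_AA]
        apply Finset.sum_congr rfl
        intro i _
        rw [mul_pow, sg_sq, mul_one]
      have h2 := small_ball (TT S₁ k) (fun x => S₁ k.1 x.1 * sg (ω x))
        (RR S₁ S₂ S₃ ω k.1 k.2 - ∑ x ∈ TT S₁ k, S₁ k.1 x.1 * sg (ω x))
        (by rw [h1]; exact hr _ (Finset.mem_product.1 hk).1)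
      rw [h1] at h2
      simp only [RR_md]
      calc _ ≤ Real.exp (1 / 10) * (5 / 6 * NN (Fin p × Fin p)) :=
            mul_le_mul_of_nonneg_left h2 (Real.exp_pos _).le
        _ = (Real.exp (1 / 10) * (5 / 6)) * NN (Fin p × Fin p) := by ring
        _ ≤ _ := mul_le_mul_of_nonneg_right exp_tenth NN_pos.le)
  rw [Finset.card_product, Finset.card_univ, Fintype.card_fin] at hb
  refine le_trans ?_ hb
  rw [Finset.card_filter]
  push_cast
  apply Finset.sum_le_sum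
  intro ω _
  split_ifs with h
  · rw [Finset.prod_product]
    have h1 : ∀ j ∈ B, (1 : ℝ) ≤ ∏ a : Fin p, g (j, a) ω := by
      intro j hj
      simp only [g]
      rw [Finset.prod_mul_distrib, ← Real.exp_sum, ← Real.exp_sum, ← Real.exp_add]
      apply Real.one_le_exp
      rw [Finset.sum_neg_distrib, Finset.sum_const, Finset.card_univ,
        Fintype.card_fin, nsmul_eq_mul]
      have h2 := h j hj
      have h3 := hr j hj
      have h4 : (∑ i, RR S₁ S₂ S₃ ω j i ^ 2) / (3 * rr S₁ j) ≤ p * (1 / 10) := by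
        rw [div_le_iff₀ (by positivity)]
        linarith
      rw [Finset.sum_div] at h4
      linarith
    calc (1 : ℝ) = ∏ j ∈ B, (1 : ℝ) := by simp
      _ ≤ _ := Finset.prod_le_prod (fun _ _ => zero_le_one) h1
  · exact Finset.prod_nonneg (fun k _ => hg k ω)

end Pool.Agent.Helper14.SignRigidity
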