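import Mathlib
import Pool.Agent.Helper14.SignCount

set_option autoImplicit false
set_option linter.unusedSectionVars false

/-! The union bound over discretised column-sparse triples. -/

namespace Pool.Agent.Helper14.SignRigidity

open Finset

variable {p : ℕ}

/-- Decoding of column-sparse integer matrices. -/
def dec {s : ℕ} (m : ℕ) (τ : Fin p → Fin s → Fin p × Fin (2 * m + 1)) (j i : Fin p) : ℤ :=
  ∑ k, if (τ i k).1 = j then ((τ i k).2 : ℤ) - m else 0

theorem dec_surj {s m : ℕ} (z : Fin p → Fin p → ℤ)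
    (hs : ∀ i, (univ.filter (fun j => z j i ≠ 0)).card ≤ s) (hb : ∀ j i, |z j i| ≤ m) :
    ∃ τ : Fin p → Fin s → Fin p × Fin (2 * m + 1), ∀ j i, dec m τ j i = z j i := by
  classical
  have hv : ∀ j i, (z j i + m).toNat < 2 * m + 1 := by
    intro j i
    have := abs_le.1 (hb j i)
    omega
  -- an injection of the support of column `i` in `Fin s`
  let φ : (i : Fin p) → {j // j ∈ univ.filter (fun j => z j i ≠ 0)} → Fin s := fun i j =>
    Fin.castLE (hs i) ((univ.filter (fun j => z j i ≠ 0)).equivFin j)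
  have hφ : ∀ i, Function.Injective (φ i) := by
    intro i a b h
    have := Fin.castLE_injective (hs i) h
    exact (univ.filter (fun j => z j i ≠ 0)).equivFin.injective this
  let τ : Fin p → Fin s → Fin p × Fin (2 * m + 1) := fun i k =>
    if h : ∃ j, φ i j = k then (h.choose.1, ⟨(z h.choose.1 i + m).toNat, hv _ _⟩)
    else (i, ⟨m, by omega⟩)
  refine ⟨τ, ?_⟩
  intro j i
  have hτ1 : ∀ j', τ i (φ i j') = (j'.1, ⟨(z j'.1 i + m).toNat, hv _ _⟩) := by
    intro j'
    have h : ∃ j'', φ i j'' = φ i j' := ⟨j', rfl⟩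
    have hc : h.choose = j' := hφ i h.choose_spec
    simp only [τ]
    rw [dif_pos h, hc]
  have hτ2 : ∀ k, (¬ ∃ j', φ i j' = k) → τ i k = (i, ⟨m, by omega⟩) := by
    intro k h
    simp only [τ]
    rw [dif_neg h]
  unfold dec
  by_cases hj : z j i = 0
  · rw [hj]
    apply Finset.sum_eq_zero
    intro k _
    by_cases h : ∃ j', φ i j' = k
    · obtain ⟨j', rfl⟩ := h
      rw [hτ1]
      have hj' := (Finset.mem_filter.1 j'.2).2
      rw [if_neg]
      rintro rfl
      exact hj' hj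
    · rw [hτ2 k h]
      simp
  · have hmem : j ∈ univ.filter (fun j => z j i ≠ 0) := by simp [hj]
    rw [Finset.sum_eq_single (φ i ⟨j, hmem⟩)]
    · rw [hτ1]
      simp only [if_true]
      have := abs_le.1 (hb j i)
      rw [Int.toNat_of_nonneg (by omega)]
      ring
    · intro k _ hk
      by_cases h : ∃ j', φ i j' = k
      · obtain ⟨j', rfl⟩ := h
        rw [hτ1]
        rw [if_neg]
        rintro h'
        simp only at h'
        apply hk
        congr 1
        exact Subtype.ext h'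
      · rw [hτ2 k h]
        simp
    · simp

theorem card_codes (p s m : ℕ) :
    Fintype.card (Fin p → Fin s → Fin p × Fin (2 * m + 1)) = ((p * (2 * m + 1)) ^ s) ^ p := by
  simp [Fintype.card_prod]

theorem card_conf (S₁ : Fin p → Fin p → ℝ) (s L : ℕ)
    (hs : ∀ i, (univ.filter (fun j => S₁ j i ≠ 0)).card ≤ s) (j' : Fin p)
    (hL : (univ.filter (fun i => S₁ j' i ≠ 0)).card ≤ L) :
    (univ.filter (fun j => ¬ Disjoint (UU S₁ j) (UU S₁ j'))).card ≤ (L + 1) * (s + 1) := by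
  classical
  have h1 : univ.filter (fun j => ¬ Disjoint (UU S₁ j) (UU S₁ j')) ⊆
      (UU S₁ j').biUnion (fun i => insert i (univ.filter (fun j => S₁ j i ≠ 0))) := by
    intro j hj
    have hj := (Finset.mem_filter.1 hj).2
    rw [Finset.not_disjoint_iff] at hj
    obtain ⟨i, h2, h3⟩ := hj
    rw [Finset.mem_biUnion]
    refine ⟨i, h3, ?_⟩
    unfold UU at h2
    rw [Finset.mem_insert] at h2 ⊢
    rcases h2 with h2 | h2
    · exact Or.inl h2.symm
    · right
      simp only [Finset.mem_filter, Finset.mem_univ, true_and] at h2 ⊢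
      exact h2
  refine (Finset.card_le_card h1).trans ?_
  refine (Finset.card_biUnion_le_card_mul _ _ (s + 1) ?_).trans ?_
  · intro i _
    exact (Finset.card_insert_le _ _).trans (Nat.succ_le_succ (hs i))
  · apply Nat.mul_le_mul_right
    exact (Finset.card_insert_le _ _).trans (Nat.succ_le_succ hL)

theorem greedy (S₁ : Fin p → Fin p → ℝ) (s L : ℕ)
    (hs : ∀ i, (univ.filter (fun j => S₁ j i ≠ 0)).card ≤ s) (F : Finset (Fin p))
    (hL : ∀ j ∈ F, (univ.filter (fun i => S₁ j i ≠ 0)).card ≤ L) :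
    ∃ B ⊆ F, (∀ j ∈ B, ∀ j' ∈ B, j ≠ j' → Disjoint (UU S₁ j) (UU S₁ j')) ∧
      F.card ≤ ((L + 1) * (s + 1)) * B.card := by
  classical
  let PP : Finset (Finset (Fin p)) := F.powerset.filter
    (fun B => ∀ j ∈ B, ∀ j' ∈ B, j ≠ j' → Disjoint (UU S₁ j) (UU S₁ j'))
  have hne : PP.Nonempty := ⟨∅, by simp [PP]⟩
  obtain ⟨B, hB, hmax⟩ := Finset.exists_max_image PP (fun B => B.card) hne
  have hB1 : B ⊆ F := Finset.mem_powerset.1 (Finset.mem_filter.1 hB).1
  have hB2 := (Finset.mem_filter.1 hB).2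
  refine ⟨B, hB1, hB2, ?_⟩
  have hcov : F ⊆ B.biUnion (fun j' => univ.filter (fun j => ¬ Disjoint (UU S₁ j) (UU S₁ j'))) := by
    intro j hj
    by_contra hcon
    rw [Finset.mem_biUnion] at hcon
    push Not at hcon
    have hdis : ∀ j' ∈ B, Disjoint (UU S₁ j) (UU S₁ j') := by
      intro j' hj'
      have := hcon j' hj'
      simpa using this
    have hjB : j ∉ B := by
      intro h
      have := hdis j h
      rw [Finset.disjoint_self_iff_empty] at this
      have h2 : j ∈ UU S₁ j := by simp [UU]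
      rw [this] at h2
      simp at h2
    have h3 : insert j B ∈ PP := by
      rw [Finset.mem_filter, Finset.mem_powerset]
      refine ⟨Finset.insert_subset hj hB1, ?_⟩
      intro a ha b hb hab
      rw [Finset.mem_insert] at ha hb
      rcases ha with rfl | ha
      · rcases hb with rfl | hb
        · exact absurd rfl hab
        · exact hdis b hb
      · rcases hb with rfl | hb
        · exact (hdis a ha).symm
        · exact hB2 a ha b hb hab
    have h4 := hmax _ h3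
    rw [Finset.card_insert_of_notMem hjB] at h4
    omega
  refine (Finset.card_le_card hcov).trans ?_
  rw [mul_comm]
  apply Finset.card_biUnion_le_card_mul
  intro j' hj'
  exact card_conf S₁ s L hs j' (hL j' (hB1 hj'))

/-- Failing light rows. -/
noncomputable def fails (S₁ S₂ S₃ : Fin p → Fin p → ℝ) (L : ℕ) (ω : Fin p × Fin p → Bool) :
    Finset (Fin p) := by
  classical
  exact univ.filter (fun j => (univ.filter (fun i => S₁ j i ≠ 0)).card ≤ L ∧ 0 < rr S₁ j ∧
    ∑ a, RR S₁ S₂ S₃ ω j a ^ 2 ≤ 3 / 10 * p * rr S₁ j)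

theorem mem_fails {S₁ S₂ S₃ : Fin p → Fin p → ℝ} {L : ℕ} {ω : Fin p × Fin p → Bool} {j : Fin p} :
    j ∈ fails S₁ S₂ S₃ L ω ↔ (univ.filter (fun i => S₁ j i ≠ 0)).card ≤ L ∧ 0 < rr S₁ j ∧
    ∑ a, RR S₁ S₂ S₃ ω j a ^ 2 ≤ 3 / 10 * p * rr S₁ j := by
  unfold fails
  rw [Finset.mem_filter]
  constructor
  · rintro ⟨_, h⟩; convert h
  · intro h; exact ⟨Finset.mem_univ _, by convert h⟩

/-- The admissible integer matrices. -/
def Adm (s m : ℕ) (z : Fin p → Fin p → ℤ) : Prop :=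
  (∀ i, (univ.filter (fun j => z j i ≠ 0)).card ≤ s) ∧ ∀ j i, |z j i| ≤ m

/-- The bad event. -/
def Bad (s L m : ℕ) (Q β : ℝ) (ω : Fin p × Fin p → Bool) : Prop :=
  ∃ z₁ z₂ z₃ : Fin p → Fin p → ℤ, Adm s m z₁ ∧ Adm s m z₂ ∧ Adm s m z₃ ∧
    β * p ≤ (fails (fun j i => (z₁ j i : ℝ) / Q) (fun j i => (z₂ j i : ℝ) / Q)
      (fun j i => (z₃ j i : ℝ) / Q) L ω).card

theorem asymp (s m : ℕ) (θ : ℝ) (h0 : 0 < θ) (h1 : θ < 1) :
    ∃ p₀ : ℕ, ∀ p ≥ p₀, 4 * (((((p * (2 * m + 1)) ^ s) ^ p : ℕ) : ℝ) ^ 3 * 2 ^ p * θ ^ (p * p)) ≤ 1 := by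
  have h2 : Filter.Tendsto (fun p : ℕ => (2 * m + 1 : ℝ) ^ (3 * s) * 8 * ((p : ℝ) ^ (3 * s) * θ ^ p))
      Filter.atTop (nhds ((2 * m + 1 : ℝ) ^ (3 * s) * 8 * 0)) := by
    apply Filter.Tendsto.const_mul
    apply tendsto_pow_const_mul_const_pow_of_abs_lt_one
    rw [abs_of_pos h0]; exact h1
  rw [mul_zero] at h2
  have h3 : ∀ᶠ p : ℕ in Filter.atTop,
      (2 * m + 1 : ℝ) ^ (3 * s) * 8 * ((p : ℝ) ^ (3 * s) * θ ^ p) < 1 :=
    h2.eventually (gt_mem_nhds one_pos)
  obtain ⟨p₁, hp₁⟩ := Filter.eventually_atTop.1 h3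
  refine ⟨max p₁ 1, fun p hp => ?_⟩
  have hp1 : 1 ≤ p := (le_max_right _ _).trans hp
  have h4 := hp₁ p ((le_max_left _ _).trans hp)
  have h5 : ((2 * m + 1 : ℝ) ^ (3 * s) * 8 * ((p : ℝ) ^ (3 * s) * θ ^ p)) ^ p ≤ 1 :=
    pow_le_one₀ (by positivity) h4.le
  have h6 : (4 : ℝ) ≤ 4 ^ p := by
    calc (4 : ℝ) = 4 ^ 1 := by norm_num
      _ ≤ 4 ^ p := pow_le_pow_right₀ (by norm_num) hp1
  refine le_trans ?_ h5
  have h7 : ((2 * m + 1 : ℝ) ^ (3 * s) * 8 * ((p : ℝ) ^ (3 * s) * θ ^ p)) ^ p =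
      4 ^ p * (((((p * (2 * m + 1)) ^ s) ^ p : ℕ) : ℝ) ^ 3 * 2 ^ p * θ ^ (p * p)) := by
    push_cast
    rw [mul_pow, mul_pow, mul_pow, ← pow_mul θ, show (8 : ℝ) = 4 * 2 by norm_num, mul_pow,
      ← pow_mul, ← pow_mul, ← pow_mul, ← pow_mul, mul_pow]
    ring
  rw [h7]
  exact mul_le_mul_of_nonneg_right h6 (by positivity)

theorem union_bound (s L m : ℕ) (Q β : ℝ) (hβ : 0 < β) :
    ∃ p₀ : ℕ, ∀ p ≥ p₀, ∀ _ : DecidablePred (fun ω : Fin p × Fin p → Bool => Bad s L m Q β ω),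
      4 * ((univ.filter (fun ω : Fin p × Fin p → Bool => Bad s L m Q β ω)).card : ℝ) ≤
        NN (Fin p × Fin p) := by
  classical
  obtain ⟨χ, hχ⟩ : ∃ χ : ℝ, χ = (((L + 1) * (s + 1) : ℕ) : ℝ) := ⟨_, rfl⟩
  have hχ0 : 0 < χ := by rw [hχ]; positivity
  obtain ⟨θ, hθ⟩ : ∃ θ : ℝ, θ = (25 / 27 : ℝ) ^ (β / χ) := ⟨_, rfl⟩
  have hθ0 : 0 < θ := by rw [hθ]; positivity
  have hθ1 : θ < 1 := by
    rw [hθ]
    exact Real.rpow_lt_one (by norm_num) (by norm_num) (by positivity)
  obtain ⟨p₀, hp₀⟩ := asymp s m θ hθ0 hθ1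
  refine ⟨p₀, fun p hp hdec => ?_⟩
  let Cd := Fin p → Fin s → Fin p × Fin (2 * m + 1)
  let Sm : Cd → Fin p → Fin p → ℝ := fun τ j i => (dec m τ j i : ℝ) / Q
  let cond : (Cd × Cd × Cd) → Finset (Fin p) → Prop := fun t B =>
    (∀ j ∈ B, ∀ j' ∈ B, j ≠ j' → Disjoint (UU (Sm t.1) j) (UU (Sm t.1) j')) ∧
      (∀ j ∈ B, 0 < rr (Sm t.1) j) ∧ β * p ≤ χ * B.card
  let E : (Cd × Cd × Cd) → Finset (Fin p) → Finset (Fin p × Fin p → Bool) := fun t B =>
    univ.filter (fun ω => ∀ j ∈ B, ∑ a, RR (Sm t.1) (Sm t.2.1) (Sm t.2.2) ω j a ^ 2 ≤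
      3 / 10 * p * rr (Sm t.1) j)
  have hsub : univ.filter (fun ω : Fin p × Fin p → Bool => Bad s L m Q β ω) ⊆
      (univ : Finset (Cd × Cd × Cd)).biUnion (fun t =>
        ((univ : Finset (Finset (Fin p))).filter (fun B => cond t B)).biUnion (fun B => E t B)) := by
    intro ω hω
    obtain ⟨z₁, z₂, z₃, h1, h2, h3, h4⟩ := (Finset.mem_filter.1 hω).2
    obtain ⟨τ₁, hτ₁⟩ := dec_surj z₁ h1.1 h1.2
    obtain ⟨τ₂, hτ₂⟩ := dec_surj z₂ h2.1 h2.2
    obtain ⟨τ₃, hτ₃⟩ := dec_surj z₃ h3.1 h3.2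
    have e1 : Sm τ₁ = fun j i => (z₁ j i : ℝ) / Q := by
      funext j i; simp only [Sm, hτ₁]
    have e2 : Sm τ₂ = fun j i => (z₂ j i : ℝ) / Q := by
      funext j i; simp only [Sm, hτ₂]
    have e3 : Sm τ₃ = fun j i => (z₃ j i : ℝ) / Q := by
      funext j i; simp only [Sm, hτ₃]
    rw [← e1, ← e2, ← e3] at h4
    have hs : ∀ i, (univ.filter (fun j => Sm τ₁ j i ≠ 0)).card ≤ s := by
      intro i
      refine le_trans (Finset.card_le_card ?_) (h1.1 i)
      intro j hj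
      simp only [Finset.mem_filter, Finset.mem_univ, true_and, e1] at hj ⊢
      intro h0
      rw [h0] at hj
      simp at hj
    obtain ⟨B, hB1, hB2, hB3⟩ := greedy (Sm τ₁) s L hs (fails (Sm τ₁) (Sm τ₂) (Sm τ₃) L ω)
      (fun j hj => (mem_fails.1 hj).1)
    rw [Finset.mem_biUnion]
    refine ⟨(τ₁, τ₂, τ₃), Finset.mem_univ _, ?_⟩
    rw [Finset.mem_biUnion]
    refine ⟨B, ?_, ?_⟩
    · rw [Finset.mem_filter]
      refine ⟨Finset.mem_univ _, hB2, fun j hj => (mem_fails.1 (hB1 hj)).2.1, ?_⟩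
      have : ((fails (Sm τ₁) (Sm τ₂) (Sm τ₃) L ω).card : ℝ) ≤ χ * B.card := by
        rw [hχ]; exact_mod_cast hB3
      linarith
    · rw [Finset.mem_filter]
      exact ⟨Finset.mem_univ _, fun j hj => (mem_fails.1 (hB1 hj)).2.2⟩
  have hcardE : ∀ t B, cond t B → ((E t B).card : ℝ) ≤ θ ^ (p * p) * NN (Fin p × Fin p) := by
    intro t B hc
    refine (count_fail (Sm t.1) (Sm t.2.1) (Sm t.2.2) B hc.1 hc.2.1).trans ?_
    apply mul_le_mul_of_nonneg_right _ NN_pos.le
    rw [hθ, ← Real.rpow_natCast, ← Real.rpow_natCast, ← Real.rpow_mul (by norm_num)]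
    apply Real.rpow_le_rpow_of_exponent_ge (by norm_num) (by norm_num)
    push_cast
    have h5 := hc.2.2
    have h6 : β / χ * p ≤ B.card := by
      rw [div_mul_eq_mul_div, div_le_iff₀ hχ0]
      linarith
    have h7 : (0 : ℝ) ≤ p := by positivity
    nlinarith
  have h8 : ((univ.filter (fun ω : Fin p × Fin p → Bool => Bad s L m Q β ω)).card : ℝ) ≤
      ((((p * (2 * m + 1)) ^ s) ^ p : ℕ) : ℝ) ^ 3 * (2 ^ p * (θ ^ (p * p) * NN (Fin p × Fin p))) := by
    have h9 : ((univ.filter (fun ω : Fin p × Fin p → Bool => Bad s L m Q β ω)).card : ℝ) ≤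
        ∑ t : Cd × Cd × Cd, ∑ B ∈ (univ : Finset (Finset (Fin p))).filter (fun B => cond t B),
          ((E t B).card : ℝ) := by
      have := (Finset.card_le_card hsub).trans Finset.card_biUnion_le
      have h10 : ∀ t : Cd × Cd × Cd,
          ((((univ : Finset (Finset (Fin p))).filter (fun B => cond t B)).biUnion
            (fun B => E t B)).card : ℝ) ≤
          ∑ B ∈ (univ : Finset (Finset (Fin p))).filter (fun B => cond t B), ((E t B).card : ℝ) := by
        intro t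
        exact_mod_cast Finset.card_biUnion_le
      calc ((univ.filter (fun ω : Fin p × Fin p → Bool => Bad s L m Q β ω)).card : ℝ)
          ≤ ((∑ t : Cd × Cd × Cd, (((univ : Finset (Finset (Fin p))).filter
            (fun B => cond t B)).biUnion (fun B => E t B)).card : ℕ) : ℝ) := by exact_mod_cast this
        _ ≤ _ := by
            push_cast
            exact Finset.sum_le_sum (fun t _ => h10 t)
    refine h9.trans ?_
    have h11 : ∀ t : Cd × Cd × Cd,
        ∑ B ∈ (univ : Finset (Finset (Fin p))).filter (fun B => cond t B), ((E t B).card : ℝ) ≤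
          2 ^ p * (θ ^ (p * p) * NN (Fin p × Fin p)) := by
      intro t
      calc ∑ B ∈ (univ : Finset (Finset (Fin p))).filter (fun B => cond t B), ((E t B).card : ℝ)
          ≤ ∑ B ∈ (univ : Finset (Finset (Fin p))).filter (fun B => cond t B),
              θ ^ (p * p) * NN (Fin p × Fin p) :=
            Finset.sum_le_sum (fun B hB => hcardE t B (Finset.mem_filter.1 hB).2)
        _ ≤ ∑ B : Finset (Fin p), θ ^ (p * p) * NN (Fin p × Fin p) := by
            apply Finset.sum_le_sum_of_subset_of_nonneg (Finset.filter_subset _ _)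
            intro _ _ _
            exact mul_nonneg (by positivity) NN_pos.le
        _ = 2 ^ p * (θ ^ (p * p) * NN (Fin p × Fin p)) := by
            rw [Finset.sum_const, nsmul_eq_mul, Finset.card_univ, Fintype.card_finset,
              Fintype.card_fin]
            push_cast; rfl
    calc _ ≤ ∑ t : Cd × Cd × Cd, 2 ^ p * (θ ^ (p * p) * NN (Fin p × Fin p)) :=
          Finset.sum_le_sum (fun t _ => h11 t)
      _ = _ := by
          rw [Finset.sum_const, nsmul_eq_mul, Finset.card_univ, Fintype.card_prod,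
            Fintype.card_prod, card_codes]
          push_cast
          ring
  have h12 := hp₀ p hp
  calc 4 * ((univ.filter (fun ω : Fin p × Fin p → Bool => Bad s L m Q β ω)).card : ℝ)
      ≤ 4 * (((((p * (2 * m + 1)) ^ s) ^ p : ℕ) : ℝ) ^ 3 *
        (2 ^ p * (θ ^ (p * p) * NN (Fin p × Fin p)))) := by linarith
    _ = (4 * (((((p * (2 * m + 1)) ^ s) ^ p : ℕ) : ℝ) ^ 3 * 2 ^ p * θ ^ (p * p))) *
        NN (Fin p × Fin p) := by ring
    _ ≤ 1 * NN (Fin p × Fin p) := mul_le_mul_of_nonneg_right h12 NN_pos.le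
    _ = _ := one_mul _

end Pool.Agent.Helper14.SignRigidity
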