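import Mathlib
import Pool.Agent.Helper14.SignUnion

set_option autoImplicit false
set_option linter.unusedSectionVars false

/-! Rigidity of random sign matrices for column-sparse triples. -/

namespace Pool.Agent.Helper14.SignRigidity

open Finset

variable {p : ℕ}

/-- The rigidity property. -/
def Rigid (s L : ℕ) (M κ : ℝ) (σ : Fin p → Fin p → ℝ) : Prop :=
  ∀ S₁ S₂ S₃ : Fin p → Fin p → ℝ,
    (∀ i, (Finset.univ.filter (fun j => S₁ j i ≠ 0)).card ≤ s) →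
    (∀ i, (Finset.univ.filter (fun j => S₂ j i ≠ 0)).card ≤ s) →
    (∀ i, (Finset.univ.filter (fun j => S₃ j i ≠ 0)).card ≤ s) →
    (∀ j i, |S₁ j i| ≤ M) → (∀ j i, |S₂ j i| ≤ M) → (∀ j i, |S₃ j i| ≤ M) →
    ∑ j ∈ Finset.univ.filter (fun j => (Finset.univ.filter (fun i => S₁ j i ≠ 0)).card ≤ L),
      ∑ i ∈ Finset.univ.erase j, (S₁ j i) ^ 2 ≤
      200 * (1 / (p : ℝ)) * ∑ j, ∑ a,
        (∑ i, S₁ j i * σ i a - √p * S₂ j a - ∑ b, σ j b * S₃ b a) ^ 2 + κ * p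

/-- Truncation toward zero. -/
noncomputable def tz (x : ℝ) : ℤ := if 0 ≤ x then ⌊x⌋ else ⌈x⌉

theorem tz_zero : tz 0 = 0 := by simp [tz]

theorem abs_tz_le (x : ℝ) : |(tz x : ℝ)| ≤ |x| := by
  unfold tz
  split_ifs with h
  · rw [abs_of_nonneg h, abs_of_nonneg (by exact_mod_cast Int.floor_nonneg.2 h)]
    exact Int.floor_le x
  · push Not at h
    rw [abs_of_neg h, abs_of_nonpos (by exact_mod_cast Int.ceil_le.2 (by simpa using h.le))]
    exact neg_le_neg (Int.le_ceil x)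

theorem abs_sub_tz_le (x : ℝ) : |x - tz x| ≤ 1 := by
  unfold tz
  split_ifs with h
  · rw [abs_of_nonneg (by linarith [Int.floor_le x])]
    linarith [Int.lt_floor_add_one x]
  · rw [abs_of_nonpos (by linarith [Int.le_ceil x])]
    linarith [Int.ceil_lt_add_one x]

/-- The rounded matrix. -/
noncomputable def rd (Q : ℝ) (S : Fin p → Fin p → ℝ) (j i : Fin p) : ℝ := (tz (Q * S j i) : ℝ) / Q

theorem rd_zero {Q : ℝ} {S : Fin p → Fin p → ℝ} {j i : Fin p} (h : S j i = 0) : rd Q S j i = 0 := by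
  unfold rd; rw [h, mul_zero, tz_zero]; simp

theorem abs_rd_le {Q : ℝ} (hQ : 0 < Q) (S : Fin p → Fin p → ℝ) (j i : Fin p) :
    |rd Q S j i| ≤ |S j i| := by
  unfold rd
  rw [abs_div, abs_of_pos hQ, div_le_iff₀ hQ]
  calc _ ≤ |Q * S j i| := abs_tz_le _
    _ = |S j i| * Q := by rw [abs_mul, abs_of_pos hQ, mul_comm]

theorem abs_sub_rd_le {Q : ℝ} (hQ : 0 < Q) (S : Fin p → Fin p → ℝ) (j i : Fin p) :
    |S j i - rd Q S j i| ≤ if S j i ≠ 0 then 1 / Q else 0 := by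
  split_ifs with h
  · have h1 : S j i - rd Q S j i = (Q * S j i - tz (Q * S j i)) / Q := by
      unfold rd; field_simp
    rw [h1, abs_div, abs_of_pos hQ]
    exact div_le_div_of_nonneg_right (abs_sub_tz_le _) hQ.le
  · push Not at h
    rw [rd_zero h, h]; simp

theorem card_supp_rd (Q : ℝ) (S : Fin p → Fin p → ℝ) (s : ℕ)
    (h : ∀ i, (univ.filter (fun j => S j i ≠ 0)).card ≤ s) :
    ∀ i, (univ.filter (fun j => tz (Q * S j i) ≠ 0)).card ≤ s := by
  intro i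
  refine le_trans (Finset.card_le_card ?_) (h i)
  intro j hj
  simp only [Finset.mem_filter, Finset.mem_univ, true_and] at hj ⊢
  intro h0
  rw [h0, mul_zero, tz_zero] at hj
  exact hj rfl

theorem sum_ite_supp (S : Fin p → ℝ) (c : ℝ) (A : Finset (Fin p)) :
    ∑ i ∈ A, (if S i ≠ 0 then c else 0) = ((A.filter (fun i => S i ≠ 0)).card : ℝ) * c := by
  rw [← Finset.sum_filter, Finset.sum_const, nsmul_eq_mul]

theorem claim1 {Q : ℝ} (hQ : 0 < Q) (S : Fin p → Fin p → ℝ) (L : ℕ) (j : Fin p)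
    (hL : (univ.filter (fun i => S j i ≠ 0)).card ≤ L) :
    ∑ i ∈ univ.erase j, S j i ^ 2 ≤ 2 * rr (rd Q S) j + 2 * L / Q ^ 2 := by
  have h1 : ∀ i, S j i ^ 2 ≤ 2 * rd Q S j i ^ 2 + (if S j i ≠ 0 then 2 / Q ^ 2 else 0) := by
    intro i
    have h2 := abs_sub_rd_le hQ S j i
    split_ifs with h
    · rw [if_pos h] at h2
      have h3 : (S j i - rd Q S j i) ^ 2 ≤ (1 / Q) ^ 2 := sq_le_sq' (by linarith [abs_le.1 h2])
        (abs_le.1 h2).2
      have h4 : S j i ^ 2 ≤ 2 * rd Q S j i ^ 2 + 2 * (S j i - rd Q S j i) ^ 2 := by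
        nlinarith [sq_nonneg (rd Q S j i - (S j i - rd Q S j i))]
      have h5 : 2 * (1 / Q) ^ 2 = 2 / Q ^ 2 := by field_simp
      linarith
    · push Not at h
      have h0 : (0 : ℝ) ≤ rd Q S j i ^ 2 := sq_nonneg _
      rw [h]
      linarith
  calc ∑ i ∈ univ.erase j, S j i ^ 2
      ≤ ∑ i ∈ univ.erase j, (2 * rd Q S j i ^ 2 + (if S j i ≠ 0 then 2 / Q ^ 2 else 0)) :=
        Finset.sum_le_sum (fun i _ => h1 i)
    _ = 2 * rr (rd Q S) j + (((univ.erase j).filter (fun i => S j i ≠ 0)).card : ℝ) * (2 / Q ^ 2) := by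
        rw [Finset.sum_add_distrib, ← Finset.mul_sum, sum_ite_supp]
        rfl
    _ ≤ 2 * rr (rd Q S) j + L * (2 / Q ^ 2) := by
        have : (((univ.erase j).filter (fun i => S j i ≠ 0)).card : ℝ) ≤ L := by
          have h6 : ((univ.erase j).filter (fun i => S j i ≠ 0)).card ≤
              (univ.filter (fun i => S j i ≠ 0)).card := by
            apply Finset.card_le_card
            apply Finset.filter_subset_filter
            exact Finset.erase_subset _ _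
          exact_mod_cast h6.trans hL
        have h7 : (0 : ℝ) ≤ 2 / Q ^ 2 := by positivity
        linarith [mul_le_mul_of_nonneg_right this h7]
    _ = _ := by ring

theorem rr_le {Q M : ℝ} (hQ : 0 < Q) (S : Fin p → Fin p → ℝ) (L : ℕ) (j : Fin p)
    (hL : (univ.filter (fun i => S j i ≠ 0)).card ≤ L) (hM : ∀ j i, |S j i| ≤ M) :
    rr (rd Q S) j ≤ L * M ^ 2 := by
  have h1 : ∀ i, rd Q S j i ^ 2 ≤ (if S j i ≠ 0 then M ^ 2 else 0) := by
    intro i
    split_ifs with h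
    · have := (abs_rd_le hQ S j i).trans (hM j i)
      exact sq_le_sq' (by linarith [abs_le.1 this]) (abs_le.1 this).2
    · push Not at h
      rw [rd_zero h]; simp
  calc rr (rd Q S) j ≤ ∑ i ∈ univ.erase j, (if S j i ≠ 0 then M ^ 2 else 0) :=
        Finset.sum_le_sum (fun i _ => h1 i)
    _ = (((univ.erase j).filter (fun i => S j i ≠ 0)).card : ℝ) * M ^ 2 := sum_ite_supp _ _ _
    _ ≤ L * M ^ 2 := by
        have : (((univ.erase j).filter (fun i => S j i ≠ 0)).card : ℝ) ≤ L := by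
          have h6 : ((univ.erase j).filter (fun i => S j i ≠ 0)).card ≤
              (univ.filter (fun i => S j i ≠ 0)).card := by
            apply Finset.card_le_card
            apply Finset.filter_subset_filter
            exact Finset.erase_subset _ _
          exact_mod_cast h6.trans hL
        exact mul_le_mul_of_nonneg_right this (sq_nonneg _)

theorem delta_bound {Q : ℝ} (hQ : 0 < Q) (S₁ S₂ S₃ : Fin p → Fin p → ℝ) (s L : ℕ)
    (h3 : ∀ i, (univ.filter (fun j => S₃ j i ≠ 0)).card ≤ s) (ω : Fin p × Fin p → Bool)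
    (j a : Fin p) (hL : (univ.filter (fun i => S₁ j i ≠ 0)).card ≤ L) :
    (RR (rd Q S₁) (rd Q S₂) (rd Q S₃) ω j a) ^ 2 ≤ 2 * (RR S₁ S₂ S₃ ω j a) ^ 2 +
      6 * (L ^ 2 / Q ^ 2 + (if S₂ j a ≠ 0 then p / Q ^ 2 else 0) + s ^ 2 / Q ^ 2) := by
  obtain ⟨x, hx⟩ : ∃ x, x = ∑ i, (S₁ j i - rd Q S₁ j i) * sg (ω (i, a)) := ⟨_, rfl⟩
  obtain ⟨y, hy⟩ : ∃ y, y = √p * (S₂ j a - rd Q S₂ j a) := ⟨_, rfl⟩
  obtain ⟨z, hz⟩ : ∃ z, z = ∑ b, sg (ω (j, b)) * (S₃ b a - rd Q S₃ b a) := ⟨_, rfl⟩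
  have hdiff : RR S₁ S₂ S₃ ω j a - RR (rd Q S₁) (rd Q S₂) (rd Q S₃) ω j a = x - y - z := by
    rw [hx, hy, hz]
    unfold RR
    simp only [sub_mul, mul_sub, Finset.sum_sub_distrib]
    ring
  have hxb : |x| ≤ L / Q := by
    rw [hx]
    calc |∑ i, (S₁ j i - rd Q S₁ j i) * sg (ω (i, a))|
        ≤ ∑ i, |(S₁ j i - rd Q S₁ j i) * sg (ω (i, a))| := Finset.abs_sum_le_sum_abs _ _
      _ ≤ ∑ i, (if S₁ j i ≠ 0 then 1 / Q else 0) := by
          apply Finset.sum_le_sum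
          intro i _
          rw [abs_mul, abs_sg, mul_one]
          exact abs_sub_rd_le hQ S₁ j i
      _ = ((univ.filter (fun i => S₁ j i ≠ 0)).card : ℝ) * (1 / Q) := sum_ite_supp _ _ _
      _ ≤ L * (1 / Q) := mul_le_mul_of_nonneg_right (by exact_mod_cast hL) (by positivity)
      _ = L / Q := by ring
  have hzb : |z| ≤ s / Q := by
    rw [hz]
    calc |∑ b, sg (ω (j, b)) * (S₃ b a - rd Q S₃ b a)|
        ≤ ∑ b, |sg (ω (j, b)) * (S₃ b a - rd Q S₃ b a)| := Finset.abs_sum_le_sum_abs _ _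
      _ ≤ ∑ b, (if S₃ b a ≠ 0 then 1 / Q else 0) := by
          apply Finset.sum_le_sum
          intro b _
          rw [abs_mul, abs_sg, one_mul]
          exact abs_sub_rd_le hQ S₃ b a
      _ = ((univ.filter (fun b => S₃ b a ≠ 0)).card : ℝ) * (1 / Q) :=
          sum_ite_supp (fun b => S₃ b a) _ _
      _ ≤ s * (1 / Q) := mul_le_mul_of_nonneg_right (by exact_mod_cast h3 a) (by positivity)
      _ = s / Q := by ring
  have hyb : y ^ 2 ≤ if S₂ j a ≠ 0 then p / Q ^ 2 else 0 := by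
    rw [hy, mul_pow, Real.sq_sqrt (by positivity)]
    have h := abs_sub_rd_le hQ S₂ j a
    split_ifs with h0
    · rw [if_pos h0] at h
      have h4 : (S₂ j a - rd Q S₂ j a) ^ 2 ≤ (1 / Q) ^ 2 := sq_le_sq' (by linarith [abs_le.1 h])
        (abs_le.1 h).2
      calc (p : ℝ) * (S₂ j a - rd Q S₂ j a) ^ 2 ≤ p * (1 / Q) ^ 2 :=
            mul_le_mul_of_nonneg_left h4 (by positivity)
        _ = p / Q ^ 2 := by field_simp
    · push Not at h0
      rw [rd_zero h0, h0]; simp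
  have hx2 : x ^ 2 ≤ L ^ 2 / Q ^ 2 := by
    have := sq_le_sq' (by linarith [abs_le.1 hxb]) (abs_le.1 hxb).2
    rwa [div_pow] at this
  have hz2 : z ^ 2 ≤ s ^ 2 / Q ^ 2 := by
    have := sq_le_sq' (by linarith [abs_le.1 hzb]) (abs_le.1 hzb).2
    rwa [div_pow] at this
  have h5 : RR (rd Q S₁) (rd Q S₂) (rd Q S₃) ω j a = RR S₁ S₂ S₃ ω j a - (x - y - z) := by
    linarith
  rw [h5]
  have h6 : (x - y - z) ^ 2 ≤ 3 * (x ^ 2 + y ^ 2 + z ^ 2) := by
    nlinarith [sq_nonneg (x + y), sq_nonneg (x + z), sq_nonneg (y - z)]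
  have h7 : (RR S₁ S₂ S₃ ω j a - (x - y - z)) ^ 2 ≤
      2 * RR S₁ S₂ S₃ ω j a ^ 2 + 2 * (x - y - z) ^ 2 := by
    nlinarith [sq_nonneg (RR S₁ S₂ S₃ ω j a + (x - y - z))]
  linarith

/-- If `ω` is not bad then it is rigid. -/
theorem rigid_of_not_bad (s L m : ℕ) (M κ Q β : ℝ) (hp : 0 < p) (hQ : 0 < Q) (hM : 0 < M)
    (hm : Q * M ≤ m) (hβ : 2 * (L * M ^ 2) * β ≤ κ / 2)
    (hQ2 : (40 * ((L : ℝ) ^ 2 + s + s ^ 2) + 2 * L) / Q ^ 2 ≤ κ / 2)
    (ω : Fin p × Fin p → Bool) (hω : ¬ Bad s L m Q β ω) :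
    Rigid s L M κ (fun i j => sg (ω (i, j))) := by
  classical
  intro S₁ S₂ S₃ h1 h2 h3 b1 b2 b3
  have hp0 : (0 : ℝ) < p := by exact_mod_cast hp
  have adm : ∀ S : Fin p → Fin p → ℝ, (∀ i, (univ.filter (fun j => S j i ≠ 0)).card ≤ s) →
      (∀ j i, |S j i| ≤ M) → Adm s m (fun j i => tz (Q * S j i)) := by
    intro S hS hb
    refine ⟨card_supp_rd Q S s hS, fun j i => ?_⟩
    have h4 : |(tz (Q * S j i) : ℝ)| ≤ m := by
      refine (abs_tz_le _).trans ?_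
      rw [abs_mul, abs_of_pos hQ]
      exact (mul_le_mul_of_nonneg_left (hb j i) hQ.le).trans hm
    exact_mod_cast h4
  have hfail : ((fails (rd Q S₁) (rd Q S₂) (rd Q S₃) L ω).card : ℝ) < β * p := by
    by_contra hcon
    push Not at hcon
    exact hω ⟨_, _, _, adm S₁ h1 b1, adm S₂ h2 b2, adm S₃ h3 b3, hcon⟩
  obtain ⟨A, hA⟩ : ∃ A, A = Finset.univ.filter
    (fun j : Fin p => (Finset.univ.filter (fun i => S₁ j i ≠ 0)).card ≤ L) := ⟨_, rfl⟩
  have hAL : ∀ j ∈ A, (univ.filter (fun i => S₁ j i ≠ 0)).card ≤ L := by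
    intro j hj; rw [hA] at hj; exact (Finset.mem_filter.1 hj).2
  rw [← hA]
  have hRR : ∀ j a, (∑ i, S₁ j i * sg (ω (i, a)) - √p * S₂ j a - ∑ b, sg (ω (j, b)) * S₃ b a) ^ 2 =
      RR S₁ S₂ S₃ ω j a ^ 2 := fun _ _ => rfl
  simp only [hRR]
  -- row bound
  have row : ∀ j ∈ A, rr (rd Q S₁) j ≤ 10 / 3 * (1 / (p : ℝ)) *
      (∑ a, RR (rd Q S₁) (rd Q S₂) (rd Q S₃) ω j a ^ 2) +
      (if j ∈ fails (rd Q S₁) (rd Q S₂) (rd Q S₃) L ω then L * M ^ 2 else 0) := by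
    intro j hj
    have hD : 0 ≤ ∑ a, RR (rd Q S₁) (rd Q S₂) (rd Q S₃) ω j a ^ 2 :=
      Finset.sum_nonneg (fun _ _ => sq_nonneg _)
    split_ifs with hf
    · have := rr_le hQ S₁ L j (hAL j hj) b1
      have h4 : 0 ≤ 10 / 3 * (1 / (p : ℝ)) *
        (∑ a, RR (rd Q S₁) (rd Q S₂) (rd Q S₃) ω j a ^ 2) := by positivity
      linarith
    · by_cases hr : 0 < rr (rd Q S₁) j
      · have hl : (univ.filter (fun i => rd Q S₁ j i ≠ 0)).card ≤ L := by
          refine le_trans (Finset.card_le_card ?_) (hAL j hj)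
          intro i hi
          simp only [Finset.mem_filter, Finset.mem_univ, true_and] at hi ⊢
          intro h0
          exact hi (rd_zero h0)
        have h4 : 3 / 10 * p * rr (rd Q S₁) j <
            ∑ a, RR (rd Q S₁) (rd Q S₂) (rd Q S₃) ω j a ^ 2 := by
          by_contra hcon
          push Not at hcon
          exact hf (mem_fails.2 ⟨hl, hr, hcon⟩)
        have h5 : rr (rd Q S₁) j = 10 / 3 * (1 / (p : ℝ)) * (3 / 10 * p * rr (rd Q S₁) j) := by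
          field_simp
        rw [add_zero, h5]
        exact mul_le_mul_of_nonneg_left h4.le (by positivity)
      · push Not at hr
        have h4 : 0 ≤ 10 / 3 * (1 / (p : ℝ)) *
          (∑ a, RR (rd Q S₁) (rd Q S₂) (rd Q S₃) ω j a ^ 2) := by positivity
        linarith
  -- residual bound
  have resid : ∑ j ∈ A, ∑ a, RR (rd Q S₁) (rd Q S₂) (rd Q S₃) ω j a ^ 2 ≤
      2 * ∑ j, ∑ a, RR S₁ S₂ S₃ ω j a ^ 2 + 6 * (p ^ 2 * ((L ^ 2 + s + s ^ 2) / Q ^ 2)) := by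
    calc ∑ j ∈ A, ∑ a, RR (rd Q S₁) (rd Q S₂) (rd Q S₃) ω j a ^ 2
        ≤ ∑ j ∈ A, ∑ a, (2 * (RR S₁ S₂ S₃ ω j a) ^ 2 +
          6 * (L ^ 2 / Q ^ 2 + (if S₂ j a ≠ 0 then p / Q ^ 2 else 0) + s ^ 2 / Q ^ 2)) := by
          apply Finset.sum_le_sum
          intro j hj
          apply Finset.sum_le_sum
          intro a _
          exact delta_bound hQ S₁ S₂ S₃ s L h3 ω j a (hAL j hj)
      _ ≤ ∑ j, ∑ a, (2 * (RR S₁ S₂ S₃ ω j a) ^ 2 +
          6 * (L ^ 2 / Q ^ 2 + (if S₂ j a ≠ 0 then p / Q ^ 2 else 0) + s ^ 2 / Q ^ 2)) := by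
          apply Finset.sum_le_sum_of_subset_of_nonneg (Finset.subset_univ _)
          intro j _ _
          apply Finset.sum_nonneg
          intro a _
          have : (0 : ℝ) ≤ if S₂ j a ≠ 0 then p / Q ^ 2 else 0 := by split_ifs <;> positivity
          positivity
      _ = 2 * ∑ j, ∑ a, RR S₁ S₂ S₃ ω j a ^ 2 + 6 * (p ^ 2 * (L ^ 2 / Q ^ 2) +
            ∑ a : Fin p, ∑ j : Fin p, (if S₂ j a ≠ 0 then p / Q ^ 2 else 0) +
            p ^ 2 * (s ^ 2 / Q ^ 2)) := by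
          rw [Finset.sum_comm (f := fun a j : Fin p => if S₂ j a ≠ 0 then (p : ℝ) / Q ^ 2 else 0)]
          simp only [Finset.sum_add_distrib, ← Finset.mul_sum, Finset.sum_const, Finset.card_univ,
            Fintype.card_fin, nsmul_eq_mul]
          ring
      _ ≤ 2 * ∑ j, ∑ a, RR S₁ S₂ S₃ ω j a ^ 2 + 6 * (p ^ 2 * (L ^ 2 / Q ^ 2) +
            ∑ a : Fin p, (s : ℝ) * (p / Q ^ 2) + p ^ 2 * (s ^ 2 / Q ^ 2)) := by
          have h4 : ∑ a : Fin p, ∑ j : Fin p, (if S₂ j a ≠ 0 then (p : ℝ) / Q ^ 2 else 0) ≤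
              ∑ a : Fin p, (s : ℝ) * (p / Q ^ 2) := by
            apply Finset.sum_le_sum
            intro a _
            rw [sum_ite_supp (fun j => S₂ j a)]
            exact mul_le_mul_of_nonneg_right (by exact_mod_cast h2 a) (by positivity)
          linarith
      _ = _ := by
          rw [Finset.sum_const, Finset.card_univ, Fintype.card_fin, nsmul_eq_mul]
          ring
  have hsumfail : ∑ j ∈ A, (if j ∈ fails (rd Q S₁) (rd Q S₂) (rd Q S₃) L ω then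
      (L : ℝ) * M ^ 2 else 0) ≤ (L * M ^ 2) * (β * p) := by
    rw [← Finset.sum_filter, Finset.sum_const, nsmul_eq_mul]
    have h4 : ((A.filter (fun j => j ∈ fails (rd Q S₁) (rd Q S₂) (rd Q S₃) L ω)).card : ℝ) ≤
        β * p := by
      refine le_trans ?_ hfail.le
      have : A.filter (fun j => j ∈ fails (rd Q S₁) (rd Q S₂) (rd Q S₃) L ω) ⊆
          fails (rd Q S₁) (rd Q S₂) (rd Q S₃) L ω := by
        intro j hj
        exact (Finset.mem_filter.1 hj).2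
      exact_mod_cast Finset.card_le_card this
    calc _ ≤ (β * p) * ((L : ℝ) * M ^ 2) := mul_le_mul_of_nonneg_right h4 (by positivity)
      _ = _ := by ring
  have hAc : (A.card : ℝ) ≤ p := by
    have := Finset.card_le_univ A
    rw [Fintype.card_fin] at this
    exact_mod_cast this
  have hE : 0 ≤ ∑ j, ∑ a, RR S₁ S₂ S₃ ω j a ^ 2 :=
    Finset.sum_nonneg (fun _ _ => Finset.sum_nonneg (fun _ _ => sq_nonneg _))
  calc ∑ j ∈ A, ∑ i ∈ univ.erase j, S₁ j i ^ 2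
      ≤ ∑ j ∈ A, (2 * rr (rd Q S₁) j + 2 * L / Q ^ 2) :=
        Finset.sum_le_sum (fun j hj => claim1 hQ S₁ L j (hAL j hj))
    _ ≤ ∑ j ∈ A, (2 * (10 / 3 * (1 / (p : ℝ)) *
          (∑ a, RR (rd Q S₁) (rd Q S₂) (rd Q S₃) ω j a ^ 2) +
          (if j ∈ fails (rd Q S₁) (rd Q S₂) (rd Q S₃) L ω then L * M ^ 2 else 0)) +
          2 * L / Q ^ 2) := by
        apply Finset.sum_le_sum
        intro j hj
        have := row j hj
        linarith
    _ = 20 / 3 * (1 / (p : ℝ)) * (∑ j ∈ A, ∑ a, RR (rd Q S₁) (rd Q S₂) (rd Q S₃) ω j a ^ 2) +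
          2 * (∑ j ∈ A, (if j ∈ fails (rd Q S₁) (rd Q S₂) (rd Q S₃) L ω then
            (L : ℝ) * M ^ 2 else 0)) + A.card * (2 * L / Q ^ 2) := by
        simp only [Finset.sum_add_distrib, ← Finset.mul_sum, Finset.sum_const, nsmul_eq_mul]
        ring
    _ ≤ 20 / 3 * (1 / (p : ℝ)) * (2 * ∑ j, ∑ a, RR S₁ S₂ S₃ ω j a ^ 2 +
          6 * (p ^ 2 * ((L ^ 2 + s + s ^ 2) / Q ^ 2))) +
          2 * ((L * M ^ 2) * (β * p)) + p * (2 * L / Q ^ 2) := by
        have e1 := mul_le_mul_of_nonneg_left resid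
          (by positivity : (0 : ℝ) ≤ 20 / 3 * (1 / (p : ℝ)))
        have e2 := mul_le_mul_of_nonneg_right hAc (by positivity : (0 : ℝ) ≤ 2 * L / Q ^ 2)
        linarith
    _ = 40 / 3 * (1 / (p : ℝ)) * (∑ j, ∑ a, RR S₁ S₂ S₃ ω j a ^ 2) +
          p * ((40 * ((L : ℝ) ^ 2 + s + s ^ 2) + 2 * L) / Q ^ 2) +
          p * (2 * (L * M ^ 2) * β) := by
        field_simp
        ring
    _ ≤ 200 * (1 / (p : ℝ)) * (∑ j, ∑ a, RR S₁ S₂ S₃ ω j a ^ 2) + κ * p := by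
        have e1 := mul_le_mul_of_nonneg_left hQ2 hp0.le
        have e2 := mul_le_mul_of_nonneg_left hβ hp0.le
        have e3 : 0 ≤ (1 / (p : ℝ)) * (∑ j, ∑ a, RR S₁ S₂ S₃ ω j a ^ 2) := by positivity
        linarith

theorem sg_eq (b : Bool) : sg b = if b then (1 : ℝ) else -1 := rfl

theorem card_not_rigid_le {p : ℕ} (s L m : ℕ) (M κ Q β : ℝ) (P : (Fin p → Fin p → Bool) → Prop)
    [DecidablePred P] [DecidablePred (fun ω : Fin p × Fin p → Bool => Bad s L m Q β ω)]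
    (h : ∀ ω : Fin p → Fin p → Bool, P ω → Bad s L m Q β (fun x => ω x.1 x.2)) :
    (Finset.univ.filter P).card ≤
      (univ.filter (fun ω : Fin p × Fin p → Bool => Bad s L m Q β ω)).card := by
  apply Finset.card_le_card_of_injOn (fun (ω : Fin p → Fin p → Bool) (x : Fin p × Fin p) => ω x.1 x.2)
  · intro ω hω
    rw [Finset.mem_coe, Finset.mem_filter] at hω
    rw [Finset.mem_coe, Finset.mem_filter]
    exact ⟨Finset.mem_univ _, h ω hω.2⟩
  · intro ω _ ω' _ h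
    funext i j
    exact congrFun h (i, j)

/-- At least three quarters of the sign matrices are rigid. -/
theorem rigid_card (s L : ℕ) (M κ : ℝ) (hM : 0 < M) (hκ : 0 < κ) :
    ∃ p₀ : ℕ, ∀ p ≥ p₀,
      ∀ _ : DecidablePred (fun ω : Fin p → Fin p → Bool =>
        ¬ Rigid s L M κ (fun i j => if ω i j then (1 : ℝ) else -1)),
      4 * (Finset.univ.filter (fun ω : Fin p → Fin p → Bool =>
        ¬ Rigid s L M κ (fun i j => if ω i j then (1 : ℝ) else -1))).card ≤ 2 ^ (p * p) := by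
  classical
  obtain ⟨Q, hQd⟩ : ∃ Q : ℝ, Q = 1 + 2 * (40 * ((L : ℝ) ^ 2 + s + s ^ 2) + 2 * L) / κ := ⟨_, rfl⟩
  have hQ1 : 1 ≤ Q := by
    rw [hQd]
    have : 0 ≤ 2 * (40 * ((L : ℝ) ^ 2 + s + s ^ 2) + 2 * L) / κ := by positivity
    linarith
  have hQ : 0 < Q := by linarith
  have hQ2 : (40 * ((L : ℝ) ^ 2 + s + s ^ 2) + 2 * L) / Q ^ 2 ≤ κ / 2 := by
    rw [div_le_iff₀ (by positivity)]
    have h1 : κ / 2 * Q ≤ κ / 2 * Q ^ 2 := by
      apply mul_le_mul_of_nonneg_left _ (by positivity)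
      nlinarith
    have h2 : κ / 2 * Q = κ / 2 + (40 * ((L : ℝ) ^ 2 + s + s ^ 2) + 2 * L) := by
      rw [hQd]; field_simp
    linarith
  obtain ⟨β, hβd⟩ : ∃ β : ℝ, β = κ / (4 * (L + 1) * (M ^ 2 + 1)) := ⟨_, rfl⟩
  have hβ0 : 0 < β := by rw [hβd]; positivity
  have hβ : 2 * (L * M ^ 2) * β ≤ κ / 2 := by
    rw [hβd]
    have h1 : (L : ℝ) * M ^ 2 ≤ (L + 1) * (M ^ 2 + 1) := by nlinarith [sq_nonneg M]
    have h2 : 2 * (L * M ^ 2) * (κ / (4 * (L + 1) * (M ^ 2 + 1))) =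
        κ / 2 * ((L * M ^ 2) / ((L + 1) * (M ^ 2 + 1))) := by
      field_simp
      ring
    rw [h2]
    have h3 : ((L : ℝ) * M ^ 2) / ((L + 1) * (M ^ 2 + 1)) ≤ 1 := by
      rw [div_le_one (by positivity)]; exact h1
    calc κ / 2 * ((L * M ^ 2) / ((L + 1) * (M ^ 2 + 1))) ≤ κ / 2 * 1 :=
          mul_le_mul_of_nonneg_left h3 (by positivity)
      _ = _ := by ring
  obtain ⟨m, hm⟩ : ∃ m : ℕ, m = ⌈Q * M⌉₊ := ⟨_, rfl⟩
  have hm' : Q * M ≤ m := by rw [hm]; exact Nat.le_ceil _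
  obtain ⟨p₀, hp₀⟩ := union_bound s L m Q β hβ0
  refine ⟨max p₀ 1, fun p hp hdec => ?_⟩
  have hp1 : 0 < p := lt_of_lt_of_le Nat.zero_lt_one ((le_max_right _ _).trans hp)
  have h1 := hp₀ p ((le_max_left _ _).trans hp) (Classical.decPred _)
  rw [NN_eq, Fintype.card_prod, Fintype.card_fin] at h1
  have h2 := @card_not_rigid_le p s L m M κ Q β
    (fun ω => ¬ Rigid s L M κ (fun i j => if ω i j then (1 : ℝ) else -1)) hdec
    (Classical.decPred _) (by
      intro ω hω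
      by_contra hcon
      apply hω
      have := rigid_of_not_bad s L m M κ Q β hp1 hQ hM hm' hβ hQ2 _ hcon
      simp only [sg_eq] at this
      exact this)
  have h3 : (4 : ℝ) * ((Finset.univ.filter (fun ω : Fin p → Fin p → Bool =>
        ¬ Rigid s L M κ (fun i j => if ω i j then (1 : ℝ) else -1))).card : ℝ) ≤ 2 ^ (p * p) := by
    refine le_trans ?_ h1
    have := (Nat.cast_le (α := ℝ)).2 h2
    linarith
  exact_mod_cast h3

end Pool.Agent.Helper14.SignRigidity
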