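import Mathlib
import Pool.Agent.Helper14.SignRigidity
import Pool.Agent.Helper64.SignNorm

set_option autoImplicit false

/-! Existence of sign matrices with small operator norm and rigidity. -/

namespace Pool.Agent.Helper14.SignRigidity

open Finset

theorem exists_good_signs (s L : ℕ) (M κ : ℝ) (hM : 0 < M) (hκ : 0 < κ) :
    ∃ p₀ : ℕ, ∀ p ≥ p₀, ∃ ω : Fin p → Fin p → ℝ, (∀ i j, ω i j = 1 ∨ ω i j = -1) ∧
      (∀ u v : Fin p → ℝ, (∑ i, ∑ j, u i * ω i j * v j) ^ 2 ≤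
        144 * p * (∑ i, u i ^ 2) * (∑ j, v j ^ 2)) ∧
      (∀ S₁ S₂ S₃ : Fin p → Fin p → ℝ,
        (∀ i, (Finset.univ.filter (fun j => S₁ j i ≠ 0)).card ≤ s) →
        (∀ i, (Finset.univ.filter (fun j => S₂ j i ≠ 0)).card ≤ s) →
        (∀ i, (Finset.univ.filter (fun j => S₃ j i ≠ 0)).card ≤ s) →
        (∀ j i, |S₁ j i| ≤ M) → (∀ j i, |S₂ j i| ≤ M) → (∀ j i, |S₃ j i| ≤ M) →
        ∑ j ∈ Finset.univ.filter (fun j => (Finset.univ.filter (fun i => S₁ j i ≠ 0)).card ≤ L),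
          ∑ i ∈ Finset.univ.erase j, (S₁ j i) ^ 2 ≤
          200 * (1 / (p : ℝ)) * ∑ j, ∑ a,
            (∑ i, S₁ j i * ω i a - √p * S₂ j a - ∑ b, ω j b * S₃ b a) ^ 2 + κ * p) := by
  classical
  obtain ⟨p₀, hp₀⟩ := rigid_card s L M κ hM hκ
  refine ⟨max p₀ 2, fun p hp => ?_⟩
  have h1 := hp₀ p ((le_max_left _ _).trans hp) (Classical.decPred _)
  have h2 := Pool.Agent.Helper64.SignNorm.sign_norm' p ((le_max_right _ _).trans hp)
  obtain ⟨P1, hP1⟩ : ∃ P1 : (Fin p → Fin p → Bool) → Prop, P1 = fun w =>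
    Rigid s L M κ (fun i j => if w i j then (1 : ℝ) else -1) := ⟨_, rfl⟩
  obtain ⟨P2, hP2⟩ : ∃ P2 : (Fin p → Fin p → Bool) → Prop, P2 = fun w =>
    ∀ u v : Fin p → ℝ, (∑ i, ∑ j, u i * (if w i j then (1 : ℝ) else -1) * v j) ^ 2 ≤
      144 * p * (∑ i, (u i) ^ 2) * ∑ j, (v j) ^ 2 := ⟨_, rfl⟩
  have h1' : 4 * (univ.filter (fun w => ¬ P1 w)).card ≤ 2 ^ (p * p) := by
    rw [hP1]; convert h1
  have h2' : 4 * (univ.filter (fun w => ¬ P2 w)).card ≤ 2 ^ (p * p) := by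
    rw [hP2]; convert h2
  have hex : ∃ w, P1 w ∧ P2 w := by
    by_contra hcon
    push Not at hcon
    have hcov : (univ : Finset (Fin p → Fin p → Bool)) ⊆
        univ.filter (fun w => ¬ P1 w) ∪ univ.filter (fun w => ¬ P2 w) := by
      intro w _
      rw [Finset.mem_union, Finset.mem_filter, Finset.mem_filter]
      by_cases h : P1 w
      · exact Or.inr ⟨Finset.mem_univ _, hcon w h⟩
      · exact Or.inl ⟨Finset.mem_univ _, h⟩
    have h3 := (Finset.card_le_card hcov).trans (Finset.card_union_le _ _)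
    rw [Finset.card_univ] at h3
    have h4 : Fintype.card (Fin p → Fin p → Bool) = 2 ^ (p * p) := by
      simp [pow_mul]
    rw [h4] at h3
    have h5 : 0 < 2 ^ (p * p) := by positivity
    omega
  obtain ⟨w, hw1, hw2⟩ := hex
  rw [hP1] at hw1
  rw [hP2] at hw2
  refine ⟨fun i j => if w i j then (1 : ℝ) else -1, ?_, hw2, hw1⟩
  intro i j
  cases h : w i j
  · right; simp [h]
  · left; simp [h]

end Pool.Agent.Helper14.SignRigidity
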