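import Mathlib
import Pool.Agent.Helper14.MarkovBase

/-!
# A mixed uniqueness criterion for Markov numbers

If a Markov number `c` is the largest entry of two different ordered Markov triples, then the
odd part of `c` has a coprime factorisation `M * N` with `M < N` and `3 c < M ^ 4` such that the
odd part of `3c - 2` and the odd part of `3c + 2` both factor into two coprime factors which are
less than `2 M ^ 2` (less than `M ^ 2` when `c` is even).
-/

set_option autoImplicit false

namespace Pool.Agent.Helper14.MarkovMixedCriterion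

open Pool.Agent.Helper14.MarkovBase

lemma split_one (D X Y : ℕ) (hdvd : D ∣ X * Y)
    (hcop : ∀ p : ℕ, p.Prime → p ∣ D → p ∣ X → ¬ p ∣ Y) :
    ∃ d e : ℕ, d * e = D ∧ d.Coprime e ∧ d ∣ X ∧ e ∣ Y := by
  have hc : (Nat.gcd D X).Coprime (Nat.gcd D Y) := by
    rw [Nat.coprime_iff_gcd_eq_one]
    by_contra hne
    obtain ⟨p, hp, hpd⟩ := Nat.exists_prime_and_dvd hne
    have h1 := dvd_trans hpd (Nat.gcd_dvd_left _ _)
    have h2 := dvd_trans hpd (Nat.gcd_dvd_right _ _)
    exact hcop p hp (dvd_trans h1 (Nat.gcd_dvd_left _ _)) (dvd_trans h1 (Nat.gcd_dvd_right _ _))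
      (dvd_trans h2 (Nat.gcd_dvd_right _ _))
  refine ⟨Nat.gcd D X, Nat.gcd D Y, ?_, hc, Nat.gcd_dvd_right _ _, Nat.gcd_dvd_right _ _⟩
  apply Nat.dvd_antisymm
  · exact Nat.Coprime.mul_dvd_of_dvd_of_dvd hc (Nat.gcd_dvd_left _ _) (Nat.gcd_dvd_left _ _)
  · calc D = Nat.gcd D (X * Y) := (Nat.gcd_eq_left hdvd).symm
      _ ∣ Nat.gcd D X * Nat.gcd D Y := Nat.gcd_mul_right_dvd_mul_gcd D X Y

/-- The core step: from `(M² - s)(M² + s) = (3c ∓ 2) T` with `|s| < M²`, `M ∣ c`. -/
lemma core (κ M s T c D F g : ℤ) (hκ : κ = 1 ∨ κ = 2) (hMc : M ∣ c)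
    (hs : |s| < M ^ 2) (hF : F = 3 * c - 2 ∨ F = 3 * c + 2)
    (hfac : (M ^ 2 - s) * (M ^ 2 + s) = F * T) (hD : Odd D) (hD0 : 0 < D) (hFD : F = g * D)
    (hpar : κ = 2 → Odd s) (hModd : Odd M) :
    ∃ d e : ℕ, d * e = D.toNat ∧ d.Coprime e ∧ κ * (max d e : ℕ) < 2 * M ^ 2 := by
  have hs1 := (abs_lt.mp hs).1
  have hs2 := (abs_lt.mp hs).2
  have hX : 0 < M ^ 2 - s := by linarith
  have hY : 0 < M ^ 2 + s := by linarith
  have κpos : 0 < κ := by rcases hκ with rfl | rfl <;> norm_num
  -- D divides the product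
  have hDdvd : D ∣ (M ^ 2 - s) * (M ^ 2 + s) := by
    rw [hfac, hFD]; exact ⟨g * T, by ring⟩
  obtain ⟨d, e, hde, hcop, hdX, heY⟩ := split_one D.toNat (M ^ 2 - s).toNat (M ^ 2 + s).toNat (by
      have h1 : ((D.toNat : ℕ) : ℤ) ∣ (((M ^ 2 - s).toNat * (M ^ 2 + s).toNat : ℕ) : ℤ) := by
        push_cast
        rw [Int.toNat_of_nonneg hD0.le, Int.toNat_of_nonneg hX.le, Int.toNat_of_nonneg hY.le]
        exact hDdvd
      exact Int.natCast_dvd_natCast.mp h1) (by
      intro p hp hpD hpX hpY
      have hpp : Prime (p : ℤ) := Nat.prime_iff_prime_int.mp hp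
      have h1 : (p : ℤ) ∣ D := by
        have := Int.natCast_dvd_natCast.mpr hpD
        rwa [Int.toNat_of_nonneg hD0.le] at this
      have h2 : (p : ℤ) ∣ M ^ 2 - s := by
        have := Int.natCast_dvd_natCast.mpr hpX
        rwa [Int.toNat_of_nonneg hX.le] at this
      have h3 : (p : ℤ) ∣ M ^ 2 + s := by
        have := Int.natCast_dvd_natCast.mpr hpY
        rwa [Int.toNat_of_nonneg hY.le] at this
      have hp2 : ¬ (p : ℤ) ∣ 2 := by
        intro h4
        have h5 : p ∣ 2 := by exact_mod_cast h4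
        have h6 := (Nat.prime_dvd_prime_iff_eq hp Nat.prime_two).mp h5
        subst h6
        obtain ⟨t, ht⟩ := hD
        have : (2 : ℤ) ∣ D := by exact_mod_cast h1
        omega
      have h4 : (p : ℤ) ∣ 2 * M ^ 2 := by
        have : 2 * M ^ 2 = (M ^ 2 - s) + (M ^ 2 + s) := by ring
        rw [this]; exact dvd_add h2 h3
      have h5 : (p : ℤ) ∣ M := hpp.dvd_of_dvd_pow ((hpp.dvd_or_dvd h4).resolve_left hp2)
      have h6 : (p : ℤ) ∣ c := dvd_trans h5 hMc
      have h7 : (p : ℤ) ∣ F := by rw [hFD]; exact Dvd.dvd.mul_left h1 _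
      rcases hF with hF | hF
      · apply hp2
        have : (2 : ℤ) = 3 * c - F := by rw [hF]; ring
        rw [this]
        exact dvd_sub (Dvd.dvd.mul_left h6 _) h7
      · apply hp2
        have : (2 : ℤ) = F - 3 * c := by rw [hF]; ring
        rw [this]
        exact dvd_sub h7 (Dvd.dvd.mul_left h6 _))
  refine ⟨d, e, hde, hcop, ?_⟩
  have hDodd : Odd D.toNat := by
    have : Odd ((D.toNat : ℕ) : ℤ) := by rwa [Int.toNat_of_nonneg hD0.le]
    exact_mod_cast this
  have hdodd : Odd d := (Nat.odd_mul.mp (hde ▸ hDodd)).1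
  have heodd : Odd e := (Nat.odd_mul.mp (hde ▸ hDodd)).2
  have hdX' : (d : ℤ) ∣ M ^ 2 - s := by
    have := Int.natCast_dvd_natCast.mpr hdX
    rwa [Int.toNat_of_nonneg hX.le] at this
  have heY' : (e : ℤ) ∣ M ^ 2 + s := by
    have := Int.natCast_dvd_natCast.mpr heY
    rwa [Int.toNat_of_nonneg hY.le] at this
  have key : ∀ (f : ℕ) (Z : ℤ), Odd f → (f : ℤ) ∣ Z → 0 < Z → Z < 2 * M ^ 2 →
      (κ = 2 → Even Z) → κ * f < 2 * M ^ 2 := by
    intro f Z hf hfZ hZ0 hZ hev
    rcases hκ with h | h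
    · subst h
      have := Int.le_of_dvd hZ0 hfZ
      linarith
    · have h2 := hev h
      subst h
      have hc : IsCoprime (2 : ℤ) f := by
        rw [Int.isCoprime_iff_gcd_eq_one]
        have : Nat.Coprime 2 f := (Nat.coprime_two_left).mpr hf
        exact this
      have h3 : (2 : ℤ) * f ∣ Z := hc.mul_dvd (even_iff_two_dvd.mp h2) hfZ
      have := Int.le_of_dvd hZ0 h3
      linarith
  have hM2 : Odd (M ^ 2) := hModd.pow
  have k1 : κ * (d : ℤ) < 2 * M ^ 2 := key d (M ^ 2 - s) hdodd hdX' hX (by linarith)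
    (fun h => (hM2.sub_odd (hpar h)))
  have k2 : κ * (e : ℤ) < 2 * M ^ 2 := key e (M ^ 2 + s) heodd heY' hY (by linarith)
    (fun h => (hM2.add_odd (hpar h)))
  rcases le_total d e with h | h
  · rw [max_eq_right h]; exact k2
  · rw [max_eq_left h]; exact k1

/-- **Mixed criterion.**  Let `c` be a natural number with odd part `m`, let `D₁`, `D₂` be the
odd parts of `3c - 2` and `3c + 2`.  Suppose that for every coprime factorisation `m = M N` with
`M < N` and `3c < M⁴`, at least one of `D₁`, `D₂` has no coprime factorisation into two factors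
which are both less than `2 M² / 2^h` (here `2^h` is the power of two dividing `c`).  Then `c` is
the largest entry of at most one ordered Markov triple. -/
theorem result (c m D₁ D₂ h i j : ℕ) (hm : Odd m) (hc : c = 2 ^ h * m)
    (hD₁ : Odd D₁) (h₁ : 3 * c = 2 ^ i * D₁ + 2) (hD₂ : Odd D₂) (h₂ : 3 * c + 2 = 2 ^ j * D₂)
    (hcrit : ∀ M N : ℕ, M * N = m → M.Coprime N → M < N → 3 * c < M ^ 4 →
      (∀ d e : ℕ, d * e = D₁ → d.Coprime e → 2 * M ^ 2 ≤ 2 ^ h * max d e) ∨
      (∀ d e : ℕ, d * e = D₂ → d.Coprime e → 2 * M ^ 2 ≤ 2 ^ h * max d e)) :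
    ∀ a b a' b' : ℕ,
      0 < a → a ≤ b → b ≤ c → a ^ 2 + b ^ 2 + c ^ 2 = 3 * a * b * c →
      0 < a' → a' ≤ b' → b' ≤ c → a' ^ 2 + b' ^ 2 + c ^ 2 = 3 * a' * b' * c →
      a = a' ∧ b = b' := by
  -- reduce to a contradiction from two different triples
  have main : ∀ a b a' b' : ℤ, MP c a b → MP c a' b' → b' < b → False := by
    intro a b a' b' hP hP' hb
    obtain ⟨κ, M, N, A, B, C, E, s⟩ := exists_split hP hP' hb
    have hcpos : (0 : ℤ) < c := hP.c_pos
    have hc0 : 0 < c := by exact_mod_cast hcpos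
    have hc1 : (1 : ℤ) ≤ c := hcpos
    -- h = 0 or 1 and κ = 2 ^ h, M N = m
    have hMN : κ = 2 ^ h ∧ M * N = m := by
      have hodd : Odd (M * N) := s.M_odd.mul s.N_odd
      have e1 : κ * (M * N) = 2 ^ h * (m : ℤ) := by
        have := s.prod
        rw [hc] at this
        push_cast at this
        rw [← this]; ring
      have hmz : Odd (m : ℤ) := by exact_mod_cast hm
      have hh : h = 0 ∨ h = 1 := by
        by_contra hcon
        have h2 : 2 ≤ h := by omega
        apply hP.not_four_dvd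
        rw [hc]
        push_cast
        have : (4 : ℤ) ∣ 2 ^ h := by
          have : (4 : ℤ) = 2 ^ 2 := by norm_num
          rw [this]
          exact pow_dvd_pow 2 h2
        exact Dvd.dvd.mul_right this _
      rcases hh with rfl | rfl
      · rcases s.kap with hk | hk
        · subst hk
          exact ⟨by norm_num, by simpa using e1⟩
        · subst hk
          exfalso
          obtain ⟨t, ht⟩ := hmz
          omega
      · rcases s.kap with hk | hk
        · subst hk
          exfalso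
          obtain ⟨t, ht⟩ := hodd
          omega
        · subst hk
          refine ⟨by norm_num, ?_⟩
          have : (2 : ℤ) * (M * N) = 2 * m := by simpa using e1
          linarith
    obtain ⟨hκ, hMN⟩ := hMN
    have hM1 : 1 < M := by
      by_contra hcon
      have h1 : M = 1 := by have := s.M_pos; omega
      have h2 := s.three_c_lt_M
      rw [h1] at h2
      have : 0 < A * B := mul_pos s.A_pos s.B_pos
      nlinarith
    have hN1 : 1 < N := by
      by_contra hcon
      have h1 : N = 1 := by have := s.N_pos; omega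
      have h2 := s.three_c_lt_N
      rw [h1] at h2
      have : 0 < C * E := mul_pos s.C_pos s.E_pos
      nlinarith
    -- parity of sums when c is even
    have parM : κ = 2 → Odd (A + B) ∧ Odd (A - B) := by
      intro hk
      have hq := s.quartM
      have hce : Even (3 * (c : ℤ) * A * B) := by
        rw [← s.prod, hk]
        exact ⟨3 * M * N * A * B, by ring⟩
      have hM4 : Odd (M ^ 4) := s.M_odd.pow
      have h3 : Odd (A ^ 2 + B ^ 2) := by
        have : A ^ 2 + B ^ 2 = M ^ 4 - 3 * c * A * B := by rw [hq]; ring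
        rw [this]; exact hM4.sub_even hce
      have h4 : Odd ((A + B) ^ 2) := by
        have : (A + B) ^ 2 = A ^ 2 + B ^ 2 + 2 * (A * B) := by ring
        rw [this]; exact h3.add_even (even_two_mul _)
      have h5 : Odd ((A - B) ^ 2) := by
        have : (A - B) ^ 2 = A ^ 2 + B ^ 2 - 2 * (A * B) := by ring
        rw [this]; exact h3.sub_even (even_two_mul _)
      exact ⟨Int.odd_pow' (two_ne_zero) |>.mp h4, Int.odd_pow' (two_ne_zero) |>.mp h5⟩
    have parN : κ = 2 → Odd (C + E) ∧ Odd (C - E) := by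
      intro hk
      have hq := s.quartN
      have hce : Even (3 * (c : ℤ) * C * E) := by
        rw [← s.prod, hk]
        exact ⟨3 * M * N * C * E, by ring⟩
      have hM4 : Odd (N ^ 4) := s.N_odd.pow
      have h3 : Odd (C ^ 2 + E ^ 2) := by
        have : C ^ 2 + E ^ 2 = N ^ 4 - 3 * c * C * E := by rw [hq]; ring
        rw [this]; exact hM4.sub_even hce
      have h4 : Odd ((C + E) ^ 2) := by
        have : (C + E) ^ 2 = C ^ 2 + E ^ 2 + 2 * (C * E) := by ring
        rw [this]; exact h3.add_even (even_two_mul _)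
      have h5 : Odd ((C - E) ^ 2) := by
        have : (C - E) ^ 2 = C ^ 2 + E ^ 2 - 2 * (C * E) := by ring
        rw [this]; exact h3.sub_even (even_two_mul _)
      exact ⟨Int.odd_pow' (two_ne_zero) |>.mp h4, Int.odd_pow' (two_ne_zero) |>.mp h5⟩
    have hD₁z : Odd (D₁ : ℤ) := by exact_mod_cast hD₁
    have hD₂z : Odd (D₂ : ℤ) := by exact_mod_cast hD₂
    have hD₁0 : (0 : ℤ) < D₁ := by exact_mod_cast hD₁.pos
    have hD₂0 : (0 : ℤ) < D₂ := by exact_mod_cast hD₂.pos
    have F1 : 3 * (c : ℤ) - 2 = 2 ^ i * D₁ := by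
      have : (3 * c : ℤ) = 2 ^ i * D₁ + 2 := by exact_mod_cast h₁
      linarith
    have F2 : 3 * (c : ℤ) + 2 = 2 ^ j * D₂ := by exact_mod_cast h₂
    -- the contradiction, given the smaller factor
    have fin : ∀ (K L s₁ T₁ s₂ T₂ : ℤ), K * L = m → IsCoprime K L → 1 < K → K < L →
        3 * (c : ℤ) < K ^ 4 → Odd K →
        K ∣ (c : ℤ) → |s₁| < K ^ 2 → |s₂| < K ^ 2 →
        (K ^ 2 - s₁) * (K ^ 2 + s₁) = (3 * (c : ℤ) - 2) * T₁ →
        (K ^ 2 - s₂) * (K ^ 2 + s₂) = (3 * (c : ℤ) + 2) * T₂ →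
        (κ = 2 → Odd s₁) → (κ = 2 → Odd s₂) → False := by
      intro K L s₁ T₁ s₂ T₂ hKL hcop hK1 hKL' hK4 hKodd hKc hs₁ hs₂ f1 f2 p1 p2
      have hK0 : 0 < K := by linarith
      have hL0 : 0 < L := by linarith
      have hcrit' := hcrit K.toNat L.toNat (by
          zify
          rw [Int.toNat_of_nonneg hK0.le, Int.toNat_of_nonneg hL0.le]; exact hKL) (by
          have : IsCoprime ((K.toNat : ℕ) : ℤ) ((L.toNat : ℕ) : ℤ) := by
            rw [Int.toNat_of_nonneg hK0.le, Int.toNat_of_nonneg hL0.le]; exact hcop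
          exact Nat.isCoprime_iff_coprime.mp this) (by omega) (by
          zify
          rw [Int.toNat_of_nonneg hK0.le]; exact hK4)
      rcases hcrit' with hcr | hcr
      · obtain ⟨d, e, hde, hcop', hlt⟩ := core κ K s₁ T₁ c D₁ (3 * c - 2) (2 ^ i) s.kap hKc hs₁
          (Or.inl rfl) f1 hD₁z hD₁0 F1 p1 hKodd
        have h3 := hcr d e (by rw [hde]; simp) hcop'
        have h4 : 2 * K ^ 2 ≤ κ * (max d e : ℕ) := by
          rw [hκ]
          have h5 : ((2 * K.toNat ^ 2 : ℕ) : ℤ) ≤ ((2 ^ h * max d e : ℕ) : ℤ) := by exact_mod_cast h3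
          push_cast at h5
          rw [Int.toNat_of_nonneg hK0.le] at h5
          push_cast
          exact h5
        linarith
      · obtain ⟨d, e, hde, hcop', hlt⟩ := core κ K s₂ T₂ c D₂ (3 * c + 2) (2 ^ j) s.kap hKc hs₂
          (Or.inr rfl) f2 hD₂z hD₂0 F2 p2 hKodd
        have h3 := hcr d e (by rw [hde]; simp) hcop'
        have h4 : 2 * K ^ 2 ≤ κ * (max d e : ℕ) := by
          rw [hκ]
          have h5 : ((2 * K.toNat ^ 2 : ℕ) : ℤ) ≤ ((2 ^ h * max d e : ℕ) : ℤ) := by exact_mod_cast h3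
          push_cast at h5
          rw [Int.toNat_of_nonneg hK0.le] at h5
          push_cast
          exact h5
        linarith
    have addM := s.add_lt_M
    have addN := s.add_lt_N
    have A0 := s.A_pos
    have B0 := s.B_pos
    have C0 := s.C_pos
    have E0 := s.E_pos
    have hM4 : 3 * (c : ℤ) < M ^ 4 := by
      have h2 := s.three_c_lt_M
      have : 1 ≤ A * B := mul_pos s.A_pos s.B_pos
      nlinarith
    have hN4 : 3 * (c : ℤ) < N ^ 4 := by
      have h2 := s.three_c_lt_N
      have : 1 ≤ C * E := mul_pos s.C_pos s.E_pos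
      nlinarith
    rcases lt_trichotomy M N with hlt | heq | hgt
    · exact fin M N (A + B) (A * B) (A - B) (A * B) hMN s.cop_MN hM1 hlt hM4 s.M_odd s.M_dvd_c
        (by rw [abs_lt]; constructor <;> linarith) (by rw [abs_lt]; constructor <;> linarith)
        s.facM1 s.facM2 (fun hk => (parM hk).1) (fun hk => (parM hk).2)
    · have h1 := s.cop_MN
      rw [heq] at h1
      have h2 := h1.isUnit_of_dvd' dvd_rfl dvd_rfl
      rcases Int.isUnit_iff.mp h2 with h3 | h3 <;> omega
    · exact fin N M (C + E) (C * E) (C - E) (C * E) (by rw [mul_comm]; exact hMN) s.cop_MN.symm hN1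
        hgt hN4 s.N_odd s.N_dvd_c
        (by rw [abs_lt]; constructor <;> linarith) (by rw [abs_lt]; constructor <;> linarith)
        s.facN1 s.facN2 (fun hk => (parN hk).1) (fun hk => (parN hk).2)
  intro a b a' b' ha hab hbc he ha' hab' hbc' he'
  have hP : MP c a b := by
    refine ⟨by exact_mod_cast ha, by exact_mod_cast hab, by exact_mod_cast hbc, ?_⟩
    exact_mod_cast he
  have hP' : MP c a' b' := by
    refine ⟨by exact_mod_cast ha', by exact_mod_cast hab', by exact_mod_cast hbc', ?_⟩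
    exact_mod_cast he'
  rcases lt_trichotomy (b : ℤ) b' with hlt | heq | hgt
  · exact (main a' b' a b hP' hP hlt).elim
  · have hbb : b = b' := by exact_mod_cast heq
    subst hbb
    have := eq_of_eq hP hP'
    exact ⟨by exact_mod_cast this, rfl⟩
  · exact (main a b a' b' hP hP' hgt).elim

end Pool.Agent.Helper14.MarkovMixedCriterion
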