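import Mathlib
import Pool.Agent.Helper14.MarkovBase

/-!
# A polynomial bound for the multiplicity of a Markov number

The number of ordered Markov triples with a given largest entry `c > 2` is at most `2 r ^ 2`,
where `r` is the number of odd primes dividing `c`.
-/

set_option autoImplicit false

namespace Pool.Agent.Helper14.MarkovMultiplicity

open Pool.Agent.Helper14.MarkovBase

/-- Gram matrix estimate: few sign vectors can have pairwise inner products in
`[-L/2, L/(2r)]`. -/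
lemma gram_bound {ι π : Type*} [DecidableEq ι] (F : Finset ι) (P : Finset π)
    (w : π → ℝ) (s : ι → π → ℝ) (L : ℝ) (hL : 0 < L) (hw : ∀ p ∈ P, 0 ≤ w p)
    (hsum : ∑ p ∈ P, w p = L)
    (hs : ∀ i ∈ F, ∀ p ∈ P, s i p ^ 2 = 1) (hP : 1 ≤ P.card)
    (hup : ∀ i ∈ F, ∀ j ∈ F, i ≠ j →
      ∑ p ∈ P, w p * (s i p * s j p) ≤ L / (2 * (P.card : ℝ)))
    (hlow : ∀ i ∈ F, ∀ j ∈ F, i ≠ j → -(L / 2) ≤ ∑ p ∈ P, w p * (s i p * s j p)) :
    F.card ≤ 2 * P.card := by
  classical
  obtain ⟨r, hr⟩ : ∃ r : ℝ, r = (P.card : ℝ) := ⟨_, rfl⟩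
  obtain ⟨K, hK⟩ : ∃ K : ℝ, K = (F.card : ℝ) := ⟨_, rfl⟩
  have hr1 : (1 : ℝ) ≤ r := by rw [hr]; exact_mod_cast hP
  obtain ⟨G, hG⟩ : ∃ G : ι → ι → ℝ, G = fun i j => ∑ p ∈ P, w p * (s i p * s j p) := ⟨_, rfl⟩
  -- diagonal
  have hdiag : ∀ i ∈ F, G i i = L := by
    intro i hi
    rw [hG]
    simp only
    rw [← hsum]
    apply Finset.sum_congr rfl
    intro p hp
    have := hs i hi p hp
    have : s i p * s i p = 1 := by nlinarith
    rw [this, mul_one]
  -- lower bound for sum of G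
  have hS1 : ∑ i ∈ F, ∑ j ∈ F, G i j = ∑ p ∈ P, w p * (∑ i ∈ F, s i p) ^ 2 := by
    simp only [hG]
    calc ∑ i ∈ F, ∑ j ∈ F, ∑ p ∈ P, w p * (s i p * s j p)
        = ∑ i ∈ F, ∑ p ∈ P, ∑ j ∈ F, w p * (s i p * s j p) := by
          apply Finset.sum_congr rfl; intro i _; rw [Finset.sum_comm]
      _ = ∑ p ∈ P, ∑ i ∈ F, ∑ j ∈ F, w p * (s i p * s j p) := by rw [Finset.sum_comm]
      _ = ∑ p ∈ P, w p * (∑ i ∈ F, s i p) ^ 2 := by
          apply Finset.sum_congr rfl; intro p _
          rw [pow_two, Finset.sum_mul_sum, Finset.mul_sum]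
          apply Finset.sum_congr rfl; intro i _
          rw [Finset.mul_sum]
  have hS1' : 0 ≤ ∑ i ∈ F, ∑ j ∈ F, G i j := by
    rw [hS1]
    exact Finset.sum_nonneg (fun p hp => mul_nonneg (hw p hp) (sq_nonneg _))
  have hS2 : ∑ i ∈ F, ∑ j ∈ F, (G i j) ^ 2
      = ∑ p ∈ P, ∑ q ∈ P, w p * w q * (∑ i ∈ F, s i p * s i q) ^ 2 := by
    simp only [hG]
    have e1 : ∀ i j, (∑ p ∈ P, w p * (s i p * s j p)) ^ 2
        = ∑ p ∈ P, ∑ q ∈ P, (w p * (s i p * s j p)) * (w q * (s i q * s j q)) := by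
      intro i j
      rw [pow_two, Finset.sum_mul_sum]
    simp_rw [e1]
    calc ∑ i ∈ F, ∑ j ∈ F, ∑ p ∈ P, ∑ q ∈ P, (w p * (s i p * s j p)) * (w q * (s i q * s j q))
        = ∑ i ∈ F, ∑ p ∈ P, ∑ j ∈ F, ∑ q ∈ P, (w p * (s i p * s j p)) * (w q * (s i q * s j q)) := by
          apply Finset.sum_congr rfl; intro i _; rw [Finset.sum_comm]
      _ = ∑ p ∈ P, ∑ i ∈ F, ∑ j ∈ F, ∑ q ∈ P, (w p * (s i p * s j p)) * (w q * (s i q * s j q)) := by
          rw [Finset.sum_comm]
      _ = ∑ p ∈ P, ∑ q ∈ P, w p * w q * (∑ i ∈ F, s i p * s i q) ^ 2 := by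
          apply Finset.sum_congr rfl; intro p _
          calc ∑ i ∈ F, ∑ j ∈ F, ∑ q ∈ P, (w p * (s i p * s j p)) * (w q * (s i q * s j q))
              = ∑ i ∈ F, ∑ q ∈ P, ∑ j ∈ F, (w p * (s i p * s j p)) * (w q * (s i q * s j q)) := by
                apply Finset.sum_congr rfl; intro i _; rw [Finset.sum_comm]
            _ = ∑ q ∈ P, ∑ i ∈ F, ∑ j ∈ F, (w p * (s i p * s j p)) * (w q * (s i q * s j q)) := by
                rw [Finset.sum_comm]
            _ = ∑ q ∈ P, w p * w q * (∑ i ∈ F, s i p * s i q) ^ 2 := by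
                apply Finset.sum_congr rfl; intro q _
                rw [pow_two, Finset.sum_mul_sum, Finset.mul_sum]
                apply Finset.sum_congr rfl; intro i _
                rw [Finset.mul_sum]
                apply Finset.sum_congr rfl; intro j _
                ring
  -- the diagonal p = q already gives K² Σ w²
  have hS3 : K ^ 2 * ∑ p ∈ P, (w p) ^ 2 ≤ ∑ i ∈ F, ∑ j ∈ F, (G i j) ^ 2 := by
    rw [hS2, Finset.mul_sum]
    apply Finset.sum_le_sum
    intro p hp
    have e1 : w p * w p * (∑ i ∈ F, s i p * s i p) ^ 2 = K ^ 2 * (w p) ^ 2 := by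
      have : ∑ i ∈ F, s i p * s i p = K := by
        rw [hK, Finset.card_eq_sum_ones]
        push_cast
        apply Finset.sum_congr rfl
        intro i hi
        have := hs i hi p hp
        nlinarith
      rw [this]; ring
    rw [← e1]
    exact Finset.single_le_sum (f := fun q => w p * w q * (∑ i ∈ F, s i p * s i q) ^ 2)
      (fun q hq => mul_nonneg (mul_nonneg (hw p hp) (hw q hq)) (sq_nonneg _)) hp
  have hCS : L ^ 2 ≤ r * ∑ p ∈ P, (w p) ^ 2 := by
    rw [← hsum, hr]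
    exact sq_sum_le_card_mul_sum_sq
  -- upper bound for the sum of G² + (L/2) G
  have hterm : ∀ i ∈ F, ∀ j ∈ F, (G i j) ^ 2 + (L / 2) * G i j ≤
      (if i = j then (3 / 2) * L ^ 2 else L ^ 2 * (1 + r) / (4 * r ^ 2)) := by
    intro i hi j hj
    split_ifs with hij
    · subst hij
      rw [hdiag i hi]; nlinarith
    · have h1 := hup i hi j hj hij
      have h2 := hlow i hi j hj hij
      have hg : G i j = ∑ p ∈ P, w p * (s i p * s j p) := by rw [hG]
      rw [← hg, ← hr] at h1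
      rw [← hg] at h2
      rcases le_total (G i j) 0 with h0 | h0
      · have h3 : (G i j) ^ 2 + (L / 2) * G i j ≤ 0 := by nlinarith
        have h4 : 0 ≤ L ^ 2 * (1 + r) / (4 * r ^ 2) := by positivity
        linarith
      · have h3 : (G i j) ^ 2 + (L / 2) * G i j ≤ (L / (2 * r)) ^ 2 + (L / 2) * (L / (2 * r)) := by
          have : (G i j) ^ 2 ≤ (L / (2 * r)) ^ 2 := by
            apply pow_le_pow_left₀ h0 h1
          have h5 : (L / 2) * G i j ≤ (L / 2) * (L / (2 * r)) := by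
            apply mul_le_mul_of_nonneg_left h1; positivity
          linarith
        have h4 : (L / (2 * r)) ^ 2 + (L / 2) * (L / (2 * r)) = L ^ 2 * (1 + r) / (4 * r ^ 2) := by
          field_simp
          norm_num
        linarith
  have hupper : ∑ i ∈ F, ∑ j ∈ F, ((G i j) ^ 2 + (L / 2) * G i j) ≤
      K * ((3 / 2) * L ^ 2) + K * (K - 1) * (L ^ 2 * (1 + r) / (4 * r ^ 2)) := by
    calc ∑ i ∈ F, ∑ j ∈ F, ((G i j) ^ 2 + (L / 2) * G i j)
        ≤ ∑ i ∈ F, ∑ j ∈ F, (if i = j then (3 / 2) * L ^ 2 else L ^ 2 * (1 + r) / (4 * r ^ 2)) := by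
          apply Finset.sum_le_sum; intro i hi
          apply Finset.sum_le_sum; intro j hj
          exact hterm i hi j hj
      _ = ∑ i ∈ F, ((3 / 2) * L ^ 2 + (K - 1) * (L ^ 2 * (1 + r) / (4 * r ^ 2))) := by
          apply Finset.sum_congr rfl
          intro i hi
          rw [← Finset.add_sum_erase F _ hi]
          simp only [if_true]
          congr 1
          have : ∀ j ∈ F.erase i, (if i = j then (3 / 2) * L ^ 2 else L ^ 2 * (1 + r) / (4 * r ^ 2))
              = L ^ 2 * (1 + r) / (4 * r ^ 2) := by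
            intro j hj
            rw [if_neg]
            exact fun h => (Finset.mem_erase.mp hj).1 h.symm
          rw [Finset.sum_congr rfl this, Finset.sum_const, Finset.card_erase_of_mem hi, nsmul_eq_mul]
          rw [Nat.cast_sub (Finset.card_pos.mpr ⟨i, hi⟩), hK]
          simp
      _ = K * ((3 / 2) * L ^ 2) + K * (K - 1) * (L ^ 2 * (1 + r) / (4 * r ^ 2)) := by
          rw [Finset.sum_const, nsmul_eq_mul, ← hK]; ring
  have hsplit : ∑ i ∈ F, ∑ j ∈ F, ((G i j) ^ 2 + (L / 2) * G i j)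
      = ∑ i ∈ F, ∑ j ∈ F, (G i j) ^ 2 + (L / 2) * ∑ i ∈ F, ∑ j ∈ F, G i j := by
    rw [Finset.mul_sum, ← Finset.sum_add_distrib]
    apply Finset.sum_congr rfl; intro i _
    rw [Finset.mul_sum, ← Finset.sum_add_distrib]
  have hfin : K ^ 2 * ∑ p ∈ P, (w p) ^ 2 ≤
      K * ((3 / 2) * L ^ 2) + K * (K - 1) * (L ^ 2 * (1 + r) / (4 * r ^ 2)) := by
    have : 0 ≤ (L / 2) * ∑ i ∈ F, ∑ j ∈ F, G i j := by positivity
    linarith
  -- conclude
  by_contra hcon
  push Not at hcon
  have hK2 : 2 * r + 1 ≤ K := by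
    rw [hr, hK]; exact_mod_cast hcon
  have hKpos : 0 < K := by linarith
  have h1 : K ^ 2 * L ^ 2 ≤ r * (K * ((3 / 2) * L ^ 2) + K * (K - 1) * (L ^ 2 * (1 + r) / (4 * r ^ 2))) := by
    calc K ^ 2 * L ^ 2 ≤ K ^ 2 * (r * ∑ p ∈ P, (w p) ^ 2) := by
          apply mul_le_mul_of_nonneg_left hCS; positivity
      _ = r * (K ^ 2 * ∑ p ∈ P, (w p) ^ 2) := by ring
      _ ≤ _ := by apply mul_le_mul_of_nonneg_left hfin; linarith
  have h2 : K ≤ r * (3 / 2) + (K - 1) * ((1 + r) / (4 * r)) := by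
    have hKL : 0 < K * L ^ 2 := by positivity
    have h3 : K * L ^ 2 * K ≤ K * L ^ 2 * (r * (3 / 2) + (K - 1) * ((1 + r) / (4 * r))) := by
      calc K * L ^ 2 * K = K ^ 2 * L ^ 2 := by ring
        _ ≤ _ := h1
        _ = K * L ^ 2 * (r * (3 / 2) + (K - 1) * ((1 + r) / (4 * r))) := by
          field_simp
    exact le_of_mul_le_mul_left h3 hKL
  have h4 : 4 * r * K ≤ 6 * r ^ 2 + (K - 1) * (1 + r) := by
    have h5 : 4 * r * K ≤ 4 * r * (r * (3 / 2) + (K - 1) * ((1 + r) / (4 * r))) := by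
      apply mul_le_mul_of_nonneg_left h2; linarith
    have h6 : 4 * r * (r * (3 / 2) + (K - 1) * ((1 + r) / (4 * r))) = 6 * r ^ 2 + (K - 1) * (1 + r) := by
      field_simp
      ring
    linarith
  nlinarith

/-- Logarithm of a natural number through its factorisation over a larger set of primes. -/
lemma log_eq_sum (n : ℕ) (hn : n ≠ 0) (P : Finset ℕ) (hP : n.primeFactors ⊆ P) :
    Real.log n = ∑ p ∈ P, (n.factorization p : ℝ) * Real.log p := by
  have h1 : (n : ℝ) = ∏ p ∈ n.primeFactors, ((p : ℝ) ^ (n.factorization p)) := by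
    have := Nat.prod_factorization_pow_eq_self hn
    conv_lhs => rw [← this]
    rw [Finsupp.prod, Nat.support_factorization]
    push_cast
    rfl
  rw [h1, Real.log_prod]
  · rw [← Finset.sum_subset hP]
    · apply Finset.sum_congr rfl
      intro p _
      rw [Real.log_pow]
    · intro p _ hp
      rw [← Nat.support_factorization, Finsupp.mem_support_iff] at hp
      push Not at hp
      rw [hp]; simp
  · intro p hp
    have := (Nat.prime_of_mem_primeFactors hp).pos
    positivity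

/-- `5ab ≤ 2c` for Markov triples with `c > 2`. -/
lemma five_ab {c a b : ℤ} (h : MP c a b) (hc : 2 < c) : 5 * (a * b) ≤ 2 * c := by
  have hlt : b < c := by
    rcases h.b_le_c.lt_or_eq with h1 | h1
    · exact h1
    · have := h.eq_one_of_b_eq_c h1; omega
  have hr := h.refl_le hlt
  have hrp := h.refl_pos
  have ha := h.a_pos
  have hb := h.b_pos
  have he := h.eq
  -- c * (3ab - c) = a² + b²
  have e1 : c * (3 * a * b - c) = a ^ 2 + b ^ 2 := by nlinarith
  -- b ≥ 2
  have hb2 : 2 ≤ b := by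
    by_contra hcon
    have hb1 : b = 1 := by omega
    have ha1 : a = 1 := by have := h.a_le_b; omega
    subst hb1 ha1
    have : (c - 1) * (c - 2) = 0 := by nlinarith
    rcases mul_eq_zero.mp this with h | h <;> omega
  obtain ⟨t, ht⟩ : ∃ t, t = 3 * a * b - c := ⟨_, rfl⟩
  rw [← ht] at hr hrp e1
  have hct : c = 3 * a * b - t := by linarith
  -- want ab ≥ 2t
  suffices h2 : 2 * t ≤ a * b by nlinarith
  by_contra hcon
  push Not at hcon
  have ha12 : a = 1 := by
    by_contra hne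
    have : 2 ≤ a := by omega
    nlinarith
  subst ha12
  -- c = 3b - t, (3b - t) t = 1 + b²
  rw [hct] at e1
  have h3 : t ≤ b - 1 := by
    by_contra hcon2
    have h4 : t = b := by omega
    rw [h4] at e1
    nlinarith
  nlinarith

/-- The sign attached to a prime and two Markov pairs. -/
noncomputable def sg (p : ℕ) (a b a' b' : ℤ) : ℝ :=
  open Classical in if (p : ℤ) ∣ a' * b - a * b' then 1 else -1

lemma sg_sq (p : ℕ) (a b a' b' : ℤ) : (sg p a b a' b') ^ 2 = 1 := by
  unfold sg; split_ifs <;> norm_num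

lemma sg_comm (p : ℕ) (a b a' b' : ℤ) : sg p a b a' b' = sg p a' b' a b := by
  unfold sg
  have : ((p : ℤ) ∣ a' * b - a * b') ↔ ((p : ℤ) ∣ a * b' - a' * b) := by
    rw [← dvd_neg]; ring_nf
  simp only [this]

/-- The dichotomy. -/
lemma dvd_or {c a b a' b' p : ℤ} (h : MP c a b) (h' : MP c a' b') (hp : Prime p)
    (hpc : p ∣ c) : p ∣ a' * b - a * b' ∨ p ∣ a' * b + a * b' := by
  apply hp.dvd_or_dvd
  have e1 := h.sum_sq
  have e2 := h'.sum_sq
  have : (a' * b - a * b') * (a' * b + a * b')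
      = c * (a' ^ 2 * (3 * a * b - c) - a ^ 2 * (3 * a' * b' - c)) := by
    linear_combination (a' ^ 2) * e1 - (a ^ 2) * e2
  rw [this]
  exact Dvd.dvd.mul_right hpc _

lemma sg_mul {c a₀ b₀ a b a' b' : ℤ} {p : ℕ} (h₀ : MP c a₀ b₀) (h : MP c a b) (h' : MP c a' b')
    (hp : Prime (p : ℤ)) (hp2 : ¬ (p : ℤ) ∣ 2) (hpc : (p : ℤ) ∣ c) :
    sg p a b a₀ b₀ * sg p a' b' a₀ b₀ = sg p a b a' b' := by
  have ha₀ := h₀.not_dvd_a hp hpc
  have hb₀ := h₀.not_dvd_b hp hpc
  have hb := h.not_dvd_b hp hpc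
  have hb' := h'.not_dvd_b hp hpc
  unfold sg
  by_cases h1 : (p : ℤ) ∣ a₀ * b - a * b₀ <;> by_cases h2 : (p : ℤ) ∣ a₀ * b' - a' * b₀
  · have : (p : ℤ) ∣ a' * b - a * b' := by
      have h3 : (p : ℤ) ∣ b₀ * (a' * b - a * b') := by
        have : b₀ * (a' * b - a * b') = b' * (a₀ * b - a * b₀) - b * (a₀ * b' - a' * b₀) := by ring
        rw [this]; exact dvd_sub (Dvd.dvd.mul_left h1 _) (Dvd.dvd.mul_left h2 _)
      exact (hp.dvd_or_dvd h3).resolve_left hb₀
    simp [h1, h2, this]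
  · have h2' : (p : ℤ) ∣ a₀ * b' + a' * b₀ := (dvd_or h' h₀ hp hpc).resolve_left h2
    have : ¬ (p : ℤ) ∣ a' * b - a * b' := by
      intro h3
      have h4 : (p : ℤ) ∣ 2 * (a₀ * (b * b')) := by
        have : 2 * (a₀ * (b * b')) = b' * (a₀ * b - a * b₀) + b * (a₀ * b' + a' * b₀)
          - b₀ * (a' * b - a * b') := by ring
        rw [this]
        exact dvd_sub (dvd_add (Dvd.dvd.mul_left h1 _) (Dvd.dvd.mul_left h2' _))
          (Dvd.dvd.mul_left h3 _)
      have h5 := (hp.dvd_or_dvd h4).resolve_left hp2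
      have h6 := (hp.dvd_or_dvd h5).resolve_left ha₀
      exact (hp.dvd_or_dvd h6).elim hb hb'
    simp [h1, h2, this]
  · have h1' : (p : ℤ) ∣ a₀ * b + a * b₀ := (dvd_or h h₀ hp hpc).resolve_left h1
    have : ¬ (p : ℤ) ∣ a' * b - a * b' := by
      intro h3
      have h4 : (p : ℤ) ∣ 2 * (a₀ * (b * b')) := by
        have : 2 * (a₀ * (b * b')) = b' * (a₀ * b + a * b₀) + b * (a₀ * b' - a' * b₀)
          + b₀ * (a' * b - a * b') := by ring
        rw [this]
        exact dvd_add (dvd_add (Dvd.dvd.mul_left h1' _) (Dvd.dvd.mul_left h2 _))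
          (Dvd.dvd.mul_left h3 _)
      have h5 := (hp.dvd_or_dvd h4).resolve_left hp2
      have h6 := (hp.dvd_or_dvd h5).resolve_left ha₀
      exact (hp.dvd_or_dvd h6).elim hb hb'
    simp [h1, h2, this]
  · have h1' : (p : ℤ) ∣ a₀ * b + a * b₀ := (dvd_or h h₀ hp hpc).resolve_left h1
    have h2' : (p : ℤ) ∣ a₀ * b' + a' * b₀ := (dvd_or h' h₀ hp hpc).resolve_left h2
    have : (p : ℤ) ∣ a' * b - a * b' := by
      have h3 : (p : ℤ) ∣ b₀ * (a' * b - a * b') := by
        have : b₀ * (a' * b - a * b') = b * (a₀ * b' + a' * b₀) - b' * (a₀ * b + a * b₀) := by ring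
        rw [this]; exact dvd_sub (Dvd.dvd.mul_left h2' _) (Dvd.dvd.mul_left h1' _)
      exact (hp.dvd_or_dvd h3).resolve_left hb₀
    simp [h1, h2, this]

/-- The weight of a prime. -/
noncomputable def wt (c p : ℕ) : ℝ := (c.factorization p : ℝ) * Real.log p

/-- The pair estimate. -/
lemma pair_estimate (c : ℕ) (hc : 2 < c) {a b a' b' : ℤ} (h : MP c a b) (h' : MP c a' b')
    (hb : b' < b) :
    ∑ p ∈ c.primeFactors.erase 2, wt c p * sg p a b a' b' ≤ Real.log b - Real.log b' ∧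
    -((∑ p ∈ c.primeFactors.erase 2, wt c p) / 2) ≤
      ∑ p ∈ c.primeFactors.erase 2, wt c p * sg p a b a' b' ∧
    Real.log b - Real.log b' < (∑ p ∈ c.primeFactors.erase 2, wt c p) / 2 := by
  obtain ⟨κ, M, N, A, B, C, E, s⟩ := exists_split h h' hb
  obtain ⟨Mn, hMn⟩ : ∃ n : ℕ, M = n := ⟨M.toNat, by have := s.M_pos; omega⟩
  obtain ⟨Nn, hNn⟩ : ∃ n : ℕ, N = n := ⟨N.toNat, by have := s.N_pos; omega⟩
  obtain ⟨κn, hκn⟩ : ∃ n : ℕ, κ = n := ⟨κ.toNat, by have := s.kap_pos; omega⟩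
  subst hMn hNn hκn
  have hMn0 : 0 < Mn := by exact_mod_cast s.M_pos
  have hNn0 : 0 < Nn := by exact_mod_cast s.N_pos
  have hκ : κn = 1 ∨ κn = 2 := by
    rcases s.kap with h | h
    · left; exact_mod_cast h
    · right; exact_mod_cast h
  have hκ0 : 0 < κn := by omega
  have hprod : κn * Mn * Nn = c := by exact_mod_cast s.prod
  have hModd : Odd Mn := by exact_mod_cast s.M_odd
  have hNodd : Odd Nn := by exact_mod_cast s.N_odd
  have hcop : Nat.Coprime Mn Nn := Nat.isCoprime_iff_coprime.mp s.cop_MN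
  have hc0 : c ≠ 0 := by omega
  obtain ⟨P, hP⟩ : ∃ P, P = c.primeFactors.erase 2 := ⟨_, rfl⟩
  rw [← hP]
  have hsubM : Mn.primeFactors ⊆ P := by
    intro p hp
    rw [hP, Finset.mem_erase]
    have hpp := Nat.prime_of_mem_primeFactors hp
    have hpd := Nat.dvd_of_mem_primeFactors hp
    refine ⟨?_, ?_⟩
    · rintro rfl
      obtain ⟨t, ht⟩ := hModd
      omega
    · rw [Nat.mem_primeFactors]
      exact ⟨hpp, by rw [← hprod]; exact Dvd.dvd.mul_right (Dvd.dvd.mul_left hpd _) _, hc0⟩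
  have hsubN : Nn.primeFactors ⊆ P := by
    intro p hp
    rw [hP, Finset.mem_erase]
    have hpp := Nat.prime_of_mem_primeFactors hp
    have hpd := Nat.dvd_of_mem_primeFactors hp
    refine ⟨?_, ?_⟩
    · rintro rfl
      obtain ⟨t, ht⟩ := hNodd
      omega
    · rw [Nat.mem_primeFactors]
      exact ⟨hpp, by rw [← hprod]; exact Dvd.dvd.mul_left hpd _, hc0⟩
  have hlogM := log_eq_sum Mn hMn0.ne' P hsubM
  have hlogN := log_eq_sum Nn hNn0.ne' P hsubN
  have hfac : ∀ p ∈ P, c.factorization p = Mn.factorization p + Nn.factorization p := by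
    intro p hp
    rw [hP, Finset.mem_erase] at hp
    rw [← hprod, Nat.factorization_mul (by positivity) hNn0.ne',
      Nat.factorization_mul hκ0.ne' hMn0.ne']
    simp only [Finsupp.add_apply]
    have : κn.factorization p = 0 := by
      rcases hκ with rfl | rfl
      · simp
      · rw [Nat.Prime.factorization Nat.prime_two]
        rw [Finsupp.single_apply, if_neg]
        exact fun h => hp.1 h.symm
    omega
  -- sum of weights
  have hW : ∑ p ∈ P, wt c p = Real.log Mn + Real.log Nn := by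
    rw [hlogM, hlogN, ← Finset.sum_add_distrib]
    apply Finset.sum_congr rfl
    intro p hp
    unfold wt
    rw [hfac p hp]; push_cast; ring
  have hGs : ∑ p ∈ P, wt c p * sg p a b a' b' = Real.log Mn - Real.log Nn := by
    rw [hlogM, hlogN, ← Finset.sum_sub_distrib]
    apply Finset.sum_congr rfl
    intro p hp
    have hp' := hp
    rw [hP, Finset.mem_erase] at hp'
    have hpp := Nat.prime_of_mem_primeFactors hp'.2
    have hpc := Nat.dvd_of_mem_primeFactors hp'.2
    have hpz : Prime (p : ℤ) := Nat.prime_iff_prime_int.mp hpp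
    have hp2 : ¬ (p : ℤ) ∣ 2 := by
      intro h2
      have h3 : p ∣ 2 := by exact_mod_cast h2
      exact hp'.1 ((Nat.prime_dvd_prime_iff_eq hpp Nat.prime_two).mp h3)
    have hpcz : (p : ℤ) ∣ (c : ℤ) := by exact_mod_cast hpc
    unfold wt
    rw [hfac p hp]
    by_cases hpM : p ∣ Mn
    · have hpN : ¬ p ∣ Nn := by
        intro hpN
        exact hpp.one_lt.ne' (Nat.eq_one_of_dvd_coprimes hcop hpM hpN)
      have h1 : Nn.factorization p = 0 := Nat.factorization_eq_zero_of_not_dvd hpN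
      have h2 : (p : ℤ) ∣ a' * b - a * b' := by
        rw [s.u_eq]
        have : (p : ℤ) ∣ (Mn : ℤ) := by exact_mod_cast hpM
        exact Dvd.dvd.mul_left (Dvd.dvd.mul_right (dvd_pow this two_ne_zero) _) _
      unfold sg
      rw [if_pos h2, h1]; push_cast; ring
    · have hpN : p ∣ Nn := by
        rw [← hprod] at hpc
        rcases hpp.dvd_mul.mp hpc with h1 | h1
        · rcases hpp.dvd_mul.mp h1 with h2 | h2
          · exfalso
            apply hp2
            have : (p : ℤ) ∣ (κn : ℤ) := by exact_mod_cast h2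
            rcases hκ with rfl | rfl
            · exact dvd_trans this (by norm_num)
            · exact_mod_cast this
          · exact absurd h2 hpM
        · exact h1
      have h1 : Mn.factorization p = 0 := Nat.factorization_eq_zero_of_not_dvd hpM
      have h2 : ¬ (p : ℤ) ∣ a' * b - a * b' := by
        intro h3
        apply no_both h h' hpz hp2 hpcz h3
        rw [s.v_eq]
        have : (p : ℤ) ∣ (Nn : ℤ) := by exact_mod_cast hpN
        exact Dvd.dvd.mul_left (Dvd.dvd.mul_right (dvd_pow this two_ne_zero) _) _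
      unfold sg
      rw [if_neg h2, h1]; push_cast; ring
  rw [hGs, hW]
  have hMr : (0 : ℝ) < Mn := by exact_mod_cast hMn0
  have hNr : (0 : ℝ) < Nn := by exact_mod_cast hNn0
  have hb0 := h.b_pos
  have hb'0 := h'.b_pos
  have hbr : (0 : ℝ) < b := by exact_mod_cast hb0
  have hb'r : (0 : ℝ) < b' := by exact_mod_cast hb'0
  refine ⟨?_, ?_, ?_⟩
  · -- M b' ≤ N b
    have hcz : (2 : ℤ) < c := by exact_mod_cast hc
    have f1 := five_ab h' hcz
    have hu := s.u_eq
    have hE := s.E_pos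
    have ha := h.a_pos
    have ha' := h'.a_pos
    have k1 : (κn : ℤ) ^ 2 * (Mn : ℤ) ^ 2 < a' * b := by
      have h1 : (κn : ℤ) ^ 2 * (Mn : ℤ) ^ 2 ≤ (κn : ℤ) ^ 2 * ((Mn : ℤ) ^ 2 * E) := by
        have : (0 : ℤ) ≤ (κn : ℤ) ^ 2 * (Mn : ℤ) ^ 2 := by positivity
        nlinarith
      have h2 : 0 < a * b' := mul_pos ha hb'0
      linarith
    have k2 : 5 * ((κn : ℤ) ^ 2 * (Mn : ℤ) ^ 2 * b') ≤ 2 * (c : ℤ) * b := by
      have h1 : (κn : ℤ) ^ 2 * (Mn : ℤ) ^ 2 * b' ≤ a' * b * b' := by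
        apply mul_le_mul_of_nonneg_right k1.le hb'0.le
      have h2 : 5 * (a' * b') * b ≤ 2 * c * b := mul_le_mul_of_nonneg_right f1 hb0.le
      nlinarith
    have k3 : (Mn : ℤ) * b' ≤ Nn * b := by
      have hcz' : (c : ℤ) = κn * Mn * Nn := by rw [← hprod]; push_cast; ring
      rw [hcz'] at k2
      have hκM : (0 : ℤ) < κn * Mn := by positivity
      have h1 : (κn * Mn : ℤ) * (5 * (κn * (Mn * b'))) ≤ (κn * Mn : ℤ) * (2 * (Nn * b)) := by
        nlinarith
      have h2 : 5 * ((κn : ℤ) * (Mn * b')) ≤ 2 * (Nn * b) := le_of_mul_le_mul_left h1 hκM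
      have h3 : (Mn : ℤ) * b' ≤ κn * (Mn * b') := by
        have : (1 : ℤ) ≤ κn := by exact_mod_cast hκ0
        have : (0 : ℤ) ≤ Mn * b' := by positivity
        nlinarith
      have h4 : (0 : ℤ) < Mn * b' := by positivity
      linarith
    have k4 : (Mn : ℝ) * b' ≤ Nn * b := by exact_mod_cast k3
    have k5 := Real.log_le_log (by positivity) k4
    rw [Real.log_mul hMr.ne' hb'r.ne', Real.log_mul hNr.ne' hbr.ne'] at k5
    linarith
  · -- N ≤ M³
    have h1 := s.three_c_lt_M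
    have hAB : 1 ≤ A * B := mul_pos s.A_pos s.B_pos
    have hcz' : (c : ℤ) = κn * Mn * Nn := by rw [← hprod]; push_cast; ring
    have h2 : (Mn : ℤ) * Nn < Mn ^ 4 := by
      have h3 : (Mn : ℤ) * Nn ≤ c := by
        rw [hcz']
        have : (1 : ℤ) ≤ κn := by exact_mod_cast hκ0
        have : (0 : ℤ) ≤ Mn * Nn := by positivity
        nlinarith
      have hcp : (0 : ℤ) < c := by positivity
      nlinarith
    have h3 : (Nn : ℤ) ≤ Mn ^ 3 := by
      have hMz : (0 : ℤ) < Mn := by exact_mod_cast hMn0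
      have h4 : (Mn : ℤ) * Nn < Mn * Mn ^ 3 := by
        have : (Mn : ℤ) * Mn ^ 3 = Mn ^ 4 := by ring
        rw [this]; exact h2
      exact (lt_of_mul_lt_mul_left h4 hMz.le).le
    have h4 : (Nn : ℝ) ≤ (Mn : ℝ) ^ 3 := by exact_mod_cast h3
    have h5 := Real.log_le_log hNr h4
    rw [Real.log_pow] at h5
    push_cast at h5
    linarith
  · -- b² < M N b'²
    have hcz : (2 : ℤ) < c := by exact_mod_cast hc
    have f1 := five_ab h hcz
    have f2 := h'.refl_pos
    have ha := h.a_pos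
    have ha'b' := h'.a_le_b
    have g1 : 5 * b ≤ 2 * (c : ℤ) := by nlinarith
    have g2 : (c : ℤ) < 3 * b' ^ 2 := by nlinarith
    have g3 : (c : ℤ) ≤ 2 * (Mn * Nn) := by
      have hcz' : (c : ℤ) = κn * (Mn * Nn) := by rw [← hprod]; push_cast; ring
      rw [hcz']
      have : (κn : ℤ) ≤ 2 := by rcases hκ with h | h <;> simp [h]
      apply mul_le_mul_of_nonneg_right this; positivity
    have g4 : (c : ℤ) ^ 2 < 6 * ((Mn * Nn) * b' ^ 2) := by
      have hc0 : (0 : ℤ) < c := by linarith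
      calc (c : ℤ) ^ 2 = c * c := by ring
        _ < c * (3 * b' ^ 2) := mul_lt_mul_of_pos_left g2 hc0
        _ ≤ (2 * (Mn * Nn)) * (3 * b' ^ 2) := by
            apply mul_le_mul_of_nonneg_right g3; positivity
        _ = 6 * ((Mn * Nn) * b' ^ 2) := by ring
    have g5 : 25 * b ^ 2 ≤ 4 * (c : ℤ) ^ 2 := by nlinarith
    have g6 : b ^ 2 < (Mn * Nn) * b' ^ 2 := by nlinarith
    have g7 : (b : ℝ) ^ 2 < (Mn * Nn) * (b' : ℝ) ^ 2 := by exact_mod_cast g6
    have g8 := Real.log_lt_log (by positivity) g7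
    rw [Real.log_mul (by positivity) (by positivity), Real.log_mul hMr.ne' hNr.ne', Real.log_pow,
      Real.log_pow] at g8
    push_cast at g8
    linarith

/-- **Polynomial multiplicity bound.**  For every natural number `c > 2`, the number of pairs
`(a, b)` with `1 ≤ a ≤ b ≤ c` and `a² + b² + c² = 3abc` is at most `2 r²`, where `r` is the
number of odd primes dividing `c`. -/
theorem result (c : ℕ) (hc : 2 < c) :
    ((Finset.Icc 1 c ×ˢ Finset.Icc 1 c).filter
      (fun p : ℕ × ℕ => p.1 ≤ p.2 ∧ p.1 ^ 2 + p.2 ^ 2 + c ^ 2 = 3 * p.1 * p.2 * c)).card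
      ≤ 2 * (c.primeFactors.erase 2).card ^ 2 := by
  classical
  obtain ⟨T, hT⟩ : ∃ T, T = (Finset.Icc 1 c ×ˢ Finset.Icc 1 c).filter
      (fun p : ℕ × ℕ => p.1 ≤ p.2 ∧ p.1 ^ 2 + p.2 ^ 2 + c ^ 2 = 3 * p.1 * p.2 * c) := ⟨_, rfl⟩
  obtain ⟨P, hP⟩ : ∃ P, P = c.primeFactors.erase 2 := ⟨_, rfl⟩
  rw [← hT, ← hP]
  have hmp : ∀ i ∈ T, MP c i.1 i.2 := by
    intro i hi
    rw [hT, Finset.mem_filter, Finset.mem_product, Finset.mem_Icc, Finset.mem_Icc] at hi
    obtain ⟨⟨⟨h1, h2⟩, h3, h4⟩, h5, h6⟩ := hi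
    refine ⟨by exact_mod_cast h1, by exact_mod_cast h5, by exact_mod_cast h4, ?_⟩
    exact_mod_cast h6
  rcases T.eq_empty_or_nonempty with hemp | hne
  · rw [hemp]; simp
  obtain ⟨i₀, hi₀, hmin⟩ := T.exists_min_image (fun i => i.2) hne
  have hP₀ := hmp i₀ hi₀
  -- `P` is nonempty
  have hPne : 1 ≤ P.card := by
    rw [Nat.one_le_iff_ne_zero, Finset.card_ne_zero]
    by_contra hcon
    rw [Finset.not_nonempty_iff_eq_empty, hP] at hcon
    have hall : ∀ p, p.Prime → p ∣ c → p = 2 := by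
      intro p hp hpc
      by_contra hne2
      have : p ∈ c.primeFactors.erase 2 := by
        rw [Finset.mem_erase, Nat.mem_primeFactors]
        exact ⟨hne2, hp, hpc, by omega⟩
      rw [hcon] at this
      exact absurd this (Finset.notMem_empty _)
    have hpow := (Nat.eq_prime_pow_of_unique_prime_dvd (n := c) (p := 2) (by omega)
      (fun {d} hd hdc => hall d hd hdc))
    have h4 : (4 : ℕ) ∣ c := by
      rw [hpow]
      have : 2 ≤ c.primeFactorsList.length := by
        by_contra hlt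
        have h5 : c.primeFactorsList.length = 0 ∨ c.primeFactorsList.length = 1 := by omega
        rcases h5 with h5 | h5 <;> rw [h5] at hpow <;> omega
      have h6 : (4 : ℕ) = 2 ^ 2 := by norm_num
      rw [h6]; exact pow_dvd_pow 2 this
    exact hP₀.not_four_dvd (by exact_mod_cast h4)
  obtain ⟨L, hL⟩ : ∃ L, L = ∑ p ∈ P, wt c p := ⟨_, rfl⟩
  have hprime : ∀ p ∈ P, p.Prime ∧ p ≠ 2 ∧ p ∣ c := by
    intro p hp
    rw [hP, Finset.mem_erase] at hp
    exact ⟨Nat.prime_of_mem_primeFactors hp.2, hp.1, Nat.dvd_of_mem_primeFactors hp.2⟩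
  have hwpos : ∀ p ∈ P, 0 < wt c p := by
    intro p hp
    obtain ⟨h1, h2, h3⟩ := hprime p hp
    unfold wt
    have h4 : 0 < c.factorization p := h1.factorization_pos_of_dvd (by omega) h3
    have h5 : 0 < Real.log p := Real.log_pos (by exact_mod_cast h1.one_lt)
    positivity
  have hLpos : 0 < L := by
    rw [hL]
    exact Finset.sum_pos hwpos (Finset.card_pos.mp hPne)
  obtain ⟨r, hr⟩ : ∃ r : ℝ, r = (P.card : ℝ) := ⟨_, rfl⟩
  have hr1 : (1 : ℝ) ≤ r := by rw [hr]; exact_mod_cast hPne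
  -- positions
  obtain ⟨y, hy⟩ : ∃ y : ℕ × ℕ → ℝ, y = fun i => Real.log (i.2 : ℝ) := ⟨_, rfl⟩
  have hbpos : ∀ i ∈ T, (0 : ℝ) < (i.2 : ℝ) := by
    intro i hi
    have := (hmp i hi).b_pos
    exact_mod_cast this
  have hy0 : ∀ i ∈ T, y i₀ ≤ y i := by
    intro i hi
    rw [hy]
    apply Real.log_le_log (hbpos i₀ hi₀)
    exact_mod_cast hmin i hi
  have hyL : ∀ i ∈ T, y i - y i₀ < L / 2 := by
    intro i hi
    rcases (hmin i hi).eq_or_lt with h1 | h1
    · have : y i = y i₀ := by rw [hy]; simp only; rw [h1]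
      rw [this]; simp; positivity
    · have := (pair_estimate c hc (hmp i hi) hP₀ (by exact_mod_cast h1)).2.2
      rw [hL, hP, hy]
      exact_mod_cast this
  have hinj : ∀ i ∈ T, ∀ j ∈ T, i.2 = j.2 → i = j := by
    intro i hi j hj hij
    have h1 := hmp i hi
    have h2 := hmp j hj
    rw [← hij] at h2
    have h3 := eq_of_eq h1 h2
    exact Prod.ext (by exact_mod_cast h3) hij
  -- sign vectors
  obtain ⟨s, hs⟩ : ∃ s : ℕ × ℕ → ℕ → ℝ, s = fun i p => sg p i.1 i.2 i₀.1 i₀.2 := ⟨_, rfl⟩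
  have hss : ∀ i ∈ T, ∀ j ∈ T, ∀ p ∈ P, s i p * s j p = sg p i.1 i.2 j.1 j.2 := by
    intro i hi j hj p hp
    obtain ⟨h1, h2, h3⟩ := hprime p hp
    rw [hs]
    apply sg_mul hP₀ (hmp i hi) (hmp j hj) (Nat.prime_iff_prime_int.mp h1) _ (by exact_mod_cast h3)
    intro h4
    have h5 : p ∣ 2 := by exact_mod_cast h4
    exact h2 ((Nat.prime_dvd_prime_iff_eq h1 Nat.prime_two).mp h5)
  have hG : ∀ i ∈ T, ∀ j ∈ T, i ≠ j →
      ∑ p ∈ P, wt c p * (s i p * s j p) ≤ |y i - y j| ∧
      -(L / 2) ≤ ∑ p ∈ P, wt c p * (s i p * s j p) := by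
    intro i hi j hj hij
    have hsum : ∑ p ∈ P, wt c p * (s i p * s j p) = ∑ p ∈ P, wt c p * sg p i.1 i.2 j.1 j.2 := by
      apply Finset.sum_congr rfl
      intro p hp
      rw [hss i hi j hj p hp]
    have hne2 : i.2 ≠ j.2 := fun h => hij (hinj i hi j hj h)
    rcases lt_or_gt_of_ne hne2 with hlt | hlt
    · have hsum2 : ∑ p ∈ P, wt c p * sg p i.1 i.2 j.1 j.2
          = ∑ p ∈ P, wt c p * sg p j.1 j.2 i.1 i.2 := by
        apply Finset.sum_congr rfl
        intro p _
        rw [sg_comm]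
      obtain ⟨h1, h2, _⟩ := pair_estimate c hc (hmp j hj) (hmp i hi) (by exact_mod_cast hlt)
      rw [← hP] at h1 h2
      rw [hsum, hsum2]
      refine ⟨?_, by rw [hL]; exact h2⟩
      have h3 : y j - y i ≤ |y i - y j| := by rw [abs_sub_comm]; exact le_abs_self _
      have h4 : Real.log ((j.2 : ℤ) : ℝ) - Real.log ((i.2 : ℤ) : ℝ) = y j - y i := by
        rw [hy]; simp
      linarith
    · obtain ⟨h1, h2, _⟩ := pair_estimate c hc (hmp i hi) (hmp j hj) (by exact_mod_cast hlt)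
      rw [← hP] at h1 h2
      rw [hsum]
      refine ⟨?_, by rw [hL]; exact h2⟩
      have h3 : y i - y j ≤ |y i - y j| := le_abs_self _
      have h4 : Real.log ((i.2 : ℤ) : ℝ) - Real.log ((j.2 : ℤ) : ℝ) = y i - y j := by
        rw [hy]; simp
      linarith
  -- windows
  obtain ⟨f, hf⟩ : ∃ f : ℕ × ℕ → ℕ, f = fun i => ⌊(y i - y i₀) * (2 * r / L)⌋₊ := ⟨_, rfl⟩
  have hq : 0 < 2 * r / L := by positivity
  have hfrange : T.image f ⊆ Finset.range P.card := by
    intro n hn
    obtain ⟨i, hi, rfl⟩ := Finset.mem_image.mp hn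
    rw [Finset.mem_range, hf]
    have h0 : 0 ≤ (y i - y i₀) * (2 * r / L) := by
      apply mul_nonneg _ hq.le
      have := hy0 i hi
      linarith
    rw [Nat.floor_lt h0, ← hr]
    calc (y i - y i₀) * (2 * r / L) < (L / 2) * (2 * r / L) :=
          mul_lt_mul_of_pos_right (hyL i hi) hq
      _ = r := by field_simp
  have hfiber : ∀ n ∈ T.image f, (T.filter (fun i => f i = n)).card ≤ 2 * P.card := by
    intro n _
    apply gram_bound (T.filter (fun i => f i = n)) P (wt c) s L hLpos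
      (fun p hp => (hwpos p hp).le) hL.symm _ hPne
    · intro i hi j hj hij
      rw [Finset.mem_filter] at hi hj
      have h1 := (hG i hi.1 j hj.1 hij).1
      refine le_trans h1 ?_
      have hi2 := hi.2
      have hj2 := hj.2
      rw [hf] at hi2 hj2
      simp only at hi2 hj2
      have hi0 : 0 ≤ (y i - y i₀) * (2 * r / L) := by
        apply mul_nonneg _ hq.le
        have := hy0 i hi.1
        linarith
      have hj0 : 0 ≤ (y j - y i₀) * (2 * r / L) := by
        apply mul_nonneg _ hq.le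
        have := hy0 j hj.1
        linarith
      have a1 := Nat.floor_le hi0
      have a2 := Nat.lt_floor_add_one ((y i - y i₀) * (2 * r / L))
      have b1 := Nat.floor_le hj0
      have b2 := Nat.lt_floor_add_one ((y j - y i₀) * (2 * r / L))
      rw [hi2] at a1 a2
      rw [hj2] at b1 b2
      have h2 : |(y i - y j) * (2 * r / L)| < 1 := by
        rw [abs_lt]
        constructor <;> nlinarith
      rw [abs_mul, abs_of_pos hq] at h2
      have h3 : |y i - y j| < 1 / (2 * r / L) := by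
        rw [lt_div_iff₀ hq]; exact h2
      have h4 : 1 / (2 * r / L) = L / (2 * (P.card : ℝ)) := by
        rw [← hr]; field_simp
      rw [h4] at h3
      exact h3.le
    · intro i hi j hj hij
      rw [Finset.mem_filter] at hi hj
      exact (hG i hi.1 j hj.1 hij).2
    · intro i hi p hp
      rw [hs]
      exact sg_sq _ _ _ _ _
  calc T.card ≤ (2 * P.card) * (T.image f).card := Finset.card_le_mul_card_image T _ hfiber
    _ ≤ (2 * P.card) * P.card := by
        apply Nat.mul_le_mul_left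
        have := Finset.card_le_card hfrange
        rwa [Finset.card_range] at this
    _ = 2 * P.card ^ 2 := by ring

end Pool.Agent.Helper14.MarkovMultiplicity
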