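import Mathlib
import Pool.Agent.Helper14.BooneHalting

set_option autoImplicit false

/-! The Novikov-Boone theorem: a finitely presented group with unsolvable word problem. -/

namespace Pool.Agent.Helper14.Boone

open Turing

/-! ### A universal code (following helper27) -/

/-- A primitive recursive inverse of `n ↦ 2 ^ n - 1`. -/
def lg (m : ℕ) : ℕ := (List.range (m + 1)).findIdx (fun k => decide (m + 1 ≤ 2 ^ k))

theorem lg_pow (n : ℕ) : lg (2 ^ n - 1) = n := by
  have h1 : 2 ^ n - 1 + 1 = 2 ^ n := by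
    have := Nat.one_le_two_pow (n := n); omega
  unfold lg
  rw [h1]
  have hn : n < (List.range (2 ^ n)).length := by
    rw [List.length_range]; exact Nat.lt_two_pow_self
  rw [List.findIdx_eq hn]
  refine ⟨by simp, ?_⟩
  intro j hj
  simp only [List.getElem_range, decide_eq_false_iff_not, not_le]
  exact Nat.pow_lt_pow_right (by norm_num) hj

theorem primrec_lg : Primrec lg := by
  have hpow : Primrec₂ (fun a b : ℕ => a ^ b) := Primrec₂.unpaired'.1 Nat.Primrec.pow
  unfold lg
  refine Primrec.list_findIdx (Primrec.list_range.comp Primrec.succ) ?_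
  have h : PrimrecPred fun p : ℕ × ℕ => p.1 + 1 ≤ 2 ^ p.2 :=
    Primrec.nat_le.comp (Primrec.succ.comp Primrec.fst)
      (hpow.comp (Primrec.const 2) Primrec.snd)
  exact h.decide

/-- A universal code. -/
theorem exists_universal : ∃ U : ToPartrec.Code, ∀ n : ℕ, (U.eval [2 ^ n - 1]).Dom ↔
    (Nat.Partrec.Code.eval (Denumerable.ofNat Nat.Partrec.Code n) 0).Dom := by
  let h : ℕ →. ℕ := fun m => Nat.Partrec.Code.eval (Denumerable.ofNat Nat.Partrec.Code (lg m)) 0
  have hh : Partrec h := by
    have h1 : Partrec₂ Nat.Partrec.Code.eval := Nat.Partrec.Code.eval_part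
    exact h1.comp ((Primrec.ofNat Nat.Partrec.Code).comp primrec_lg).to_comp (Computable.const 0)
  obtain ⟨U, hU⟩ := ToPartrec.Code.exists_code (Nat.Partrec'.part_iff₁.2 hh)
  refine ⟨U, fun n => ?_⟩
  have := hU (List.Vector.cons (2 ^ n - 1) List.Vector.nil)
  have e : (List.Vector.cons (2 ^ n - 1) List.Vector.nil : List.Vector ℕ 1).1 = [2 ^ n - 1] := rfl
  rw [e] at this
  rw [this]
  simp [h, lg_pow]

/-! ### Words -/

section Words

variable {α : Type}

/-- The word of a power. -/
def wpow (a : α) (n : ℕ) : List (α × Bool) := (List.range n).map (fun _ => (a, true))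

theorem mk_wpow (a : α) (n : ℕ) : FreeGroup.mk (wpow a n) = FreeGroup.of a ^ n := by
  induction n with
  | zero => rfl
  | succ n ih =>
    unfold wpow at ih ⊢
    rw [List.range_succ, List.map_append, ← FreeGroup.mul_mk, ih, pow_succ]
    rfl

theorem primrec_wpow [Primcodable α] (a : α) : Primrec (wpow a) :=
  Primrec.list_map Primrec.list_range (Primrec.const _).to₂

/-- The word of a product of powers. -/
def wprod {k : Type} (l : List k) (a : k → α) (ν : k → ℕ) : List (α × Bool) :=
  (l.map fun i => wpow (a i) (ν i)).flatten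

theorem mk_wprod {k : Type} (l : List k) (a : k → α) (ν : k → ℕ) :
    FreeGroup.mk (wprod l a ν) = (l.map fun i => FreeGroup.of (a i) ^ (ν i)).prod := by
  induction l with
  | nil => rfl
  | cons i l ih =>
    unfold wprod at ih ⊢
    rw [List.map_cons, List.flatten_cons, ← FreeGroup.mul_mk, ih, mk_wpow, List.map_cons,
      List.prod_cons]

theorem primrec_wprod [Primcodable α] {k : Type} (l : List k) (a : k → α) (ν : ℕ → k → ℕ)
    (hν : ∀ i, Primrec fun n => ν n i) : Primrec (fun n => wprod l a (ν n)) := by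
  induction l with
  | nil => exact Primrec.const _
  | cons i l ih =>
    have h1 : (fun n => wprod (i :: l) a (ν n)) = fun n => wpow (a i) (ν n i) ++ wprod l a (ν n) := by
      funext n
      simp [wprod]
    rw [h1]
    exact Primrec.list_append.comp ((primrec_wpow (a i)).comp (hν i)) ih

theorem primrec_invRev [Primcodable α] :
    Primrec (FreeGroup.invRev : List (α × Bool) → List (α × Bool)) := by
  unfold FreeGroup.invRev
  refine Primrec.list_reverse.comp (Primrec.list_map Primrec.id ?_)
  exact (Primrec.fst.comp Primrec.snd).pair (Primrec.not.comp (Primrec.snd.comp Primrec.snd))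

/-- The word of `x^ν t x^{-ν}`. -/
noncomputable def wT {k : Type} [Fintype k] (a : k → α) (t : α) (ν : k → ℕ) : List (α × Bool) :=
  wprod (Finset.univ : Finset k).toList a ν ++ (t, true) ::
    FreeGroup.invRev (wprod (Finset.univ : Finset k).toList a ν)

theorem mk_wT {k : Type} [Fintype k] (a : k → α) (t : α) (ν : k → ℕ) :
    FreeGroup.mk (wT a t ν) =
      TT (fun i => FreeGroup.of (a i)) (FreeGroup.of t) (fun i => (ν i : ℤ)) := by
  unfold wT TT XX
  have h1 : ∀ L : List (α × Bool), FreeGroup.mk ((t, true) :: L) = FreeGroup.of t * FreeGroup.mk L :=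
    fun L => rfl
  rw [← FreeGroup.mul_mk, h1, ← FreeGroup.inv_mk, mk_wprod]
  simp only [zpow_natCast, mul_assoc]

theorem primrec_wT [Primcodable α] {k : Type} [Fintype k] (a : k → α) (t : α) (ν : ℕ → k → ℕ)
    (hν : ∀ i, Primrec fun n => ν n i) : Primrec (fun n => wT a t (ν n)) := by
  unfold wT
  have h1 := primrec_wprod (Finset.univ : Finset k).toList a ν hν
  exact Primrec.list_append.comp h1 (Primrec.list_cons.comp (Primrec.const _)
    (primrec_invRev.comp h1))

/-- The word `[κ, t(ν)]`. -/
noncomputable def wC {k : Type} [Fintype k] (a : k → α) (t κ : α) (ν : k → ℕ) : List (α × Bool) :=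
  (κ, true) :: (wT a t ν ++ (κ, false) :: FreeGroup.invRev (wT a t ν))

theorem mk_wC {k : Type} [Fintype k] (a : k → α) (t κ : α) (ν : k → ℕ) :
    FreeGroup.mk (wC a t κ ν) = FreeGroup.of κ *
      TT (fun i => FreeGroup.of (a i)) (FreeGroup.of t) (fun i => (ν i : ℤ)) *
      (FreeGroup.of κ)⁻¹ *
      (TT (fun i => FreeGroup.of (a i)) (FreeGroup.of t) (fun i => (ν i : ℤ)))⁻¹ := by
  unfold wC
  have h1 : ∀ L : List (α × Bool), FreeGroup.mk ((κ, true) :: L) = FreeGroup.of κ * FreeGroup.mk L :=
    fun L => rfl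
  have h2 : ∀ L : List (α × Bool),
      FreeGroup.mk ((κ, false) :: L) = (FreeGroup.of κ)⁻¹ * FreeGroup.mk L :=
    fun L => rfl
  rw [h1, ← FreeGroup.mul_mk, h2, ← FreeGroup.inv_mk, mk_wT]
  simp only [mul_assoc]

theorem primrec_wC [Primcodable α] {k : Type} [Fintype k] (a : k → α) (t κ : α) (ν : ℕ → k → ℕ)
    (hν : ∀ i, Primrec fun n => ν n i) : Primrec (fun n => wC a t κ (ν n)) := by
  unfold wC
  have h1 := primrec_wT a t ν hν
  exact Primrec.list_cons.comp (Primrec.const _) (Primrec.list_append.comp h1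
    (Primrec.list_cons.comp (Primrec.const _) (primrec_invRev.comp h1)))

end Words

/-! ### The theorem -/

theorem primrec_sc {Γ : Type} {g : ℕ} (e : Γ ≃ Fin g) (b c : Γ) :
    Primrec (fun n => sc e (List.replicate n b ++ [c])) := by
  have h : (fun n => sc e (List.replicate n b ++ [c])) =
      (fun n => Nat.rec (motive := fun _ => ℕ) ((g + 1) * 0 + ((e c : ℕ) + 1))
        (fun _ m => (g + 1) * m + ((e b : ℕ) + 1)) n) := by
    funext n
    induction n with
    | zero => rfl
    | succ n ih =>
      rw [List.replicate_succ, List.cons_append]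
      simp only [sc]
      rw [ih]
  rw [h]
  refine Primrec.nat_rec₁ _ ?_
  exact (Primrec.nat_add.comp (Primrec.nat_mul.comp (Primrec.const _) Primrec.snd)
    (Primrec.const _))

/-- **Novikov-Boone theorem.** There is a finite presentation and a primitive recursive sequence of
words `w n` such that `w n` is trivial iff the `n`-th program halts. -/
theorem exists_fp : ∃ (N : ℕ) (R : Finset (FreeGroup (Fin N))) (w : ℕ → List (Fin N × Bool)),
    Primrec w ∧ ∀ n, PresentedGroup.mk (R : Set (FreeGroup (Fin N))) (FreeGroup.mk (w n)) = 1 ↔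
      (Nat.Partrec.Code.eval (Denumerable.ofNat Nat.Partrec.Code n) 0).Dom := by
  classical
  obtain ⟨U, hU⟩ := exists_universal
  have fK : Finite PartrecToTM2.K' := by
    apply Finite.of_surjective (fun i : Fin 4 => match i with
      | 0 => PartrecToTM2.K'.main
      | 1 => PartrecToTM2.K'.rev
      | 2 => PartrecToTM2.K'.aux
      | 3 => PartrecToTM2.K'.stack)
    intro k
    cases k
    · exact ⟨0, rfl⟩
    · exact ⟨1, rfl⟩
    · exact ⟨2, rfl⟩
    · exact ⟨3, rfl⟩
  have fK' : Fintype PartrecToTM2.K' := Fintype.ofFinite _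
  obtain ⟨g, ⟨eΓ⟩⟩ := Finite.exists_equiv_fin PartrecToTM2.Γ'
  obtain ⟨L, ⟨eC⟩⟩ := Finite.exists_equiv_fin (Ct U)
  have hL : L ≠ 0 := by
    rintro rfl
    exact (eC (ht U)).elim0
  let A := (MC U).aff eΓ eC hL
  let v0 := enc (K := PartrecToTM2.K') eΓ eC (ht U, fun _ => [])
  let σ := Ct U × (PartrecToTM2.K' → Fin (g + 1))
  have fσ : Finite σ := inferInstance
  obtain ⟨N, ⟨e⟩⟩ := Finite.exists_equiv_fin (Gen (Option PartrecToTM2.K') σ)
  have hR : (FreeGroup.freeGroupCongr e '' (relSet A v0)).Finite := (relSet_finite A v0).image _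
  let ν : ℕ → Option PartrecToTM2.K' → ℕ := fun n o => match o with
    | none => (eC (ini U n).1 : ℕ)
    | some i => sc eΓ ((ini U n).2 i)
  have hν : ∀ n, (fun i => (ν n i : ℤ)) = enc eΓ eC (ini U n) := by
    intro n
    funext o
    cases o <;> rfl
  have hνp : ∀ i, Primrec fun n => ν n i := by
    intro i
    cases i with
    | none => exact Primrec.const ((eC (ini U 0).1 : Fin L) : ℕ)
    | some i =>
      cases i with
      | main => exact primrec_sc eΓ _ _
      | rev => exact Primrec.const (sc eΓ [])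
      | aux => exact Primrec.const (sc eΓ [])
      | stack => exact Primrec.const (sc eΓ [])
  refine ⟨N, hR.toFinset, fun n => wC (fun i => e (Gen.x i)) (e Gen.t) (e Gen.kap) (ν n),
    primrec_wC _ _ _ _ hνp, ?_⟩
  intro n
  rw [Set.Finite.coe_toFinset, ← hU n, ← reach_ini_iff, ← (MC U).mk_wrd_iff eΓ eC hL (ht U) (ht_nxt U)]
  have h1 : FreeGroup.mk (wC (fun i => e (Gen.x i)) (e Gen.t) (e Gen.kap) (ν n)) =
      FreeGroup.freeGroupCongr e (wrd σ (enc eΓ eC (ini U n))) := by
    rw [mk_wC, hν]
    unfold wrd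
    simp only [map_mul, map_inv]
    have h2 := map_TT (FreeGroup.freeGroupCongr e : FreeGroup (Gen (Option PartrecToTM2.K') σ) →*
      FreeGroup (Fin N)) (gx σ) (gt _ σ) (enc eΓ eC (ini U n))
    have h3 : ∀ y : FreeGroup (Gen (Option PartrecToTM2.K') σ),
        (FreeGroup.freeGroupCongr e : FreeGroup (Gen (Option PartrecToTM2.K') σ) →*
          FreeGroup (Fin N)) y = FreeGroup.freeGroupCongr e y := fun _ => rfl
    rw [h3] at h2
    rw [h2]
    have h4 : (fun i => (FreeGroup.freeGroupCongr e : FreeGroup (Gen (Option PartrecToTM2.K') σ) →*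
        FreeGroup (Fin N)) (gx σ i)) = fun i => FreeGroup.of (e (Gen.x i)) := by
      funext i
      rw [h3]
      simp [gx]
    have h5 : (FreeGroup.freeGroupCongr e : FreeGroup (Gen (Option PartrecToTM2.K') σ) →*
        FreeGroup (Fin N)) (gt _ σ) = FreeGroup.of (e Gen.t) := by
      rw [h3]
      simp [gt]
    have h6 : FreeGroup.freeGroupCongr e (gk (Option PartrecToTM2.K') σ) = FreeGroup.of (e Gen.kap) := by
      simp [gk]
    rw [h4, h5, h6]
  rw [h1]
  have h2 : ∀ y, PresentedGroup.equivPresentedGroup (relSet A v0) e (PresentedGroup.mk _ y) =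
      PresentedGroup.mk (FreeGroup.freeGroupCongr e '' (relSet A v0)) (FreeGroup.freeGroupCongr e y) :=
    fun y => rfl
  rw [← h2]
  exact (MulEquiv.map_eq_one_iff _)

/-- There is a finitely presented group with unsolvable word problem. -/
theorem exists_fp_unsolvable : ∃ (N : ℕ) (R : Finset (FreeGroup (Fin N)))
    (w : ℕ → List (Fin N × Bool)), Computable w ∧
    ¬ ComputablePred (fun n => PresentedGroup.mk (R : Set (FreeGroup (Fin N)))
      (FreeGroup.mk (w n)) = 1) := by
  obtain ⟨N, R, w, hw, h⟩ := exists_fp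
  refine ⟨N, R, w, hw.to_comp, fun hc => ?_⟩
  have h1 : ComputablePred fun c : Nat.Partrec.Code => (Nat.Partrec.Code.eval c 0).Dom := by
    have h2 : ComputablePred fun n => (Nat.Partrec.Code.eval
        (Denumerable.ofNat Nat.Partrec.Code n) 0).Dom := hc.of_eq h
    have h3 : (fun c : Nat.Partrec.Code => (Nat.Partrec.Code.eval c 0).Dom) ≤₀
        (fun n => (Nat.Partrec.Code.eval (Denumerable.ofNat Nat.Partrec.Code n) 0).Dom) := by
      refine ⟨Encodable.encode, Computable.encode, fun c => ?_⟩
      simp only [Denumerable.ofNat_encode]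
    exact ComputablePred.computable_of_manyOneReducible h3 h2
  exact ComputablePred.halting_problem 0 h1

/-- The word problem itself is not computable. -/
theorem exists_fp_wordProblem : ∃ (N : ℕ) (R : Finset (FreeGroup (Fin N))),
    ¬ ComputablePred (fun l : List (Fin N × Bool) =>
      PresentedGroup.mk (R : Set (FreeGroup (Fin N))) (FreeGroup.mk l) = 1) := by
  obtain ⟨N, R, w, hw, h⟩ := exists_fp_unsolvable
  refine ⟨N, R, fun hc => h ?_⟩
  exact ComputablePred.computable_of_manyOneReducible ⟨w, hw, fun n => Iff.rfl⟩ hc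

end Pool.Agent.Helper14.Boone
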